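import Mathlib

set_option autoImplicit false

/-!
Basic metric geometry of graphs with uniform polynomial growth: packing, nets, connected cells.
-/

namespace Pool.Agent.Lib.MP_2ce0dd_pr

variable {V : Type*} {G : SimpleGraph V}

/-- Closed ball in the graph metric. -/
def gball (G : SimpleGraph V) (v : V) (n : ℕ) : Set V := {w | G.dist v w ≤ n}

/-- Convenient form of uniform polynomial growth. -/
structure Growth (G : SimpleGraph V) (d c C : ℝ) : Prop where
  conn : G.Connected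
  fin : ∀ v n, (gball G v n).Finite
  low : ∀ v (n : ℕ), c * ((n : ℝ) + 1) ^ d ≤ ((gball G v n).ncard : ℝ)
  up : ∀ v (n : ℕ), ((gball G v n).ncard : ℝ) ≤ C * ((n : ℝ) + 1) ^ d

/-- The packing bound. -/
noncomputable def pk (d c C t : ℝ) : ℝ := (C / c) * (2 * (t + 2)) ^ d

lemma packing {d c C : ℝ} (hG : Growth G d c C) (hc : 0 < c) (hC : 0 ≤ C) (hd : 0 ≤ d)
    {j s : ℕ} (hj : 1 ≤ j) {t : ℝ} (ht : 0 ≤ t) (hs : (s : ℝ) ≤ t * j) (z : V) (F : Finset V)
    (hF : ∀ x ∈ F, G.dist z x ≤ s) (hsep : ∀ x ∈ F, ∀ y ∈ F, x ≠ y → j ≤ G.dist x y) :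
    (F.card : ℝ) ≤ pk d c C t := by
  classical
  set m := (j - 1) / 2 with hm
  have hm2 : 2 * m ≤ j - 1 := by omega
  have hm3 : j ≤ 2 * (m + 1) := by omega
  let B : V → Finset V := fun y => (hG.fin y m).toFinset
  have hdisj : (↑F : Set V).PairwiseDisjoint B := by
    intro x hx y hy hxy
    rw [Function.onFun, Finset.disjoint_left]
    intro w hw1 hw2
    have h1 : G.dist x w ≤ m := by simpa [B, gball] using hw1
    have h2 : G.dist y w ≤ m := by simpa [B, gball] using hw2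
    have h3 := hsep x hx y hy hxy
    have h4 := hG.conn.dist_triangle (u := x) (v := w) (w := y)
    rw [SimpleGraph.dist_comm (u := w)] at h4
    omega
  have hsub : F.biUnion B ⊆ (hG.fin z (s + j)).toFinset := by
    intro w hw
    obtain ⟨y, hy, hw⟩ := Finset.mem_biUnion.1 hw
    have h1 : G.dist y w ≤ m := by simpa [B, gball] using hw
    have h2 := hF y hy
    have h3 := hG.conn.dist_triangle (u := z) (v := y) (w := w)
    simp only [Set.Finite.mem_toFinset, gball]
    show G.dist z w ≤ s + j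
    omega
  have hcard := Finset.card_le_card hsub
  rw [Finset.card_biUnion hdisj] at hcard
  have h1 : ∀ y, c * ((m : ℝ) + 1) ^ d ≤ ((B y).card : ℝ) := by
    intro y
    have := hG.low y m
    rwa [Set.ncard_eq_toFinset_card _ (hG.fin y m)] at this
  have h2 : (((hG.fin z (s + j)).toFinset.card : ℕ) : ℝ) ≤ C * (((s + j : ℕ) : ℝ) + 1) ^ d := by
    have := hG.up z (s + j)
    rwa [Set.ncard_eq_toFinset_card _ (hG.fin z (s + j))] at this
  have h3 : (F.card : ℝ) * (c * ((m : ℝ) + 1) ^ d) ≤ C * (((s + j : ℕ) : ℝ) + 1) ^ d := by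
    calc (F.card : ℝ) * (c * ((m : ℝ) + 1) ^ d) = ∑ y ∈ F, c * ((m : ℝ) + 1) ^ d := by
          rw [Finset.sum_const, nsmul_eq_mul]
      _ ≤ ∑ y ∈ F, ((B y).card : ℝ) := Finset.sum_le_sum fun y _ => h1 y
      _ = ((∑ y ∈ F, (B y).card : ℕ) : ℝ) := by push_cast; rfl
      _ ≤ _ := (Nat.cast_le.2 hcard).trans h2
  have hj0 : (0 : ℝ) < j := by exact_mod_cast hj
  have hjm : (j : ℝ) / 2 ≤ (m : ℝ) + 1 := by
    have : (j : ℝ) ≤ 2 * ((m : ℝ) + 1) := by exact_mod_cast hm3
    linarith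
  have hpos : 0 < c * ((m : ℝ) + 1) ^ d := by positivity
  have h4 : (F.card : ℝ) ≤ C * (((s + j : ℕ) : ℝ) + 1) ^ d / (c * ((m : ℝ) + 1) ^ d) := by
    rw [le_div_iff₀ hpos]; exact h3
  refine h4.trans ?_
  have h5 : (((s + j : ℕ) : ℝ) + 1) ^ d ≤ ((t + 2) * j) ^ d := by
    apply Real.rpow_le_rpow (by positivity) _ hd
    push_cast
    have : (1 : ℝ) ≤ j := by exact_mod_cast hj
    nlinarith
  have h6 : ((j : ℝ) / 2) ^ d ≤ ((m : ℝ) + 1) ^ d :=
    Real.rpow_le_rpow (by positivity) hjm hd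
  have h7 : ((t + 2) * j) ^ d = (2 * (t + 2)) ^ d * ((j : ℝ) / 2) ^ d := by
    rw [← Real.mul_rpow (by positivity) (by positivity)]
    congr 1; ring
  rw [div_le_iff₀ hpos, pk]
  calc C * (((s + j : ℕ) : ℝ) + 1) ^ d ≤ C * ((2 * (t + 2)) ^ d * ((j : ℝ) / 2) ^ d) := by
        rw [← h7]; exact mul_le_mul_of_nonneg_left h5 hC
    _ ≤ C * ((2 * (t + 2)) ^ d * ((m : ℝ) + 1) ^ d) := by
        apply mul_le_mul_of_nonneg_left _ hC
        exact mul_le_mul_of_nonneg_left h6 (by positivity)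
    _ = C / c * (2 * (t + 2)) ^ d * (c * ((m : ℝ) + 1) ^ d) := by
        field_simp

lemma exists_net (G : SimpleGraph V) (j : ℕ) (hj : 1 ≤ j) :
    ∃ N : Set V, (∀ x ∈ N, ∀ y ∈ N, x ≠ y → j ≤ G.dist x y) ∧ ∀ v, ∃ x ∈ N, G.dist v x < j := by
  obtain ⟨N, hN⟩ := zorn_subset {N : Set V | ∀ x ∈ N, ∀ y ∈ N, x ≠ y → j ≤ G.dist x y} (by
    intro c hc hchain
    refine ⟨⋃₀ c, ?_, fun s hs => Set.subset_sUnion_of_mem hs⟩
    intro x hx y hy hxy
    obtain ⟨s, hs, hxs⟩ := hx
    obtain ⟨t, ht, hyt⟩ := hy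
    rcases hchain.total hs ht with h | h
    · exact hc ht x (h hxs) y hyt hxy
    · exact hc hs x hxs y (h hyt) hxy)
  refine ⟨N, hN.prop, ?_⟩
  intro v
  by_contra hcon
  push Not at hcon
  have hins : insert v N ∈ {N : Set V | ∀ x ∈ N, ∀ y ∈ N, x ≠ y → j ≤ G.dist x y} := by
    intro x hx y hy hxy
    rcases hx with rfl | hx <;> rcases hy with rfl | hy
    · exact absurd rfl hxy
    · exact hcon y hy
    · rw [SimpleGraph.dist_comm]; exact hcon x hx
    · exact hN.prop x hx y hy hxy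
  have hle := hN.le_of_ge hins (Set.subset_insert v N)
  have hv : v ∈ N := hle (Set.mem_insert v N)
  have := hcon v hv
  rw [SimpleGraph.dist_self] at this
  omega

lemma exists_cells (hconn : G.Connected) {N : Set V} {j : ℕ}
    (hcov : ∀ v, ∃ x ∈ N, G.dist v x < j) :
    ∃ a : V → V, (∀ v, a v ∈ N) ∧ (∀ v, G.dist v (a v) < j) ∧ (∀ y ∈ N, a y = y) ∧
      ∀ v, ∃ p : G.Walk v (a v), ∀ w ∈ p.support, a w = a v := by
  classical
  have hex : ∀ v, ∃ n, ∃ x ∈ N, G.dist v x = n := fun v => by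
    obtain ⟨x, hx, -⟩ := hcov v
    exact ⟨_, x, hx, rfl⟩
  let D : V → ℕ := fun v => Nat.find (hex v)
  have hD1 : ∀ v, ∃ x ∈ N, G.dist v x = D v := fun v => Nat.find_spec (hex v)
  have hD2 : ∀ v, ∀ x ∈ N, D v ≤ G.dist v x := fun v x hx => Nat.find_min' (hex v) ⟨x, hx, rfl⟩
  have hDj : ∀ v, D v < j := fun v => by
    obtain ⟨x, hx, h⟩ := hcov v
    exact (hD2 v x hx).trans_lt h
  have hD0 : ∀ v, v ∈ N → D v = 0 := fun v hv => by
    have := hD2 v v hv
    rw [SimpleGraph.dist_self] at this; omega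
  have hDpos : ∀ v, D v = 0 → v ∈ N := fun v hv => by
    obtain ⟨x, hx, h⟩ := hD1 v
    rw [hv] at h
    rw [hconn.dist_eq_zero_iff] at h
    exact h ▸ hx
  have hpar : ∀ v, ∃ w, D v ≠ 0 → G.Adj v w ∧ D w + 1 = D v := by
    intro v
    by_cases hv : D v = 0
    · exact ⟨v, fun h => absurd hv h⟩
    · obtain ⟨x, hx, h⟩ := hD1 v
      obtain ⟨p, hp⟩ := hconn.exists_walk_length_eq_dist v x
      cases p with
      | nil => rw [SimpleGraph.dist_self] at h; exact absurd h.symm hv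
      | @cons _ w _ hadj q =>
        refine ⟨w, fun _ => ⟨hadj, ?_⟩⟩
        rw [SimpleGraph.Walk.length_cons] at hp
        have h1 : D w ≤ q.length := (hD2 w x hx).trans (SimpleGraph.dist_le q)
        obtain ⟨x', hx', h'⟩ := hD1 w
        have h2 := hD2 v x' hx'
        have h3 := hconn.dist_triangle (u := v) (v := w) (w := x')
        have h4 : G.dist v w = 1 := SimpleGraph.dist_eq_one_iff_adj.2 hadj
        omega
  choose par hpar using hpar
  let a : V → V := fun v => par^[D v] v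
  have ha0 : ∀ v, D v = 0 → a v = v := fun v hv => by simp [a, hv]
  have ha1 : ∀ v, D v ≠ 0 → a v = a (par v) := fun v hv => by
    have h := (hpar v hv).2
    simp only [a]
    rw [← h, Function.iterate_succ_apply]
  have key : ∀ n v, D v = n → a v ∈ N ∧ G.dist v (a v) ≤ n ∧
      ∃ p : G.Walk v (a v), ∀ w ∈ p.support, a w = a v := by
    intro n
    induction n with
    | zero =>
      intro v hv
      have h0 := ha0 v hv
      refine ⟨by rw [h0]; exact hDpos v hv, by rw [h0, SimpleGraph.dist_self], ?_⟩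
      refine ⟨SimpleGraph.Walk.nil.copy rfl h0.symm, ?_⟩
      intro w hw
      simp at hw
      rw [hw]
    | succ n ih =>
      intro v hv
      have hv0 : D v ≠ 0 := by omega
      obtain ⟨hadj, hDw⟩ := hpar v hv0
      obtain ⟨h1, h2, p, hp⟩ := ih (par v) (by omega)
      have h3 := ha1 v hv0
      rw [← h3] at h1 h2
      refine ⟨h1, ?_, ?_⟩
      · have h4 := hconn.dist_triangle (u := v) (v := par v) (w := a v)
        have h5 : G.dist v (par v) = 1 := SimpleGraph.dist_eq_one_iff_adj.2 hadj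
        omega
      · refine ⟨(SimpleGraph.Walk.cons hadj p).copy rfl h3.symm, ?_⟩
        intro w hw
        rw [SimpleGraph.Walk.support_copy, SimpleGraph.Walk.support_cons, List.mem_cons] at hw
        rcases hw with rfl | hw
        · rfl
        · rw [hp w hw, h3]
  refine ⟨a, fun v => (key _ v rfl).1, fun v => (key _ v rfl).2.1.trans_lt (hDj v),
    fun y hy => ha0 y (hD0 y hy), fun v => (key _ v rfl).2.2⟩

end Pool.Agent.Lib.MP_2ce0dd_pr
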