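import Mathlib

set_option autoImplicit false

/-!
Menger's theorem for finite digraphs, list form (Goering's proof).
-/

namespace Pool.Agent.Lib.MP_2ce0dd_pr

variable {U : Type*} [DecidableEq U]

/-- `p` is a nonempty list of vertices, consecutive ones joined by directed edges of `E`,
starting in `A` and ending in `B`. -/
structure IsABPath (E : Finset (U × U)) (A B : Finset U) (p : List U) : Prop where
  chain : List.IsChain (fun a b => (a, b) ∈ E) p
  head : ∃ a ∈ A, p.head? = some a
  last : ∃ b ∈ B, p.getLast? = some b

omit [DecidableEq U] in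
lemma exists_first_mem (P : U → Prop) : ∀ p : List U, (∃ v ∈ p, P v) →
    ∃ l c r, p = l ++ c :: r ∧ P c ∧ ∀ v ∈ l, ¬ P v := by
  intro p
  induction p with
  | nil => rintro ⟨v, hv, -⟩; simp at hv
  | cons a t ih =>
    rintro ⟨v, hv, hP⟩
    by_cases ha : P a
    · exact ⟨[], a, t, rfl, ha, by simp⟩
    · have hv' : v ∈ t := by
        rcases List.mem_cons.1 hv with h | h
        · exact absurd (h ▸ hP) ha
        · exact h
      obtain ⟨l, c, r, h1, h2, h3⟩ := ih ⟨v, hv', hP⟩
      refine ⟨a :: l, c, r, by simp [h1], h2, ?_⟩
      intro w hw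
      rcases List.mem_cons.1 hw with h | h
      · exact h ▸ ha
      · exact h3 w h

omit [DecidableEq U] in
lemma exists_last_mem (P : U → Prop) : ∀ p : List U, (∃ v ∈ p, P v) →
    ∃ l c r, p = l ++ c :: r ∧ P c ∧ ∀ v ∈ r, ¬ P v := by
  intro p hp
  obtain ⟨l, c, r, h1, h2, h3⟩ := exists_first_mem P p.reverse (by simpa using hp)
  refine ⟨r.reverse, c, l.reverse, ?_, h2, ?_⟩
  · have := congrArg List.reverse h1
    simpa using this
  · intro v hv
    exact h3 v (by simpa using hv)

omit [DecidableEq U] in
lemma prefix_path {E : Finset (U × U)} {A B : Finset U} {l : List U} {c : U} {r : List U}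
    (h : IsABPath E A B (l ++ c :: r)) {P : Finset U} (hc : c ∈ P) :
    IsABPath E A P (l ++ [c]) := by
  refine ⟨?_, ?_, ⟨c, hc, by simp⟩⟩
  · exact (List.isChain_split.1 h.chain).1
  · obtain ⟨a, ha, hh⟩ := h.head
    refine ⟨a, ha, ?_⟩
    cases l with
    | nil => simpa using hh
    | cons x l => simpa using hh

omit [DecidableEq U] in
lemma suffix_path {E : Finset (U × U)} {A B : Finset U} {l : List U} {c : U} {r : List U}
    (h : IsABPath E A B (l ++ c :: r)) {P : Finset U} (hc : c ∈ P) :
    IsABPath E P B (c :: r) := by
  refine ⟨?_, ⟨c, hc, by simp⟩, ?_⟩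
  · exact (List.isChain_split.1 h.chain).2
  · obtain ⟨b, hb, hh⟩ := h.last
    refine ⟨b, hb, ?_⟩
    rw [List.getLast?_append] at hh
    cases hr : (c :: r).getLast? with
    | none => simp at hr
    | some w => rw [hr] at hh; simpa using hh

omit [DecidableEq U] in
lemma IsABPath.mono {E E' : Finset (U × U)} (hE : E ⊆ E') {A B : Finset U} {p : List U}
    (h : IsABPath E A B p) : IsABPath E' A B p :=
  ⟨h.chain.imp fun _ _ hab => hE hab, h.head, h.last⟩

/-- A chain in `E` in which the edge `(x,y)` cannot be used. -/
lemma chain_erase_of_not_mem_init {E : Finset (U × U)} {x y : U} :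
    ∀ (l : List U) (c : U), List.IsChain (fun a b => (a, b) ∈ E) (l ++ [c]) → (∀ v ∈ l, v ≠ x) →
    List.IsChain (fun a b => (a, b) ∈ E.erase (x, y)) (l ++ [c]) := by
  intro l
  induction l with
  | nil => intro c _ _; simp
  | cons a t ih =>
    intro c h hx
    have hax : a ≠ x := hx a (by simp)
    have ht := ih c (by
      rw [List.cons_append] at h
      exact h.tail) (fun v hv => hx v (by simp [hv]))
    cases t with
    | nil =>
      simp only [List.cons_append, List.nil_append, List.isChain_cons_cons] at h ⊢
      refine ⟨Finset.mem_erase.2 ⟨?_, h.1⟩, by simp⟩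
      intro hh; exact hax (Prod.mk.inj hh).1
    | cons b t =>
      simp only [List.cons_append, List.isChain_cons_cons] at h ht ⊢
      refine ⟨Finset.mem_erase.2 ⟨?_, h.1⟩, ht⟩
      intro hh; exact hax (Prod.mk.inj hh).1

lemma chain_erase_of_not_mem_tail {E : Finset (U × U)} {x y : U} :
    ∀ (r : List U) (c : U), List.IsChain (fun a b => (a, b) ∈ E) (c :: r) → (∀ v ∈ r, v ≠ y) →
    List.IsChain (fun a b => (a, b) ∈ E.erase (x, y)) (c :: r) := by
  intro r
  induction r with
  | nil => intro c _ _; simp
  | cons a t ih =>
    intro c h hx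
    have hay : a ≠ y := hx a (by simp)
    simp only [List.isChain_cons_cons] at h ⊢
    refine ⟨Finset.mem_erase.2 ⟨?_, h.1⟩, ih a h.2 (fun v hv => hx v (by simp [hv]))⟩
    intro hh; exact hay (Prod.mk.inj hh).2

lemma chain_erase_of_not_mem {E : Finset (U × U)} {x y : U} :
    ∀ (p : List U), List.IsChain (fun a b => (a, b) ∈ E) p → x ∉ p →
    List.IsChain (fun a b => (a, b) ∈ E.erase (x, y)) p := by
  intro p h hx
  refine h.imp_of_mem_imp ?_
  intro a b ha hb hab
  refine Finset.mem_erase.2 ⟨?_, hab⟩
  intro hh; exact hx ((Prod.mk.inj hh).1 ▸ ha)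

omit [DecidableEq U] in
/-- Truncated systems: prefixes ending at the first vertex of `P`. -/
lemma truncate_first {E : Finset (U × U)} {A P : Finset U} {p : List U}
    (h : IsABPath E A P p) :
    ∃ (l : List U) (c : U), IsABPath E A P (l ++ [c]) ∧ c ∈ P ∧ (∀ v ∈ l, v ∉ P) ∧
      ∀ v ∈ l ++ [c], v ∈ p := by
  obtain ⟨b, hb, hbl⟩ := h.last
  have hbp : b ∈ p := List.mem_of_getLast? hbl
  obtain ⟨l, c, r, rfl, h2, h3⟩ := exists_first_mem (fun v => v ∈ P) p ⟨b, hbp, hb⟩
  refine ⟨l, c, prefix_path h h2, h2, h3, ?_⟩
  intro v hv
  simp only [List.mem_append, List.mem_cons, List.not_mem_nil, or_false] at hv ⊢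
  tauto

omit [DecidableEq U] in
lemma truncate_last {E : Finset (U × U)} {B Q : Finset U} {p : List U}
    (h : IsABPath E Q B p) :
    ∃ (c : U) (r : List U), IsABPath E Q B (c :: r) ∧ c ∈ Q ∧ (∀ v ∈ r, v ∉ Q) ∧
      ∀ v ∈ c :: r, v ∈ p := by
  obtain ⟨b, hb, hbl⟩ := h.head
  have hbp : b ∈ p := List.mem_of_head? hbl
  obtain ⟨l, c, r, rfl, h2, h3⟩ := exists_last_mem (fun v => v ∈ Q) p ⟨b, hbp, hb⟩
  refine ⟨c, r, suffix_path h h2, h2, h3, ?_⟩
  intro v hv
  simp only [List.mem_append, List.mem_cons] at hv ⊢
  tauto

theorem menger (k : ℕ) : ∀ (n : ℕ) (E : Finset (U × U)), E.card = n → ∀ (A B : Finset U),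
    (∀ S : Finset U, (∀ p, IsABPath E A B p → ∃ v ∈ p, v ∈ S) → k ≤ S.card) →
    ∃ P : Fin k → List U, (∀ i, IsABPath E A B (P i)) ∧
      ∀ i j, i ≠ j → List.Disjoint (P i) (P j) := by
  intro n
  induction n with
  | zero =>
    intro E hE A B h
    have hE' : E = ∅ := Finset.card_eq_zero.1 hE
    subst hE'
    have hk : k ≤ (A ∩ B).card := by
      apply h
      intro p hp
      obtain ⟨a, ha, hah⟩ := hp.head
      obtain ⟨b, hb, hbl⟩ := hp.last
      cases p with
      | nil => simp at hah
      | cons x t =>
        cases t with
        | nil =>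
          simp at hah hbl
          subst hah; subst hbl
          exact ⟨x, by simp, Finset.mem_inter.2 ⟨ha, hb⟩⟩
        | cons y t =>
          have := hp.chain
          simp [List.isChain_cons_cons] at this
    obtain ⟨T, hT, hTc⟩ := Finset.exists_subset_card_eq hk
    let e := (Finset.equivFinOfCardEq hTc).symm
    refine ⟨fun i => [(e i : U)], ?_, ?_⟩
    · intro i
      have hi := hT (e i).2
      exact ⟨by simp, ⟨_, (Finset.mem_inter.1 hi).1, by simp⟩, ⟨_, (Finset.mem_inter.1 hi).2, by simp⟩⟩
    · intro i j hij
      simp only [List.disjoint_singleton, List.mem_singleton]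
      intro hh
      exact hij (e.injective (Subtype.ext hh.symm)).symm.symm
  | succ n ih =>
    intro E hE A B h
    have hne : E.Nonempty := by
      rw [← Finset.card_pos]; omega
    obtain ⟨⟨x, y⟩, hxy⟩ := hne
    set E' := E.erase (x, y) with hE'
    have hcard : E'.card = n := by
      rw [hE', Finset.card_erase_of_mem hxy, hE]; rfl
    have hsub : E' ⊆ E := Finset.erase_subset _ _
    by_cases hcase : ∀ S : Finset U, (∀ p, IsABPath E' A B p → ∃ v ∈ p, v ∈ S) → k ≤ S.card
    · obtain ⟨P, hP, hd⟩ := ih E' hcard A B hcase
      exact ⟨P, fun i => (hP i).mono hsub, hd⟩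
    · push Not at hcase
      obtain ⟨S, hS, hSk⟩ := hcase
      -- both S ∪ {x} and S ∪ {y} separate in E
      have hPsep : ∀ p, IsABPath E A B p → ∃ v ∈ p, v ∈ insert x S := by
        intro p hp
        by_cases hxp : x ∈ p
        · exact ⟨x, hxp, Finset.mem_insert_self _ _⟩
        · obtain ⟨v, hv, hvS⟩ := hS p ⟨chain_erase_of_not_mem p hp.chain hxp, hp.head, hp.last⟩
          exact ⟨v, hv, Finset.mem_insert_of_mem hvS⟩
      have hQsep : ∀ p, IsABPath E A B p → ∃ v ∈ p, v ∈ insert y S := by
        intro p hp
        by_cases hyp : y ∈ p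
        · exact ⟨y, hyp, Finset.mem_insert_self _ _⟩
        · have hch : List.IsChain (fun a b => (a, b) ∈ E') p := by
            refine hp.chain.imp_of_mem_imp ?_
            intro a b ha hb hab
            refine Finset.mem_erase.2 ⟨?_, hab⟩
            intro hh; exact hyp ((Prod.mk.inj hh).2 ▸ hb)
          obtain ⟨v, hv, hvS⟩ := hS p ⟨hch, hp.head, hp.last⟩
          exact ⟨v, hv, Finset.mem_insert_of_mem hvS⟩
      have hPk := h _ hPsep
      have hQk := h _ hQsep
      have hxS : x ∉ S := by
        intro hx; rw [Finset.insert_eq_self.2 hx] at hPk; omega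
      have hyS : y ∉ S := by
        intro hy; rw [Finset.insert_eq_self.2 hy] at hQk; omega
      have hPc : (insert x S).card = k := by
        rw [Finset.card_insert_of_notMem hxS] at hPk ⊢; omega
      have hQc : (insert y S).card = k := by
        rw [Finset.card_insert_of_notMem hyS] at hQk ⊢; omega
      -- A to P
      have hAP : ∀ T : Finset U, (∀ p, IsABPath E' A (insert x S) p → ∃ v ∈ p, v ∈ T) →
          k ≤ T.card := by
        intro T hT
        apply h
        intro p hp
        obtain ⟨l, c, r, rfl, h2, h3⟩ := exists_first_mem (fun v => v ∈ insert x S) p (hPsep p hp)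
        have h4 := prefix_path hp h2
        have h5 : IsABPath E' A (insert x S) (l ++ [c]) := by
          refine ⟨chain_erase_of_not_mem_init l c h4.chain ?_, h4.head, h4.last⟩
          intro v hv hvx
          exact h3 v hv (hvx ▸ Finset.mem_insert_self _ _)
        obtain ⟨v, hv, hvT⟩ := hT _ h5
        refine ⟨v, ?_, hvT⟩
        simp only [List.mem_append, List.mem_cons, List.not_mem_nil, or_false] at hv ⊢
        tauto
      have hQB : ∀ T : Finset U, (∀ p, IsABPath E' (insert y S) B p → ∃ v ∈ p, v ∈ T) →
          k ≤ T.card := by
        intro T hT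
        apply h
        intro p hp
        obtain ⟨l, c, r, rfl, h2, h3⟩ := exists_last_mem (fun v => v ∈ insert y S) p (hQsep p hp)
        have h4 := suffix_path hp h2
        have h5 : IsABPath E' (insert y S) B (c :: r) := by
          refine ⟨chain_erase_of_not_mem_tail r c h4.chain ?_, h4.head, h4.last⟩
          intro v hv hvx
          exact h3 v hv (hvx ▸ Finset.mem_insert_self _ _)
        obtain ⟨v, hv, hvT⟩ := hT _ h5
        refine ⟨v, ?_, hvT⟩
        simp only [List.mem_append, List.mem_cons] at hv ⊢
        tauto
      obtain ⟨a, ha, had⟩ := ih E' hcard A (insert x S) hAP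
      obtain ⟨b, hb, hbd⟩ := ih E' hcard (insert y S) B hQB
      choose l c hlc hcP hlP hla using fun i => truncate_first (ha i)
      choose d r hdr hdQ hrQ hrb using fun i => truncate_last (hb i)
      -- key lemma
      have key : ∀ i m v, v ∈ l i ++ [c i] → v ∈ d m :: r m → v ∈ S ∧ v = c i ∧ v = d m := by
        intro i m v hv1 hv2
        obtain ⟨s, t, hst⟩ := List.append_of_mem hv1
        obtain ⟨s', t', hst'⟩ := List.append_of_mem hv2
        have hpath : IsABPath E' A B (s ++ v :: t') := by
          have h1 := hlc i
          have h2 := hdr m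
          rw [hst] at h1
          rw [hst'] at h2
          refine ⟨?_, ?_, ?_⟩
          · exact List.isChain_split.2 ⟨(List.isChain_split.1 h1.chain).1,
              (List.isChain_split.1 h2.chain).2⟩
          · obtain ⟨a', ha', hh⟩ := h1.head
            refine ⟨a', ha', ?_⟩
            cases s with
            | nil => simpa using hh
            | cons x s => simpa using hh
          · have := (suffix_path (P := {v}) h2 (by simp)).last
            obtain ⟨b', hb', hh⟩ := this
            refine ⟨b', hb', ?_⟩
            rw [List.getLast?_append, hh]; rfl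
        obtain ⟨w, hw, hwS⟩ := hS _ hpath
        have hls : l i = s ++ (v :: t).dropLast := by
          have := congrArg List.dropLast hst
          rwa [List.dropLast_concat, List.dropLast_append_of_ne_nil (by simp)] at this
        have hws : w ∉ s := by
          intro hws
          refine hlP i w ?_ (Finset.mem_insert_of_mem hwS)
          rw [hls]; simp [hws]
        have hwt : w ∉ t' := by
          intro hwt
          refine hrQ m w ?_ (Finset.mem_insert_of_mem hwS)
          cases s' with
          | nil =>
            rw [List.nil_append, List.cons.injEq] at hst'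
            rw [hst'.2]; exact hwt
          | cons z s' =>
            rw [List.cons_append, List.cons.injEq] at hst'
            rw [hst'.2]; simp [hwt]
        have hwv : w = v := by
          simp only [List.mem_append, List.mem_cons] at hw
          tauto
        subst hwv
        refine ⟨hwS, ?_, ?_⟩
        · simp only [List.mem_append, List.mem_cons, List.not_mem_nil, or_false] at hv1
          rcases hv1 with h1 | h1
          · exact absurd (Finset.mem_insert_of_mem hwS) (hlP i w h1)
          · exact h1
        · simp only [List.mem_cons] at hv2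
          rcases hv2 with h1 | h1
          · exact h1
          · exact absurd (Finset.mem_insert_of_mem hwS) (hrQ m w h1)
      have hcinj : Function.Injective c := by
        intro i j hij
        by_contra hne
        exact (had i j hne) (hla i (c i) (by simp)) (by rw [hij]; exact hla j (c j) (by simp))
      have hdinj : Function.Injective d := by
        intro i j hij
        by_contra hne
        exact (hbd i j hne) (hrb i (d i) (by simp)) (by rw [hij]; exact hrb j (d j) (by simp))
      have hdsurj : ∀ q ∈ insert y S, ∃ m, d m = q := by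
        intro q hq
        have himg : Finset.univ.image d = insert y S := by
          apply Finset.eq_of_subset_of_card_le
          · intro z hz
            obtain ⟨m, -, rfl⟩ := Finset.mem_image.1 hz
            exact hdQ m
          · rw [Finset.card_image_of_injective _ hdinj, hQc]; simp
        rw [← himg] at hq
        obtain ⟨m, -, hm⟩ := Finset.mem_image.1 hq
        exact ⟨m, hm⟩
      -- matching
      have hj : ∀ i, ∃ m, d m = if c i ∈ S then c i else y := by
        intro i
        apply hdsurj
        split_ifs with hc
        · exact Finset.mem_insert_of_mem hc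
        · exact Finset.mem_insert_self _ _
      choose J hJ using hj
      have hJinj : Function.Injective J := by
        intro i i' hii
        have h1 := hJ i
        have h2 := hJ i'
        rw [hii] at h1
        rw [h1] at h2
        apply hcinj
        by_cases hc : c i ∈ S <;> by_cases hc' : c i' ∈ S
        · simpa [hc, hc'] using h2
        · simp only [hc, hc', if_true, if_false] at h2
          exact absurd (h2 ▸ hc) hyS
        · simp only [hc, hc', if_true, if_false] at h2
          exact absurd (h2 ▸ hc') hyS
        · have h3 := hcP i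
          have h4 := hcP i'
          rw [Finset.mem_insert] at h3 h4
          rw [h3.resolve_right hc, h4.resolve_right hc']
      refine ⟨fun i => if c i ∈ S then l i ++ (d (J i) :: r (J i))
        else (l i ++ [c i]) ++ (d (J i) :: r (J i)), ?_, ?_⟩
      · intro i
        have h1 := hlc i
        have h2 := hdr (J i)
        by_cases hc : c i ∈ S
        · simp only [hc, if_true]
          have h3 : d (J i) = c i := by rw [hJ i]; simp [hc]
          rw [h3] at h2 ⊢
          refine ⟨?_, ?_, ?_⟩
          · exact (List.isChain_split.2 ⟨h1.chain, h2.chain⟩).imp fun _ _ hh => hsub hh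
          · obtain ⟨a', ha', hh⟩ := h1.head
            refine ⟨a', ha', ?_⟩
            cases hl : l i with
            | nil => rw [hl] at hh; simpa using hh
            | cons x s => rw [hl] at hh; simpa using hh
          · obtain ⟨b', hb', hh⟩ := h2.last
            refine ⟨b', hb', ?_⟩
            rw [List.getLast?_append, hh]; rfl
        · simp only [hc, if_false]
          have h3 : d (J i) = y := by rw [hJ i]; simp [hc]
          have h4 : c i = x := by
            have h5 := hcP i
            rw [Finset.mem_insert] at h5
            exact h5.resolve_right hc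
          rw [h3] at h2 ⊢
          refine ⟨?_, ?_, ?_⟩
          · rw [List.isChain_append]
            refine ⟨h1.chain.imp fun _ _ hh => hsub hh, h2.chain.imp fun _ _ hh => hsub hh, ?_⟩
            intro u hu w hw
            simp only [List.getLast?_append, List.getLast?_singleton, Option.some_or,
              Option.mem_def, Option.some.injEq, List.head?_cons] at hu hw
            subst hw
            rw [← hu, h4]; exact hxy
          · obtain ⟨a', ha', hh⟩ := h1.head
            refine ⟨a', ha', ?_⟩
            rw [List.head?_append, hh]; rfl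
          · obtain ⟨b', hb', hh⟩ := h2.last
            refine ⟨b', hb', ?_⟩
            rw [List.getLast?_append, hh]; rfl
      · intro i i' hii
        have hmem : ∀ i v, v ∈ (if c i ∈ S then l i ++ (d (J i) :: r (J i))
            else (l i ++ [c i]) ++ (d (J i) :: r (J i))) →
            v ∈ l i ++ [c i] ∨ v ∈ d (J i) :: r (J i) := by
          intro i v hv
          split_ifs at hv with hc
          · simp only [List.mem_append, List.mem_cons, List.not_mem_nil, or_false] at hv ⊢
            tauto
          · simpa only [List.mem_append] using hv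
        intro v hv hv'
        rcases hmem i v hv with h1 | h1 <;> rcases hmem i' v hv' with h2 | h2
        · exact had i i' hii (hla i v h1) (hla i' v h2)
        · obtain ⟨h3, h4, h5⟩ := key i (J i') v h1 h2
          have h6 := hJ i
          rw [← h4, if_pos h3] at h6
          exact hii (hJinj (hdinj (h6.trans h5)))
        · obtain ⟨h3, h4, h5⟩ := key i' (J i) v h2 h1
          have h6 := hJ i'
          rw [← h4, if_pos h3] at h6
          exact hii (hJinj (hdinj (h6.trans h5))).symm
        · exact hbd (J i) (J i') (fun hh => hii (hJinj hh)) (hrb _ v h1) (hrb _ v h2)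

end Pool.Agent.Lib.MP_2ce0dd_pr
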