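import Mathlib
import Pool.Agent.Lib.MP_2ce0dd_pr.Menger
import Pool.Agent.Lib.MP_2ce0dd_pr.Geom

set_option autoImplicit false

/-!
Coarse cuts in graphs without a `K_{3,3}` minor and with uniform polynomial growth.
-/

namespace Pool.Agent.Lib.MP_2ce0dd_pr

variable {V : Type*} {G : SimpleGraph V}

/-- `G` has `K_{3,3}` as a minor: there are six pairwise disjoint, finite, connected vertex sets
`A 0, A 1, A 2, B 0, B 1, B 2` with an edge of `G` between every `A i` and every `B j`. -/
def HasK33Minor (G : SimpleGraph V) : Prop :=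
  ∃ A B : Fin 3 → Set V,
    (∀ i, (A i).Finite ∧ (G.induce (A i)).Connected) ∧
    (∀ j, (B j).Finite ∧ (G.induce (B j)).Connected) ∧
    (∀ i j, i ≠ j → Disjoint (A i) (A j)) ∧
    (∀ i j, i ≠ j → Disjoint (B i) (B j)) ∧
    (∀ i j, Disjoint (A i) (B j)) ∧
    ∀ i j, ∃ a ∈ A i, ∃ b ∈ B j, G.Adj a b

/-! ### Independent sets in sparse digraphs -/

lemma exists_indep {ι : Type*} [DecidableEq ι] (R : ι → ι → Prop) [DecidableRel R] (D : ℕ) :
    ∀ (m : ℕ) (I : Finset ι), (∀ i ∈ I, (I.filter (fun i' => i' ≠ i ∧ R i i')).card ≤ D) →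
      m * (2 * D + 1) < I.card →
      ∃ S ⊆ I, S.card = m + 1 ∧ ∀ a ∈ S, ∀ b ∈ S, a ≠ b → ¬ R a b := by
  intro m
  induction m with
  | zero =>
    intro I _ hI
    obtain ⟨i, hi⟩ := Finset.card_pos.1 (by omega : 0 < I.card)
    refine ⟨{i}, by simpa using hi, by simp, ?_⟩
    intro a ha b hb hab
    simp at ha hb
    exact absurd (ha.trans hb.symm) hab
  | succ m ih =>
    intro I hout hI
    -- find a vertex of small total degree
    have hsum : ∑ i ∈ I, ((I.filter (fun i' => i' ≠ i ∧ R i i')).card +
        (I.filter (fun i' => i' ≠ i ∧ R i' i)).card) ≤ ∑ i ∈ I, 2 * D := by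
      rw [Finset.sum_add_distrib]
      have h1 : ∑ i ∈ I, (I.filter (fun i' => i' ≠ i ∧ R i' i)).card =
          ∑ i ∈ I, (I.filter (fun i' => i' ≠ i ∧ R i i')).card := by
        simp only [Finset.card_filter]
        rw [Finset.sum_comm]
        refine Finset.sum_congr rfl fun i _ => Finset.sum_congr rfl fun i' _ => ?_
        simp only [ne_comm]
      rw [h1, ← Finset.sum_add_distrib]
      exact Finset.sum_le_sum fun i hi => by have := hout i hi; omega
    have hne : I.Nonempty := Finset.card_pos.1 (by omega)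
    obtain ⟨i, hi, hdeg⟩ := Finset.exists_le_of_sum_le hne hsum
    let I' := I.filter (fun i' => i' ≠ i ∧ ¬ R i i' ∧ ¬ R i' i)
    have hI'sub : I' ⊆ I := Finset.filter_subset _ _
    have hcov : I ⊆ insert i (I.filter (fun i' => i' ≠ i ∧ R i i') ∪
        (I.filter (fun i' => i' ≠ i ∧ R i' i) ∪ I')) := by
      intro i' hi'
      by_cases h0 : i' = i
      · rw [h0]; exact Finset.mem_insert_self _ _
      · simp only [Finset.mem_insert, Finset.mem_union, Finset.mem_filter, I']
        tauto
    have hc1 := Finset.card_le_card hcov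
    have hc2 := Finset.card_insert_le i (I.filter (fun i' => i' ≠ i ∧ R i i') ∪
        (I.filter (fun i' => i' ≠ i ∧ R i' i) ∪ I'))
    have hc3 := Finset.card_union_le (I.filter (fun i' => i' ≠ i ∧ R i i'))
        (I.filter (fun i' => i' ≠ i ∧ R i' i) ∪ I')
    have hc4 := Finset.card_union_le (I.filter (fun i' => i' ≠ i ∧ R i' i)) I'
    have hI'c : m * (2 * D + 1) < I'.card := by
      have : (m + 1) * (2 * D + 1) = m * (2 * D + 1) + (2 * D + 1) := by ring
      omega
    obtain ⟨S, hSI, hSc, hS⟩ := ih I' (by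
      intro a ha
      refine (Finset.card_le_card ?_).trans (hout a (hI'sub ha))
      exact Finset.filter_subset_filter _ hI'sub) hI'c
    have hiS : i ∉ S := fun h => by
      have := hSI h
      simp [I'] at this
    refine ⟨insert i S, ?_, ?_, ?_⟩
    · exact Finset.insert_subset hi (hSI.trans hI'sub)
    · rw [Finset.card_insert_of_notMem hiS, hSc]
    · intro a ha b hb hab
      rcases Finset.mem_insert.1 ha with rfl | ha' <;> rcases Finset.mem_insert.1 hb with rfl | hb'
      · exact absurd rfl hab
      · have := hSI hb'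
        simp only [I', Finset.mem_filter] at this
        exact this.2.2.1
      · have := hSI ha'
        simp only [I', Finset.mem_filter] at this
        exact this.2.2.2
      · exact hS a ha' b hb' hab

/-! ### Walk lemmas -/

lemma dist_getVert_le {u v : V} (hconn : G.Connected) (g : G.Walk u v) (m k : ℕ) :
    G.dist (g.getVert m) (g.getVert (m + k)) ≤ k := by
  induction k with
  | zero => simp
  | succ k ih =>
    have h1 := hconn.dist_triangle (u := g.getVert m) (v := g.getVert (m + k))
      (w := g.getVert (m + k + 1))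
    have h2 : G.dist (g.getVert (m + k)) (g.getVert (m + k + 1)) ≤ 1 := by
      by_cases h : m + k < g.length
      · rw [SimpleGraph.dist_eq_one_iff_adj.2 (g.adj_getVert_succ h)]
      · rw [g.getVert_of_length_le (by omega), g.getVert_of_length_le (by omega)]
        simp
    have : m + (k + 1) = m + k + 1 := by ring
    rw [this]; omega

lemma seg_connected {u v : V} (g : G.Walk u v) : ∀ m, 0 < m → m ≤ g.length + 1 →
    (G.induce {w | ∃ n < m, g.getVert n = w}).Connected := by
  intro m
  induction m with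
  | zero => intro h; omega
  | succ m ih =>
    intro _ hm
    rcases Nat.eq_zero_or_pos m with rfl | hm0
    · have : {w | ∃ n < 0 + 1, g.getVert n = w} = {u} := by
        ext w
        constructor
        · rintro ⟨n, hn, rfl⟩
          have : n = 0 := by omega
          subst this; simp
        · intro h
          rw [Set.mem_singleton_iff] at h
          exact ⟨0, by omega, by rw [h]; simp⟩
      rw [this]
      exact SimpleGraph.induce_connected_of_patches u (by simp) (by
        intro w hw
        rw [Set.mem_singleton_iff] at hw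
        subst hw
        exact ⟨{w}, le_rfl, by simp, by simp, SimpleGraph.Reachable.refl _⟩)
    · have h1 := ih hm0 (by omega)
      have h2 : (G.induce {g.getVert m}).Connected :=
        SimpleGraph.induce_connected_of_patches (g.getVert m) (by simp) (by
          intro w hw
          rw [Set.mem_singleton_iff] at hw
          subst hw
          exact ⟨{g.getVert m}, le_rfl, by simp, by simp, SimpleGraph.Reachable.refl _⟩)
      have hadj : G.Adj (g.getVert (m - 1)) (g.getVert m) := by
        have := g.adj_getVert_succ (i := m - 1) (by omega)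
        rwa [Nat.sub_add_cancel hm0] at this
      have h3 := SimpleGraph.connected_induce_union (G := G) h1.preconnected h2.preconnected
        (v := g.getVert (m - 1)) (w := g.getVert m) ⟨m - 1, by omega, rfl⟩ (by simp) hadj
      have hset : {w | ∃ n < m + 1, g.getVert n = w} =
          {w | ∃ n < m, g.getVert n = w} ∪ {g.getVert m} := by
        ext w
        constructor
        · rintro ⟨n, hn, rfl⟩
          by_cases hnm : n < m
          · exact Or.inl ⟨n, hnm, rfl⟩
          · right
            have : n = m := by omega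
            simp [this]
        · rintro (⟨n, hn, rfl⟩ | h)
          · exact ⟨n, by omega, rfl⟩
          · rw [Set.mem_singleton_iff] at h
            exact ⟨m, by omega, h.symm⟩
      rw [hset]
      exact h3

/-! ### Unions of cells along a chain -/

lemma cell_connected {a : V → V} (hcell : ∀ v, ∃ p : G.Walk v (a v), ∀ w ∈ p.support, a w = a v)
    {y : V} (hy : a y = y) : (G.induce {v | a v = y}).Connected := by
  refine SimpleGraph.induce_connected_of_patches y hy ?_
  intro v hv
  have hv' : a v = y := hv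
  obtain ⟨p, hp⟩ := hcell v
  refine ⟨{w | w ∈ p.support}, ?_, ?_, ?_, ?_⟩
  · intro w hw
    show a w = y
    rw [hp w hw, hv']
  · show y ∈ p.support
    rw [← hv']; exact p.end_mem_support
  · exact p.start_mem_support
  · exact p.connected_induce_support.preconnected _ _

lemma cells_connected {a : V → V} (hcell : ∀ v, ∃ p : G.Walk v (a v), ∀ w ∈ p.support, a w = a v) :
    ∀ (p : List V), p ≠ [] → (∀ y ∈ p, a y = y) →
      List.IsChain (fun y y' => ∃ v w, a v = y ∧ a w = y' ∧ G.Adj v w) p →
      (G.induce {v | a v ∈ p}).Connected := by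
  intro p
  induction p with
  | nil => intro h; exact absurd rfl h
  | cons y t ih =>
    intro _ hp hch
    cases t with
    | nil =>
      have h := cell_connected hcell (hp y (by simp))
      have hset : {v | a v ∈ [y]} = {v | a v = y} := by
        ext v
        show a v ∈ [y] ↔ a v = y
        simp
      rw [hset]; exact h
    | cons y' t =>
      have h1 := cell_connected hcell (hp y (by simp))
      rw [List.isChain_cons_cons] at hch
      have h2 := ih (by simp) (fun z hz => hp z (by simp only [List.mem_cons] at hz ⊢; tauto)) hch.2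
      obtain ⟨v, w, hv, hw, hadj⟩ := hch.1
      have h3 := SimpleGraph.connected_induce_union (G := G) h1.preconnected h2.preconnected
        (v := v) (w := w) hv (by show a w ∈ y' :: t; rw [hw]; simp) hadj
      have hset : {v | a v ∈ y :: y' :: t} = {v | a v = y} ∪ {v | a v ∈ y' :: t} := by
        ext v
        show a v ∈ y :: y' :: t ↔ (a v = y ∨ a v ∈ y' :: t)
        exact List.mem_cons
      rw [hset]; exact h3

/-! ### The coarse cut lemma -/

lemma chain_mem {E : Finset (V × V)} {U0 : Finset V} (hE : ∀ q ∈ E, q.2 ∈ U0) :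
    ∀ (p : List V), List.IsChain (fun a b => (a, b) ∈ E) p → (∀ h ∈ p.head?, h ∈ U0) →
      ∀ y ∈ p, y ∈ U0 := by
  intro p
  induction p with
  | nil => intro _ _ y hy; simp at hy
  | cons y t ih =>
    intro hch hh z hz
    rcases List.mem_cons.1 hz with rfl | hz
    · exact hh z (by simp)
    · cases t with
      | nil => simp at hz
      | cons y' t =>
        rw [List.isChain_cons_cons] at hch
        exact ih hch.2 (fun h hh' => by
          simp at hh'; subst hh'; exact hE _ hch.1) z hz

/-- The constant in the coarse cut lemma. -/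
noncomputable def M0 (d c C : ℝ) : ℕ := ⌊pk d c C 20⌋₊ ^ 3 * (12 * ⌊pk d c C 2⌋₊ + 2)

theorem coarse_cut {d c C : ℝ} (hG : Growth G d c C) (hc : 0 < c) (hC : 0 ≤ C) (hd : 0 ≤ d)
    (hK : ¬ HasK33Minor G) (b j : ℕ) (hj : 1 ≤ j) (hb : 3 ≤ b) (x : V) :
    ∃ F : Finset V, F.card ≤ M0 d c C * b ∧ (∀ y ∈ F, G.dist x y ≤ 21 * (b * j)) ∧
      ∀ (u v : V) (p : G.Walk u v), G.dist x u ≤ b * j → 20 * (b * j) < G.dist x v →
        ∃ w ∈ p.support, ∃ y ∈ F, G.dist w y < j := by
  classical
  set ρ := b * j with hρdef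
  have hρ : 3 * j ≤ ρ := Nat.mul_le_mul_right j hb
  have htri := fun u v w => hG.conn.dist_triangle (u := u) (v := v) (w := w)
  obtain ⟨N, hNsep, hNcov⟩ := exists_net G j hj
  obtain ⟨a, haN, haj, haid, hawalk⟩ := exists_cells hG.conn hNcov
  set U0 : Finset V := (hG.fin x (21 * ρ)).toFinset.filter (· ∈ N) with hU0
  have hU0mem : ∀ y, y ∈ U0 ↔ G.dist x y ≤ 21 * ρ ∧ y ∈ N := by
    intro y
    rw [hU0, Finset.mem_filter, Set.Finite.mem_toFinset]
    exact Iff.rfl
  set E : Finset (V × V) := (U0 ×ˢ U0).filter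
    (fun q => ∃ v w, a v = q.1 ∧ a w = q.2 ∧ G.Adj v w) with hE
  have hEmem : ∀ y y', (y, y') ∈ E ↔ (y ∈ U0 ∧ y' ∈ U0) ∧ ∃ v w, a v = y ∧ a w = y' ∧ G.Adj v w := by
    intro y y'
    rw [hE, Finset.mem_filter, Finset.mem_product]
  set A := U0.filter (fun y => ∃ v, a v = y ∧ G.dist x v ≤ ρ) with hA
  set B := U0.filter (fun y => ∃ v, a v = y ∧ 20 * ρ < G.dist x v) with hB
  set p2 := ⌊pk d c C 20⌋₊ with hp2
  set P2 := ⌊pk d c C 2⌋₊ with hP2
  set D := 3 * (b * P2) with hD
  by_contra hno
  push Not at hno
  set k := p2 ^ 3 * (2 * (2 * D + 1)) + 1 with hk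
  have hkM : p2 ^ 3 * (2 * (2 * D + 1)) ≤ M0 d c C * b := by
    rw [M0, ← hp2, ← hP2, mul_assoc]
    apply Nat.mul_le_mul_left
    have : 2 * (2 * D + 1) = 12 * (b * P2) + 2 := by rw [hD]; ring
    rw [this]
    nlinarith
  -- every separator has at least k elements
  have hsep : ∀ S : Finset V, (∀ p, IsABPath E A B p → ∃ v ∈ p, v ∈ S) → k ≤ S.card := by
    intro S hS
    by_contra hlt
    have hSc : (S.filter (· ∈ U0)).card ≤ M0 d c C * b := by
      have h1 := Finset.card_filter_le S (· ∈ U0)
      omega
    obtain ⟨u, v, p, hu, hv, hp⟩ := hno (S.filter (· ∈ U0)) hSc (by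
      intro y hy
      exact ((hU0mem y).1 (Finset.mem_filter.1 hy).2).1)
    obtain ⟨l, c', r, hlr, hc', hl⟩ := exists_first_mem (fun w => 20 * ρ < G.dist x w) p.support
      ⟨v, p.end_mem_support, hv⟩
    have hch : List.IsChain G.Adj (l ++ [c']) := by
      have := p.isChain_adj_support
      rw [hlr] at this
      exact (List.isChain_split.1 this).1
    have hlne : l ≠ [] := by
      rintro rfl
      have h1 := p.cons_tail_support.symm
      rw [hlr] at h1
      simp only [List.nil_append, List.cons.injEq] at h1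
      rw [h1.1] at hc'
      omega
    have hc'2 : G.dist x c' ≤ 20 * ρ + 1 := by
      obtain ⟨l', e, rfl⟩ := (List.eq_nil_or_concat l).resolve_left hlne
      rw [List.isChain_append] at hch
      have hadj : G.Adj e c' := hch.2.2 e (by simp) c' (by simp)
      have h1 := hl e (by simp)
      have h2 := htri x e c'
      have h3 : G.dist e c' = 1 := SimpleGraph.dist_eq_one_iff_adj.2 hadj
      omega
    have hdist : ∀ w ∈ l ++ [c'], a w ∈ U0 := by
      intro w hw
      rw [hU0mem]
      refine ⟨?_, haN w⟩
      have h1 := htri x w (a w)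
      have h2 := haj w
      have h3 : G.dist x w ≤ 20 * ρ + 1 := by
        simp only [List.mem_append, List.mem_cons, List.not_mem_nil, or_false] at hw
        rcases hw with hw | rfl
        · have := hl w hw; omega
        · exact hc'2
      omega
    have hpath : IsABPath E A B ((l ++ [c']).map a) := by
      refine ⟨?_, ?_, ?_⟩
      · rw [List.isChain_map]
        refine hch.imp_of_mem_imp ?_
        intro w w' hw hw' hadj
        rw [hEmem]
        exact ⟨⟨hdist w hw, hdist w' hw'⟩, w, w', rfl, rfl, hadj⟩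
      · refine ⟨a u, ?_, ?_⟩
        · rw [hA, Finset.mem_filter]
          refine ⟨?_, u, rfl, hu⟩
          apply hdist
          cases l with
          | nil => exact absurd rfl hlne
          | cons e l =>
            have h1 := p.cons_tail_support.symm
            rw [hlr] at h1
            simp only [List.cons_append, List.cons.injEq] at h1
            rw [h1.1]; simp
        · cases l with
          | nil => exact absurd rfl hlne
          | cons e l =>
            have h1 := p.cons_tail_support.symm
            rw [hlr] at h1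
            simp only [List.cons_append, List.cons.injEq] at h1
            rw [h1.1]; simp
      · refine ⟨a c', ?_, by simp⟩
        rw [hB, Finset.mem_filter]
        exact ⟨hdist c' (by simp), c', rfl, hc'⟩
    obtain ⟨y, hy, hyS⟩ := hS _ hpath
    obtain ⟨w, hw, rfl⟩ := List.mem_map.1 hy
    have hws : w ∈ p.support := by
      rw [hlr]
      simp only [List.mem_append, List.mem_cons, List.not_mem_nil, or_false] at hw ⊢
      tauto
    have := hp w hws (a w) (Finset.mem_filter.2 ⟨hyS, hdist w hw⟩)
    have := haj w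
    omega
  obtain ⟨P, hP, hPd⟩ := menger k _ E rfl A B hsep
  have hPU : ∀ i, ∀ y ∈ P i, y ∈ U0 := by
    intro i
    refine chain_mem (E := E) (fun q hq => ?_) (P i) (hP i).chain ?_
    · obtain ⟨q1, q2⟩ := q
      exact ((hEmem q1 q2).1 hq).1.2
    · intro h hh
      obtain ⟨h0, hh0, hh1⟩ := (hP i).head
      rw [hh1] at hh
      simp only [Option.mem_def, Option.some.injEq] at hh
      rw [← hh]
      exact (Finset.mem_filter.1 hh0).1
  have hPN : ∀ i, ∀ y ∈ P i, a y = y := fun i y hy => haid y ((hU0mem y).1 (hPU i y hy)).2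
  -- intermediate cells
  have hivt : ∀ (i : Fin k) (l : Fin 3), ∃ y ∈ P i, 6 * ((l : ℕ) + 1) * ρ ≤ G.dist x y ∧
      G.dist x y < 6 * ((l : ℕ) + 1) * ρ + 2 * j := by
    intro i l
    have hl3 : (l : ℕ) + 1 ≤ 3 := by have := l.2; omega
    have h6 : 6 * ρ ≤ 6 * ((l : ℕ) + 1) * ρ := by nlinarith
    have h18 : 6 * ((l : ℕ) + 1) * ρ ≤ 18 * ρ := by nlinarith
    obtain ⟨e, heB, hel⟩ := (hP i).last
    obtain ⟨ev, hev1, hev2⟩ := (Finset.mem_filter.1 heB).2
    have he : 6 * ((l : ℕ) + 1) * ρ ≤ G.dist x e := by
      have h1 := htri x e ev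
      have h2 := haj ev
      rw [hev1, SimpleGraph.dist_comm] at h2
      omega
    obtain ⟨l1, y, r1, hlr, hy, hl1⟩ := exists_first_mem
      (fun y => 6 * ((l : ℕ) + 1) * ρ ≤ G.dist x y) (P i)
      ⟨e, List.mem_of_getLast? hel, he⟩
    refine ⟨y, by rw [hlr]; simp, hy, ?_⟩
    have hlne : l1 ≠ [] := by
      rintro rfl
      obtain ⟨h0, hh0, hh1⟩ := (hP i).head
      rw [hlr] at hh1
      simp only [List.nil_append, List.head?_cons, Option.some.injEq] at hh1
      obtain ⟨hv, hv1, hv2⟩ := (Finset.mem_filter.1 hh0).2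
      have h1 := htri x hv h0
      have h2 := haj hv
      rw [hv1] at h2
      rw [← hh1] at h1 h2
      omega
    obtain ⟨l', e', rfl⟩ := (List.eq_nil_or_concat l1).resolve_left hlne
    have hch := (hP i).chain
    rw [hlr, List.isChain_append] at hch
    have hadj := hch.2.2 e' (by simp) y (by simp)
    rw [hEmem] at hadj
    obtain ⟨-, v, w, hv, hw, hvw⟩ := hadj
    have h1 := hl1 e' (by simp)
    have h2 := haj v
    have h3 := haj w
    rw [hv] at h2
    rw [hw] at h3
    have h4 : G.dist v w = 1 := SimpleGraph.dist_eq_one_iff_adj.2 hvw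
    have h5 := htri x e' v
    have h6 := htri x v w
    have h7 := htri x w y
    rw [SimpleGraph.dist_comm (u := e')] at h5
    omega
  choose y hyP hy1 hy2 using hivt
  obtain ⟨N2, hN2sep, hN2cov⟩ := exists_net G ρ (by omega)
  choose z hzN hzd using fun (i : Fin k) (l : Fin 3) => hN2cov (y i l)
  set Z0 : Finset V := (hG.fin x (20 * ρ)).toFinset.filter (· ∈ N2) with hZ0
  have hZ0mem : ∀ w, w ∈ Z0 ↔ G.dist x w ≤ 20 * ρ ∧ w ∈ N2 := by
    intro w
    rw [hZ0, Finset.mem_filter, Set.Finite.mem_toFinset]
    exact Iff.rfl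
  have hZ0c : Z0.card ≤ p2 := by
    apply Nat.le_floor
    refine packing hG hc hC hd (j := ρ) (s := 20 * ρ) (by omega) (by norm_num) (by push_cast; rfl) x
      Z0 (fun w hw => ((hZ0mem w).1 hw).1) ?_
    intro w hw w' hw' hne
    exact hN2sep w ((hZ0mem w).1 hw).2 w' ((hZ0mem w').1 hw').2 hne
  have hzZ : ∀ i l, z i l ∈ Z0 := by
    intro i l
    rw [hZ0mem]
    refine ⟨?_, hzN i l⟩
    have hl3 : (l : ℕ) + 1 ≤ 3 := by have := l.2; omega
    have h18 : 6 * ((l : ℕ) + 1) * ρ ≤ 18 * ρ := by nlinarith
    have h1 := htri x (y i l) (z i l)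
    have h2 := hy2 i l
    have h3 := hzd i l
    omega
  -- pigeonhole
  obtain ⟨zz, -, hzz⟩ := Finset.exists_lt_card_fiber_of_mul_lt_card_of_maps_to
    (s := (Finset.univ : Finset (Fin k))) (t := Fintype.piFinset (fun _ : Fin 3 => Z0))
    (f := z) (n := 2 * (2 * D + 1)) (fun i _ => by
      rw [Fintype.mem_piFinset]; exact fun l => hzZ i l) (by
      rw [Fintype.card_piFinset]
      simp only [Finset.prod_const, Finset.card_univ, Fintype.card_fin]
      have : Z0.card ^ 3 * (2 * (2 * D + 1)) ≤ p2 ^ 3 * (2 * (2 * D + 1)) :=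
        Nat.mul_le_mul_right _ (Nat.pow_le_pow_left hZ0c 3)
      omega)
  set I := Finset.univ.filter (fun i => z i = zz) with hI
  have hwalk : ∀ (i : Fin k) (l : Fin 3), ∃ g : G.Walk (z i l) (y i l), g.length < ρ := by
    intro i l
    obtain ⟨g, hg⟩ := hG.conn.exists_walk_length_eq_dist (z i l) (y i l)
    refine ⟨g, ?_⟩
    rw [hg, SimpleGraph.dist_comm]
    exact hzd i l
  choose g hg using hwalk
  let R : Fin k → Fin k → Prop := fun i i' => ∃ (l : Fin 3) (n : ℕ), a ((g i l).getVert n) ∈ P i'
  -- visited cells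
  let vis : Fin k → Fin 3 → Finset V := fun i l => (Finset.range b).biUnion
    (fun t => ((hG.fin ((g i l).getVert (t * j)) (2 * j)).toFinset.filter (· ∈ N)))
  have hvis : ∀ i l n, a ((g i l).getVert n) ∈ vis i l := by
    intro i l n
    obtain ⟨n', hn', hnn⟩ : ∃ n' ≤ (g i l).length, (g i l).getVert n = (g i l).getVert n' := by
      by_cases h : n ≤ (g i l).length
      · exact ⟨n, h, rfl⟩
      · exact ⟨(g i l).length, le_rfl, by
          rw [(g i l).getVert_of_length_le (by omega), (g i l).getVert_length]⟩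
    rw [hnn]
    have hlt : n' < b * j := hn'.trans_lt (hg i l)
    have ht : n' / j < b := Nat.div_lt_of_lt_mul (by rw [mul_comm]; exact hlt)
    have hmod := Nat.div_add_mod n' j
    have hmod2 := Nat.mod_lt n' hj
    simp only [vis, Finset.mem_biUnion, Finset.mem_range, Finset.mem_filter,
      Set.Finite.mem_toFinset]
    refine ⟨n' / j, ht, ?_, haN _⟩
    show G.dist _ _ ≤ _
    have h1 := dist_getVert_le hG.conn (g i l) (n' / j * j) (n' % j)
    have h2 : n' / j * j + n' % j = n' := by rw [mul_comm]; exact hmod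
    rw [h2] at h1
    have h3 := haj ((g i l).getVert n')
    have h4 := htri ((g i l).getVert (n' / j * j)) ((g i l).getVert n') (a ((g i l).getVert n'))
    omega
  have hvisc : ∀ i l, (vis i l).card ≤ b * P2 := by
    intro i l
    refine Finset.card_biUnion_le.trans ?_
    refine (Finset.sum_le_card_nsmul _ _ P2 ?_).trans (by simp)
    intro t _
    apply Nat.le_floor
    refine packing hG hc hC hd (j := j) (s := 2 * j) hj (by norm_num) (by push_cast; rfl)
      ((g i l).getVert (t * j)) _ ?_ ?_
    · intro w hw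
      have hw1 := (Finset.mem_filter.1 hw).1
      rw [Set.Finite.mem_toFinset] at hw1
      exact hw1
    · intro w hw w' hw' hne
      exact hNsep w (Finset.mem_filter.1 hw).2 w' (Finset.mem_filter.1 hw').2 hne
  have hout : ∀ i ∈ I, (I.filter (fun i' => i' ≠ i ∧ R i i')).card ≤ D := by
    intro i _
    have hsub : I.filter (fun i' => i' ≠ i ∧ R i i') ⊆
        (Finset.univ : Finset (Fin 3)).biUnion (fun l => (vis i l).biUnion
          (fun y => Finset.univ.filter (fun i' => y ∈ P i'))) := by
      intro i' hi'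
      obtain ⟨-, -, l, n, hn⟩ := Finset.mem_filter.1 hi'
      simp only [Finset.mem_biUnion, Finset.mem_univ, true_and, Finset.mem_filter]
      exact ⟨l, _, hvis i l n, hn⟩
    refine (Finset.card_le_card hsub).trans (Finset.card_biUnion_le.trans ?_)
    have h3 : ∀ l ∈ (Finset.univ : Finset (Fin 3)), ((vis i l).biUnion
          (fun y => Finset.univ.filter (fun i' => y ∈ P i'))).card ≤ b * P2 := by
      intro l _
      refine Finset.card_biUnion_le.trans ?_
      refine (Finset.sum_le_card_nsmul _ _ 1 ?_).trans (by simpa using hvisc i l)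
      intro y _
      rw [Finset.card_le_one]
      intro i1 h1 i2 h2
      by_contra hne
      exact hPd i1 i2 hne (Finset.mem_filter.1 h1).2 (Finset.mem_filter.1 h2).2
    refine (Finset.sum_le_card_nsmul _ _ _ h3).trans (by simp [hD])
  obtain ⟨S, hSI, hSc, hSR⟩ := exists_indep R D 2 I hout hzz
  let T : Fin 3 → Fin k := fun t => ((Finset.equivFinOfCardEq hSc).symm t : Fin k)
  have hTS : ∀ t, T t ∈ S := fun t => ((Finset.equivFinOfCardEq hSc).symm t).2
  have hTinj : ∀ t t', t ≠ t' → T t ≠ T t' := by
    intro t t' hne h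
    exact hne ((Finset.equivFinOfCardEq hSc).symm.injective (Subtype.ext h))
  have hTz : ∀ t l, z (T t) l = zz l := by
    intro t l
    have := (Finset.mem_filter.1 (hSI (hTS t))).2
    rw [this]
  have hTR : ∀ t t', t ≠ t' → ¬ R (T t) (T t') := fun t t' hne =>
    hSR _ (hTS t) _ (hTS t') (hTinj t t' hne)
  have hmex : ∀ (t : Fin 3) (l : Fin 3), ∃ n, a ((g (T t) l).getVert n) ∈ P (T t) := by
    intro t l
    refine ⟨(g (T t) l).length, ?_⟩
    rw [(g (T t) l).getVert_length, hPN _ _ (hyP (T t) l)]
    exact hyP (T t) l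
  let m : Fin 3 → Fin 3 → ℕ := fun t l => Nat.find (hmex t l)
  have hm1 : ∀ t l, a ((g (T t) l).getVert (m t l)) ∈ P (T t) := fun t l => Nat.find_spec (hmex t l)
  have hm2 : ∀ t l n, n < m t l → a ((g (T t) l).getVert n) ∉ P (T t) :=
    fun t l n hn => Nat.find_min (hmex t l) hn
  have hm3 : ∀ t l, m t l ≤ (g (T t) l).length := fun t l => by
    apply Nat.find_min' (hmex t l)
    rw [(g (T t) l).getVert_length, hPN _ _ (hyP (T t) l)]
    exact hyP (T t) l
  have hm4 : ∀ t l, 0 < m t l := by
    intro t l
    by_contra h0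
    have h0 : m t l = 0 := by omega
    have h1 := hm1 t l
    rw [h0, SimpleGraph.Walk.getVert_zero, hTz] at h1
    obtain ⟨t', ht'⟩ := exists_ne t
    apply hTR t' t ht'
    refine ⟨l, 0, ?_⟩
    rw [SimpleGraph.Walk.getVert_zero, hTz]
    exact h1
  have hzB : ∀ (t l : Fin 3), zz l ∈ {w | ∃ n < m t l, (g (T t) l).getVert n = w} := by
    intro t l
    exact ⟨0, hm4 t l, by rw [SimpleGraph.Walk.getVert_zero, hTz]⟩
  have hBdist : ∀ (l t : Fin 3) (w : V) (n : ℕ), n < m t l → (g (T t) l).getVert n = w →
      6 * ((l : ℕ) + 1) * ρ < G.dist x w + 2 * ρ ∧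
        G.dist x w < 6 * ((l : ℕ) + 1) * ρ + 2 * j + 2 * ρ := by
    intro l t w n hn hw
    have h1 := dist_getVert_le hG.conn (g (T t) l) 0 n
    rw [zero_add, hw, SimpleGraph.Walk.getVert_zero] at h1
    have h2 := hm3 t l
    have h3 := hg (T t) l
    have h4 := hzd (T t) l
    have h5 := hy1 (T t) l
    have h6 := hy2 (T t) l
    have h7 := htri x (y (T t) l) (z (T t) l)
    have h8 := htri x (z (T t) l) w
    have h9 := htri x w (z (T t) l)
    have h10 := htri x (z (T t) l) (y (T t) l)
    rw [SimpleGraph.dist_comm (u := w)] at h9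
    rw [SimpleGraph.dist_comm (u := z (T t) l) (v := y (T t) l)] at h10
    omega
  apply hK
  refine ⟨fun t => {v | a v ∈ P (T t)},
    fun l => {w | ∃ t : Fin 3, ∃ n < m t l, (g (T t) l).getVert n = w}, ?_, ?_, ?_, ?_, ?_, ?_⟩
  · intro t
    refine ⟨?_, ?_⟩
    · refine Set.Finite.subset (hG.fin x (21 * ρ + j)) ?_
      intro v hv
      have hv' : a v ∈ P (T t) := hv
      have h1 := ((hU0mem _).1 (hPU (T t) _ hv')).1
      have h2 := htri x (a v) v
      have h3 := haj v
      rw [SimpleGraph.dist_comm] at h3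
      show G.dist x v ≤ 21 * ρ + j
      omega
    · apply cells_connected hawalk (P (T t))
      · intro h0
        obtain ⟨h1, -, h2⟩ := (hP (T t)).head
        rw [h0] at h2; simp at h2
      · exact hPN (T t)
      · refine (hP (T t)).chain.imp ?_
        intro y y' hyy
        exact ((hEmem y y').1 hyy).2
  · intro l
    refine ⟨?_, ?_⟩
    · have hset : {w | ∃ t : Fin 3, ∃ n < m t l, (g (T t) l).getVert n = w} =
          ⋃ t : Fin 3, (fun n => (g (T t) l).getVert n) '' (Finset.range (m t l) : Set ℕ) := by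
        ext w
        simp only [Set.mem_iUnion, Set.mem_image, Finset.coe_range, Set.mem_Iio]
        exact Iff.rfl
      show ({w | ∃ t : Fin 3, ∃ n < m t l, (g (T t) l).getVert n = w} : Set V).Finite
      rw [hset]
      exact Set.finite_iUnion fun t => (Finset.finite_toSet _).image _
    · refine SimpleGraph.induce_connected_of_patches (zz l) ⟨0, hzB 0 l⟩ ?_
      rintro w ⟨t, hw⟩
      refine ⟨{w | ∃ n < m t l, (g (T t) l).getVert n = w}, ?_, hzB t l, hw, ?_⟩
      · intro w' hw'
        exact ⟨t, hw'⟩
      · exact (seg_connected (g (T t) l) (m t l) (hm4 t l)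
          ((hm3 t l).trans (Nat.le_succ _))).preconnected _ _
  · intro t t' hne
    rw [Set.disjoint_left]
    intro v hv hv'
    exact hPd _ _ (hTinj t t' hne) hv hv'
  · intro l l' hne
    rw [Set.disjoint_left]
    rintro w ⟨t, n, hn, hw⟩ ⟨t', n', hn', hw'⟩
    have h1 := hBdist l t w n hn hw
    have h2 := hBdist l' t' w n' hn' hw'
    rcases lt_or_gt_of_ne hne with hlt | hlt
    · have h3 : (l : ℕ) + 1 + 1 ≤ (l' : ℕ) + 1 := by
        have : (l : ℕ) < l' := hlt
        omega
      have h4 : 6 * ((l : ℕ) + 1) * ρ + 6 * ρ ≤ 6 * ((l' : ℕ) + 1) * ρ := by nlinarith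
      omega
    · have h3 : (l' : ℕ) + 1 + 1 ≤ (l : ℕ) + 1 := by
        have : (l' : ℕ) < l := hlt
        omega
      have h4 : 6 * ((l' : ℕ) + 1) * ρ + 6 * ρ ≤ 6 * ((l : ℕ) + 1) * ρ := by nlinarith
      omega
  · intro t l
    rw [Set.disjoint_left]
    rintro w hw ⟨t', n, hn, hw'⟩
    have hwP : a w ∈ P (T t) := hw
    by_cases h : t' = t
    · subst h
      exact hm2 t' l n hn (by rw [hw']; exact hwP)
    · exact hTR t' t h ⟨l, n, by rw [hw']; exact hwP⟩
  · intro t l
    refine ⟨(g (T t) l).getVert (m t l), hm1 t l, (g (T t) l).getVert (m t l - 1),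
      ⟨t, m t l - 1, by have := hm4 t l; omega, rfl⟩, ?_⟩
    have h1 := hm4 t l
    have h2 := hm3 t l
    have h3 := (g (T t) l).adj_getVert_succ (i := m t l - 1) (by omega)
    rw [Nat.sub_add_cancel h1] at h3
    exact h3.symm

end Pool.Agent.Lib.MP_2ce0dd_pr
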