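import Mathlib
import Pool.Agent.Lib.MP_2ce0dd_pr.Cuts

set_option autoImplicit false

/-!
The multiscale weight.
-/

namespace Pool.Agent.Lib.MP_2ce0dd_pr

variable {V : Type*} {G : SimpleGraph V}

/-! ### Weighted length of walks -/

/-- Weighted length of a walk: sum of the weights of all its vertices but the last. -/
def wlen (W : V → ℕ) : ∀ {u v : V}, G.Walk u v → ℕ
  | _, _, SimpleGraph.Walk.nil => 0
  | u, _, SimpleGraph.Walk.cons _ p => W u + wlen W p

@[simp] lemma wlen_nil (W : V → ℕ) (u : V) : wlen W (SimpleGraph.Walk.nil : G.Walk u u) = 0 := rfl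

@[simp] lemma wlen_cons (W : V → ℕ) {u v w : V} (h : G.Adj u v) (p : G.Walk v w) :
    wlen W (SimpleGraph.Walk.cons h p) = W u + wlen W p := rfl

lemma wlen_append (W : V → ℕ) {u v w : V} (p : G.Walk u v) (q : G.Walk v w) :
    wlen W (p.append q) = wlen W p + wlen W q := by
  induction p with
  | nil => simp
  | cons h p ih => simp [ih, add_assoc]

lemma wlen_mono {W W' : V → ℕ} (h : ∀ v, W v ≤ W' v) {u v : V} (p : G.Walk u v) :
    wlen W p ≤ wlen W' p := by
  induction p with
  | nil => simp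
  | @cons a b c hab p ih =>
    simp only [wlen_cons]
    have := h a
    omega

lemma wlen_double {W W' : V → ℕ} {u v : V} (p : G.Walk u v) (h : ∀ x ∈ p.support, W' x = W x * 2) :
    wlen W' p = 2 * wlen W p := by
  induction p with
  | nil => simp
  | @cons a b c hab p ih =>
    simp only [wlen_cons]
    rw [ih (fun x hx => h x (by simp [hx])), h a (by simp)]
    ring

/-- First time at distance `D` from the base point `y`. -/
lemma split_at_dist (hconn : G.Connected) (y : V) (D : ℕ) {u v : V} (p : G.Walk u v)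
    (hu : G.dist y u ≤ D) (hv : D ≤ G.dist y v) :
    ∃ (w : V) (p1 : G.Walk u w) (p2 : G.Walk w v), p = p1.append p2 ∧ G.dist y w = D ∧
      ∀ x ∈ p1.support, G.dist y x ≤ D := by
  induction p with
  | @nil a =>
    refine ⟨a, SimpleGraph.Walk.nil, SimpleGraph.Walk.nil, rfl, le_antisymm hu hv, ?_⟩
    intro x hx
    simp at hx
    rw [hx]; exact hu
  | @cons a b c hab p ih =>
    by_cases h : G.dist y a = D
    · refine ⟨a, SimpleGraph.Walk.nil, SimpleGraph.Walk.cons hab p, rfl, h, ?_⟩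
      intro x hx
      simp at hx
      rw [hx]; exact hu
    · have h1 := hconn.dist_triangle (u := y) (v := a) (w := b)
      have h2 : G.dist a b = 1 := SimpleGraph.dist_eq_one_iff_adj.2 hab
      obtain ⟨w, p1, p2, hp, hw, hx⟩ := ih (by omega) hv
      refine ⟨w, SimpleGraph.Walk.cons hab p1, p2, by rw [hp]; rfl, hw, ?_⟩
      intro x hx'
      rw [SimpleGraph.Walk.support_cons, List.mem_cons] at hx'
      rcases hx' with rfl | hx'
      · exact hu
      · exact hx x hx'

lemma greedy (hconn : G.Connected) {W : V → ℕ} {D ℓ : ℕ}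
    (h : ∀ (u v : V) (p : G.Walk u v), D ≤ G.dist u v → ℓ ≤ wlen W p) :
    ∀ (q : ℕ) (u v : V) (p : G.Walk u v), q * D ≤ G.dist u v → q * ℓ ≤ wlen W p := by
  intro q
  induction q with
  | zero => intro u v p _; simp
  | succ q ih =>
    intro u v p hq
    have hD : D ≤ G.dist u v := by
      have : (q + 1) * D = q * D + D := by ring
      omega
    obtain ⟨w, p1, p2, rfl, hw, -⟩ := split_at_dist hconn u D p (by simp) hD
    rw [wlen_append]
    have h1 := h u w p1 (by omega)
    have h2 := ih w v p2 (by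
      have h3 := hconn.dist_triangle (u := u) (v := w) (w := v)
      have : (q + 1) * D = q * D + D := by ring
      omega)
    have : (q + 1) * ℓ = q * ℓ + ℓ := by ring
    omega

lemma lane_split (hconn : G.Connected) {u v : V} (p : G.Walk u v) {w : V} (hw : w ∈ p.support)
    {D : ℕ} (hD : 2 * D ≤ G.dist u v) :
    ∃ (u' v' : V) (p1 : G.Walk u u') (q : G.Walk u' v') (p2 : G.Walk v' v),
      p = (p1.append q).append p2 ∧ G.dist u' v' = D ∧ ∀ x ∈ q.support, G.dist w x ≤ D := by
  classical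
  have hspec := p.take_spec hw
  have htri := hconn.dist_triangle (u := u) (v := w) (w := v)
  by_cases hcase : D ≤ G.dist w v
  · obtain ⟨w', q1, q2, hq, hw', hx⟩ := split_at_dist hconn w D (p.dropUntil w hw) (by simp) hcase
    refine ⟨w, w', p.takeUntil w hw, q1, q2, ?_, hw', hx⟩
    rw [← SimpleGraph.Walk.append_assoc, ← hq, hspec]
  · have hcase' : D ≤ G.dist w u := by
      rw [SimpleGraph.dist_comm]; omega
    obtain ⟨w', q1, q2, hq, hw', hx⟩ := split_at_dist hconn w D (p.takeUntil w hw).reverse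
      (by simp) hcase'
    refine ⟨w', w, q2.reverse, q1.reverse, p.dropUntil w hw, ?_, ?_, ?_⟩
    · rw [← SimpleGraph.Walk.reverse_append, ← hq, SimpleGraph.Walk.reverse_reverse, hspec]
    · rw [SimpleGraph.dist_comm]; exact hw'
    · intro x hx'
      rw [SimpleGraph.Walk.support_reverse, List.mem_reverse] at hx'
      exact hx x hx'

/-! ### Cut sets at a given level -/

/-- The constant in the cut set lemma. -/
noncomputable def M1 (d c C : ℝ) : ℕ := ⌊pk d c C 117⌋₊ * M0 d c C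

lemma exists_cutset {d c C : ℝ} (hG : Growth G d c C) (hc : 0 < c) (hC : 0 ≤ C) (hd : 0 ≤ d)
    (hK : ¬ HasK33Minor G) (b j : ℕ) (hj : 1 ≤ j) (hb : 3 ≤ b) :
    ∃ F : Set V,
      (∀ (u v : V) (p : G.Walk u v), 24 * b * j ≤ G.dist u v →
        ∃ w ∈ p.support, ∃ y ∈ F, G.dist w y < j) ∧
      ∀ x : V, ∃ T : Finset V, T.card ≤ M1 d c C * b ∧
        ∀ y ∈ F, G.dist x y ≤ 4 * (24 * b * j) → y ∈ T := by
  classical
  have htri := fun u v w => hG.conn.dist_triangle (u := u) (v := v) (w := w)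
  have hρ : 1 ≤ b * j := Nat.mul_pos (by omega) hj
  obtain ⟨N, hNsep, hNcov⟩ := exists_net G (b * j) hρ
  choose F hF1 hF2 hF3 using fun x => coarse_cut hG hc hC hd hK b j hj hb x
  refine ⟨{y | ∃ x ∈ N, y ∈ F x}, ?_, ?_⟩
  · intro u v p huv
    obtain ⟨x, hx, hux⟩ := hNcov u
    rw [SimpleGraph.dist_comm] at hux
    have h1 := htri u x v
    have h0 := SimpleGraph.dist_comm (G := G) (u := u) (v := x)
    have h2 : 24 * b * j = 24 * (b * j) := by ring
    obtain ⟨w, hw, y, hy, hwy⟩ := hF3 x u v p hux.le (by omega)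
    exact ⟨w, hw, y, ⟨x, hx, hy⟩, hwy⟩
  · intro x
    set X : Finset V := (hG.fin x (117 * (b * j))).toFinset.filter (· ∈ N) with hX
    have hXc : X.card ≤ ⌊pk d c C 117⌋₊ := by
      apply Nat.le_floor
      refine packing hG hc hC hd (j := b * j) (s := 117 * (b * j)) hρ (by norm_num)
        (by push_cast; rfl) x X ?_ ?_
      · intro w hw
        have hw1 := (Finset.mem_filter.1 hw).1
        rw [Set.Finite.mem_toFinset] at hw1
        exact hw1
      · intro w hw w' hw' hne
        exact hNsep w (Finset.mem_filter.1 hw).2 w' (Finset.mem_filter.1 hw').2 hne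
    refine ⟨X.biUnion F, ?_, ?_⟩
    · refine Finset.card_biUnion_le.trans ?_
      refine (Finset.sum_le_card_nsmul _ _ (M0 d c C * b) (fun w _ => hF1 w)).trans ?_
      rw [smul_eq_mul, M1, mul_assoc]
      exact Nat.mul_le_mul_right _ hXc
    · rintro y ⟨x', hx', hy⟩ hxy
      rw [Finset.mem_biUnion]
      refine ⟨x', ?_, hy⟩
      rw [hX, Finset.mem_filter, Set.Finite.mem_toFinset]
      refine ⟨?_, hx'⟩
      show G.dist x x' ≤ _
      have h1 := htri x y x'
      have h2 := hF2 x' y hy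
      rw [SimpleGraph.dist_comm] at h2
      have h3 : 4 * (24 * b * j) = 96 * (b * j) := by ring
      omega

lemma exists_nearest (hconn : G.Connected) (s : ℕ) (hs : 1 ≤ s) :
    ∃ ν : V → V, (∀ v, G.dist v (ν v) < s) ∧
      ∀ v v' : V, 2 * G.dist v' (ν v) < s → ν v' = ν v := by
  classical
  obtain ⟨N, hNsep, hNcov⟩ := exists_net G s hs
  have hex : ∀ v, ∃ x ∈ N, G.dist v x < s ∧ ∀ x' ∈ N, 2 * G.dist v x' < s → x = x' := by
    intro v
    by_cases h : ∃ x ∈ N, 2 * G.dist v x < s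
    · obtain ⟨x, hx, hvx⟩ := h
      refine ⟨x, hx, by omega, ?_⟩
      intro x' hx' hvx'
      by_contra hne
      have h1 := hNsep x hx x' hx' hne
      have h2 := hconn.dist_triangle (u := x) (v := v) (w := x')
      rw [SimpleGraph.dist_comm (u := x) (v := v)] at h2
      omega
    · push Not at h
      obtain ⟨x, hx, hvx⟩ := hNcov v
      exact ⟨x, hx, hvx, fun x' hx' h' => absurd h' (by have := h x' hx'; omega)⟩
  choose ν hν1 hν2 hν3 using hex
  exact ⟨ν, hν2, fun v v' h => hν3 v' (ν v) (hν1 v) h⟩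

/-! ### The multiscale weight -/

/-- The density bound of the lanes at one level. -/
noncomputable def kap (d c C : ℝ) (b : ℕ) : ℝ :=
  ((M1 d c C : ℝ) * b) * (C * 9 ^ d) / (c * (6 * (b : ℝ)) ^ d)

/-- The nested centre maps. -/
def fmap (ν : ℕ → V → V) : ℕ → V → V
  | 0 => id
  | k + 1 => fun v => ν k (fmap ν k v)

open Classical in
/-- The multiscale weight: doubled on every lane. -/
noncomputable def Wt (G : SimpleGraph V) (β : ℕ) (ν : ℕ → V → V) (F : ℕ → Set V) : ℕ → V → ℕ
  | 0 => fun _ => 1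
  | k + 1 => fun v => Wt G β ν F k v *
      (if ∃ y ∈ F k, G.dist y (fmap ν k v) ≤ 6 * β ^ k then 2 else 1)

lemma Wt_pos (β : ℕ) (ν : ℕ → V → V) (F : ℕ → Set V) (k : ℕ) (v : V) : 1 ≤ Wt G β ν F k v := by
  induction k with
  | zero => simp [Wt]
  | succ k ih =>
    simp only [Wt]
    split_ifs <;> omega

lemma Wt_le (β : ℕ) (ν : ℕ → V → V) (F : ℕ → Set V) (k : ℕ) (v : V) : Wt G β ν F k v ≤ 2 ^ k := by
  induction k with
  | zero => simp [Wt]
  | succ k ih =>
    simp only [Wt]
    have : 2 ^ (k + 1) = 2 ^ k * 2 := pow_succ 2 k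
    split_ifs <;> omega

lemma fmap_dist (hconn : G.Connected) {β : ℕ} (hβ : 2 ≤ β) {ν : ℕ → V → V}
    (hν : ∀ k v, G.dist v (ν k v) < β ^ (k + 1)) (k : ℕ) (v : V) :
    G.dist v (fmap ν k v) ≤ 2 * β ^ k := by
  induction k with
  | zero => simp [fmap]
  | succ k ih =>
    have h1 := hconn.dist_triangle (u := v) (v := fmap ν k v) (w := ν k (fmap ν k v))
    have h2 := hν k (fmap ν k v)
    have h3 : 2 * β ^ k ≤ β ^ (k + 1) := by
      rw [pow_succ, mul_comm]; exact Nat.mul_le_mul_left _ hβ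
    show G.dist v (ν k (fmap ν k v)) ≤ _
    omega

/-- The length estimate. -/
lemma Wt_length (hconn : G.Connected) {β : ℕ} (hβ : 6 ≤ β) {ν : ℕ → V → V} {F : ℕ → Set V}
    (hν : ∀ k v, G.dist v (ν k v) < β ^ (k + 1))
    (hF : ∀ k (u v : V) (p : G.Walk u v), β ^ (k + 1) ≤ G.dist u v →
        ∃ w ∈ p.support, ∃ y ∈ F k, G.dist w y < β ^ k) (k : ℕ) :
    ∀ (u v : V) (p : G.Walk u v), β ^ k ≤ G.dist u v → (β + 1) ^ k ≤ wlen (Wt G β ν F k) p := by
  induction k with
  | zero =>
    intro u v p huv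
    cases p with
    | nil => simp at huv
    | cons h p => simp [Wt]
  | succ k ih =>
    intro u v p huv
    set D := β ^ k with hD
    have hDpos : 0 < D := by positivity
    have hDβ : β ^ (k + 1) = β * D := by rw [pow_succ, mul_comm]
    obtain ⟨w, hw, y, hy, hwy⟩ := hF k u v p huv
    have h6 : 2 * (3 * D) ≤ G.dist u v := by
      have : 6 * D ≤ β * D := Nat.mul_le_mul_right _ hβ
      omega
    obtain ⟨u', v', p1, q, p2, hp, huv', hq⟩ := lane_split hconn p hw h6
    have hlane : ∀ x ∈ q.support, Wt G β ν F (k + 1) x = Wt G β ν F k x * 2 := by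
      intro x hx
      simp only [Wt]
      rw [if_pos]
      refine ⟨y, hy, ?_⟩
      have h1 := hq x hx
      have h2 := fmap_dist hconn (by omega : 2 ≤ β) hν k x
      have h3 := hconn.dist_triangle (u := y) (v := w) (w := fmap ν k x)
      have h4 := hconn.dist_triangle (u := w) (v := x) (w := fmap ν k x)
      have h5 := SimpleGraph.dist_comm (G := G) (u := y) (v := w)
      omega
    have hmono : ∀ x, Wt G β ν F k x ≤ Wt G β ν F (k + 1) x := by
      intro x
      simp only [Wt]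
      split_ifs <;> omega
    set ℓ := (β + 1) ^ k with hℓ
    have hg := greedy hconn (W := Wt G β ν F k) (D := D) (ℓ := ℓ) ih
    set a1 := G.dist u u' / D with ha1
    set a2 := G.dist v' v / D with ha2
    have e1 : a1 * ℓ ≤ wlen (Wt G β ν F k) p1 := hg a1 u u' p1 (Nat.div_mul_le_self _ _)
    have e2 : a2 * ℓ ≤ wlen (Wt G β ν F k) p2 := hg a2 v' v p2 (Nat.div_mul_le_self _ _)
    have e3 : 3 * ℓ ≤ wlen (Wt G β ν F k) q := hg 3 u' v' q huv'.ge
    have e4 := wlen_double q hlane
    have e5 := wlen_mono hmono p1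
    have e6 := wlen_mono hmono p2
    have t1 : G.dist u u' < (a1 + 1) * D := by
      have := Nat.lt_div_mul_add (a := G.dist u u') hDpos
      rw [ha1]; nlinarith
    have t2 : G.dist v' v < (a2 + 1) * D := by
      have := Nat.lt_div_mul_add (a := G.dist v' v) hDpos
      rw [ha2]; nlinarith
    have t3 := hconn.dist_triangle (u := u) (v := u') (w := v)
    have t4 := hconn.dist_triangle (u := u') (v := v') (w := v)
    have t5 : β * D < (a1 + 1 + 3 + (a2 + 1)) * D := by
      have : (a1 + 1 + 3 + (a2 + 1)) * D = (a1 + 1) * D + 3 * D + (a2 + 1) * D := by ring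
      omega
    have t6 : β < a1 + 1 + 3 + (a2 + 1) := Nat.lt_of_mul_lt_mul_right t5
    rw [hp, wlen_append, wlen_append, e4]
    have t7 : (β + 1) ^ (k + 1) = (β + 1) * ℓ := by rw [pow_succ, mul_comm]
    rw [t7]
    have t8 : (β + 1) * ℓ ≤ (a1 + a2 + 6) * ℓ := Nat.mul_le_mul_right _ (by omega)
    have t9 : (a1 + a2 + 6) * ℓ = a1 * ℓ + a2 * ℓ + 6 * ℓ := by ring
    omega

open Classical in
/-- The cells of the nested partitions. -/
noncomputable def cellF {d c C : ℝ} (hG : Growth G d c C) (β : ℕ) (ν : ℕ → V → V) (k : ℕ) (x : V) :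
    Finset V := (hG.fin x (2 * β ^ k)).toFinset.filter (fun v => fmap ν k v = x)

lemma mem_cellF {d c C : ℝ} (hG : Growth G d c C) {β : ℕ} (hβ : 2 ≤ β) {ν : ℕ → V → V}
    (hν : ∀ k v, G.dist v (ν k v) < β ^ (k + 1)) (k : ℕ) (x v : V) :
    v ∈ cellF hG β ν k x ↔ fmap ν k v = x := by
  classical
  rw [cellF, Finset.mem_filter, Set.Finite.mem_toFinset]
  constructor
  · exact fun h => h.2
  · intro h
    refine ⟨?_, h⟩
    show G.dist x v ≤ _
    have := fmap_dist hG.conn hβ hν k v
    rw [h, SimpleGraph.dist_comm] at this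
    exact this

open Classical in
lemma lane_density {d c C : ℝ} (hG : Growth G d c C) (hc : 0 < c) (hC : 0 ≤ C) (hd : 0 ≤ d)
    {b : ℕ} (hb : 1 ≤ b) {ν : ℕ → V → V} {F : ℕ → Set V}
    (hν : ∀ k v, G.dist v (ν k v) < (24 * b) ^ (k + 1))
    (hν2 : ∀ k (v v' : V), 2 * G.dist v' (ν k v) < (24 * b) ^ (k + 1) → ν k v' = ν k v)
    (hT : ∀ k (x : V), ∃ T : Finset V, T.card ≤ M1 d c C * b ∧
        ∀ y ∈ F k, G.dist x y ≤ 4 * (24 * b) ^ (k + 1) → y ∈ T) (k : ℕ) (x : V) :
    (((cellF hG (24 * b) ν (k + 1) x).filter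
      (fun v => ∃ y ∈ F k, G.dist y (fmap ν k v) ≤ 6 * (24 * b) ^ k)).card : ℝ) ≤
      kap d c C b * ((cellF hG (24 * b) ν (k + 1) x).card : ℝ) := by
  set β := 24 * b with hβ
  have hβ2 : 2 ≤ β := by omega
  set D := β ^ k with hD
  have hDpos : 0 < D := by positivity
  have hDβ : β ^ (k + 1) = 24 * (b * D) := by rw [pow_succ, ← hD, hβ]; ring
  have hbD : D ≤ b * D := Nat.le_mul_of_pos_left D hb
  rcases (cellF hG β ν (k + 1) x).eq_empty_or_nonempty with he | ⟨v0, hv0⟩
  · rw [he]; simp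
  rw [mem_cellF hG hβ2 hν] at hv0
  have hcell : ∀ v, v ∈ cellF hG β ν (k + 1) x ↔ fmap ν (k + 1) v = x :=
    fun v => mem_cellF hG hβ2 hν (k + 1) x v
  have hx : ν k (fmap ν k v0) = x := hv0
  -- lower bound on the cell
  have hlow : c * (6 * (b : ℝ) * D) ^ d ≤ ((cellF hG β ν (k + 1) x).card : ℝ) := by
    have h1 := hG.low x (6 * (b * D) - 1)
    have h2 : (((6 * (b * D) - 1 : ℕ) : ℝ) + 1) = 6 * (b : ℝ) * D := by
      have : 6 * (b * D) - 1 + 1 = 6 * (b * D) := by omega
      have h3 : (((6 * (b * D) - 1 : ℕ) : ℝ) + 1) = ((6 * (b * D) - 1 + 1 : ℕ) : ℝ) := by push_cast; ring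
      rw [h3, this]; push_cast; ring
    rw [h2] at h1
    refine h1.trans ?_
    rw [Set.ncard_eq_toFinset_card _ (hG.fin x _)]
    apply Nat.cast_le.2
    apply Finset.card_le_card
    intro v hv
    rw [Set.Finite.mem_toFinset] at hv
    have hv' : G.dist x v ≤ 6 * (b * D) - 1 := hv
    rw [hcell]
    show ν k (fmap ν k v) = x
    rw [← hx]
    apply hν2
    rw [hx]
    have h3 := fmap_dist hG.conn hβ2 hν k v
    have h4 := hG.conn.dist_triangle (u := fmap ν k v) (v := v) (w := x)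
    have h5 := SimpleGraph.dist_comm (G := G) (u := fmap ν k v) (v := v)
    have h6 := SimpleGraph.dist_comm (G := G) (u := v) (v := x)
    rw [hDβ]
    omega
  -- upper bound on the lane part
  obtain ⟨T, hTc, hTm⟩ := hT k x
  have hup : (((cellF hG β ν (k + 1) x).filter
      (fun v => ∃ y ∈ F k, G.dist y (fmap ν k v) ≤ 6 * D)).card : ℝ) ≤
      ((M1 d c C : ℝ) * b) * (C * (9 * (D : ℝ)) ^ d) := by
    have hsub : (cellF hG β ν (k + 1) x).filter
        (fun v => ∃ y ∈ F k, G.dist y (fmap ν k v) ≤ 6 * D) ⊆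
        T.biUnion (fun y => (hG.fin y (8 * D)).toFinset) := by
      intro v hv
      obtain ⟨hv1, y, hy, hyv⟩ := Finset.mem_filter.1 hv
      rw [hcell] at hv1
      have h3 := fmap_dist hG.conn hβ2 hν k v
      have h3' := fmap_dist hG.conn hβ2 hν (k + 1) v
      rw [hv1, hDβ] at h3'
      have h4 := hG.conn.dist_triangle (u := y) (v := fmap ν k v) (w := v)
      have h5 := SimpleGraph.dist_comm (G := G) (u := fmap ν k v) (v := v)
      have h6 := hG.conn.dist_triangle (u := x) (v := v) (w := y)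
      have h7 := SimpleGraph.dist_comm (G := G) (u := v) (v := x)
      have h8 := SimpleGraph.dist_comm (G := G) (u := v) (v := y)
      rw [Finset.mem_biUnion]
      refine ⟨y, hTm y hy (by rw [hDβ]; omega), ?_⟩
      rw [Set.Finite.mem_toFinset]
      show G.dist y v ≤ 8 * D
      omega
    have h1 : ((cellF hG β ν (k + 1) x).filter
        (fun v => ∃ y ∈ F k, G.dist y (fmap ν k v) ≤ 6 * D)).card ≤
        ∑ y ∈ T, ((hG.fin y (8 * D)).toFinset).card :=
      (Finset.card_le_card hsub).trans Finset.card_biUnion_le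
    have h2 : ∀ y ∈ T, (((hG.fin y (8 * D)).toFinset).card : ℝ) ≤ C * (9 * (D : ℝ)) ^ d := by
      intro y _
      rw [← Set.ncard_eq_toFinset_card _ (hG.fin y (8 * D))]
      refine (hG.up y (8 * D)).trans ?_
      apply mul_le_mul_of_nonneg_left _ hC
      apply Real.rpow_le_rpow (by positivity) _ hd
      have : (1 : ℝ) ≤ D := by exact_mod_cast hDpos
      push_cast
      linarith
    calc (((cellF hG β ν (k + 1) x).filter
        (fun v => ∃ y ∈ F k, G.dist y (fmap ν k v) ≤ 6 * D)).card : ℝ)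
        ≤ ((∑ y ∈ T, ((hG.fin y (8 * D)).toFinset).card : ℕ) : ℝ) := Nat.cast_le.2 h1
      _ = ∑ y ∈ T, (((hG.fin y (8 * D)).toFinset).card : ℝ) := by push_cast; rfl
      _ ≤ ∑ y ∈ T, C * (9 * (D : ℝ)) ^ d := Finset.sum_le_sum h2
      _ = (T.card : ℝ) * (C * (9 * (D : ℝ)) ^ d) := by rw [Finset.sum_const, nsmul_eq_mul]
      _ ≤ ((M1 d c C : ℝ) * b) * (C * (9 * (D : ℝ)) ^ d) := by
          apply mul_le_mul_of_nonneg_right _ (by positivity)
          exact_mod_cast hTc
  refine hup.trans ?_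
  have hb0 : (0 : ℝ) < b := by exact_mod_cast hb
  have hD0 : (0 : ℝ) < D := by exact_mod_cast hDpos
  have hk0 : 0 ≤ kap d c C b := by unfold kap; positivity
  refine le_trans ?_ (mul_le_mul_of_nonneg_left hlow hk0)
  rw [Real.mul_rpow (by positivity) hD0.le, Real.mul_rpow (by positivity) hD0.le, kap]
  have hne : (6 * (b : ℝ)) ^ d ≠ 0 := (Real.rpow_pos_of_pos (by positivity) d).ne'
  apply le_of_eq
  field_simp

/-- The area estimate. -/
lemma Wt_area {d c C : ℝ} (hG : Growth G d c C) (hc : 0 < c) (hC : 0 ≤ C) (hd : 0 ≤ d)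
    {b : ℕ} (hb : 1 ≤ b) {ν : ℕ → V → V} {F : ℕ → Set V}
    (hν : ∀ k v, G.dist v (ν k v) < (24 * b) ^ (k + 1))
    (hν2 : ∀ k (v v' : V), 2 * G.dist v' (ν k v) < (24 * b) ^ (k + 1) → ν k v' = ν k v)
    (hT : ∀ k (x : V), ∃ T : Finset V, T.card ≤ M1 d c C * b ∧
        ∀ y ∈ F k, G.dist x y ≤ 4 * (24 * b) ^ (k + 1) → y ∈ T) (k : ℕ) :
    ∀ x : V, ∑ v ∈ cellF hG (24 * b) ν k x, ((Wt G (24 * b) ν F k v : ℕ) : ℝ) ^ 2 ≤
      (1 + 3 * kap d c C b) ^ k * ((cellF hG (24 * b) ν k x).card : ℝ) := by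
  classical
  have hβ2 : 2 ≤ 24 * b := by omega
  have hκ : 0 ≤ kap d c C b := by unfold kap; positivity
  induction k with
  | zero => intro x; simp [Wt]
  | succ k ih =>
    intro x
    set β := 24 * b with hβ
    have hcell : ∀ k x v, v ∈ cellF hG β ν k x ↔ fmap ν k v = x :=
      fun k x v => mem_cellF hG hβ2 hν k x v
    set Q := cellF hG β ν (k + 1) x with hQ
    let lane : V → Prop := fun x' => ∃ y ∈ F k, G.dist y x' ≤ 6 * β ^ k
    -- the sum over Q of a function decomposes over the subcells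
    have hdec : ∀ g : V → ℝ, ∑ v ∈ Q, g v =
        ∑ x' ∈ Q.image (fmap ν k), ∑ v ∈ cellF hG β ν k x', g v := by
      intro g
      rw [← Finset.sum_fiberwise_of_maps_to (s := Q) (t := Q.image (fmap ν k)) (g := fmap ν k)
        (fun v hv => Finset.mem_image_of_mem _ hv)]
      refine Finset.sum_congr rfl ?_
      intro x' hx'
      obtain ⟨v0, hv0, rfl⟩ := Finset.mem_image.1 hx'
      congr 1
      ext v
      rw [Finset.mem_filter, hcell, hcell]
      rw [hQ, hcell] at hv0
      constructor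
      · exact fun h => h.2
      · intro h
        refine ⟨?_, h⟩
        show ν k (fmap ν k v) = x
        rw [h]; exact hv0
    have hstep : ∑ v ∈ Q, ((Wt G β ν F (k + 1) v : ℕ) : ℝ) ^ 2 ≤
        (1 + 3 * kap d c C b) ^ k * ∑ v ∈ Q, (if lane (fmap ν k v) then (4 : ℝ) else 1) := by
      rw [hdec, hdec, Finset.mul_sum]
      refine Finset.sum_le_sum ?_
      intro x' _
      have h1 : ∑ v ∈ cellF hG β ν k x', ((Wt G β ν F (k + 1) v : ℕ) : ℝ) ^ 2 =
          (if lane x' then (4 : ℝ) else 1) *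
            ∑ v ∈ cellF hG β ν k x', ((Wt G β ν F k v : ℕ) : ℝ) ^ 2 := by
        rw [Finset.mul_sum]
        refine Finset.sum_congr rfl ?_
        intro v hv
        rw [hcell] at hv
        simp only [Wt, hv, lane]
        split_ifs
        · push_cast; ring
        · push_cast; ring
      have h2 : ∑ v ∈ cellF hG β ν k x', (if lane (fmap ν k v) then (4 : ℝ) else 1) =
          (if lane x' then (4 : ℝ) else 1) * ((cellF hG β ν k x').card : ℝ) := by
        have : ∀ v ∈ cellF hG β ν k x', (if lane (fmap ν k v) then (4 : ℝ) else 1) =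
            (if lane x' then (4 : ℝ) else 1) := by
          intro v hv
          rw [hcell] at hv
          rw [hv]
        rw [Finset.sum_congr rfl this, Finset.sum_const, nsmul_eq_mul, mul_comm]
      rw [h1, h2]
      have h3 := ih x'
      have h4 : (0 : ℝ) ≤ (if lane x' then (4 : ℝ) else 1) := by split_ifs <;> norm_num
      calc (if lane x' then (4 : ℝ) else 1) *
            ∑ v ∈ cellF hG β ν k x', ((Wt G β ν F k v : ℕ) : ℝ) ^ 2
          ≤ (if lane x' then (4 : ℝ) else 1) *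
            ((1 + 3 * kap d c C b) ^ k * ((cellF hG β ν k x').card : ℝ)) :=
            mul_le_mul_of_nonneg_left h3 h4
        _ = _ := by ring
    refine hstep.trans ?_
    have hcount : ∑ v ∈ Q, (if lane (fmap ν k v) then (4 : ℝ) else 1) =
        (Q.card : ℝ) + 3 * ((Q.filter (fun v => lane (fmap ν k v))).card : ℝ) := by
      have : ∀ v ∈ Q, (if lane (fmap ν k v) then (4 : ℝ) else 1) =
          1 + 3 * (if lane (fmap ν k v) then (1 : ℝ) else 0) := by
        intro v _; split_ifs <;> norm_num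
      rw [Finset.sum_congr rfl this, Finset.sum_add_distrib, ← Finset.mul_sum, Finset.sum_boole]
      simp
    have hdens := lane_density hG hc hC hd hb hν hν2 hT k x
    rw [hcount, pow_succ, mul_assoc]
    apply mul_le_mul_of_nonneg_left _ (by positivity)
    have : ((Q.filter (fun v => lane (fmap ν k v))).card : ℝ) ≤ kap d c C b * (Q.card : ℝ) := hdens
    linarith

/-- Existence of the multiscale weight. -/
theorem exists_weight {d c C : ℝ} (hG : Growth G d c C) (hc : 0 < c) (hC : 0 ≤ C) (hd : 0 ≤ d)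
    (hK : ¬ HasK33Minor G) (b : ℕ) (hb : 3 ≤ b) (k : ℕ) :
    ∃ (W : V → ℕ) (f : V → V) (cell : V → Finset V),
      (∀ v, 1 ≤ W v) ∧ (∀ v, W v ≤ 2 ^ k) ∧
      (∀ v, G.dist v (f v) ≤ 2 * (24 * b) ^ k) ∧
      (∀ x v, v ∈ cell x ↔ f v = x) ∧
      (∀ x, ∑ v ∈ cell x, (W v : ℝ) ^ 2 ≤ (1 + 3 * kap d c C b) ^ k * ((cell x).card : ℝ)) ∧
      ∀ (u v : V) (p : G.Walk u v), (24 * b) ^ k ≤ G.dist u v → (24 * b + 1) ^ k ≤ wlen W p := by
  have hβ : 1 ≤ 24 * b := by omega
  choose ν hν hν2 using fun k => exists_nearest hG.conn ((24 * b) ^ (k + 1))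
    (Nat.one_le_pow _ _ (by omega))
  choose F hF hT using fun k => exists_cutset hG hc hC hd hK b ((24 * b) ^ k)
    (Nat.one_le_pow _ _ (by omega)) hb
  have hpow : ∀ k, 24 * b * (24 * b) ^ k = (24 * b) ^ (k + 1) := fun k => by rw [pow_succ, mul_comm]
  refine ⟨Wt G (24 * b) ν F k, fmap ν k, cellF hG (24 * b) ν k, Wt_pos _ _ _ _, Wt_le _ _ _ _,
    fmap_dist hG.conn (by omega) hν k, fun x v => mem_cellF hG (by omega) hν k x v, ?_, ?_⟩
  · exact Wt_area hG hc hC hd (by omega) hν hν2 (fun k x => by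
      obtain ⟨T, h1, h2⟩ := hT k x
      exact ⟨T, h1, fun y hy h => h2 y hy (by rw [hpow]; exact h)⟩) k
  · exact Wt_length hG.conn (by omega) hν (fun k u v p h => hF k u v p (by rw [hpow]; exact h)) k

end Pool.Agent.Lib.MP_2ce0dd_pr
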