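import Mathlib
import Pool.Agent.Lib.MP_2ce0dd_pr.Weight

set_option autoImplicit false

/-!
Choice of the parameters and asymptotics.
-/

namespace Pool.Agent.Lib.MP_2ce0dd_pr

/-- For `d > 2` some `b` makes the density of lanes much smaller than `1/b`. -/
lemma exists_b {d c C : ℝ} (hc : 0 < c) (hC : 0 < C) (hd : 2 < d) :
    ∃ b : ℕ, 3 ≤ b ∧
      (1 + 3 * kap d c C b) * (((24 * b : ℕ) : ℝ) / ((24 * b + 1 : ℕ) : ℝ)) ^ 2 < 1 := by
  set A : ℝ := (M1 d c C : ℝ) * (C * 9 ^ d) / (c * 6 ^ d) with hA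
  have hA0 : 0 ≤ A := by rw [hA]; positivity
  have ht : Filter.Tendsto (fun b : ℕ => A * (b : ℝ) ^ (-(d - 2))) Filter.atTop (nhds 0) := by
    have h1 := (tendsto_rpow_neg_atTop (show 0 < d - 2 by linarith)).comp
      (tendsto_natCast_atTop_atTop (R := ℝ))
    have h2 := h1.const_mul A
    rw [mul_zero] at h2
    exact h2
  have he : ∀ᶠ b : ℕ in Filter.atTop, A * (b : ℝ) ^ (-(d - 2)) < 1 / 36 :=
    ht.eventually (gt_mem_nhds (by norm_num))
  obtain ⟨b, hb, hb3⟩ := (he.and (Filter.eventually_ge_atTop 3)).exists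
  refine ⟨b, hb3, ?_⟩
  have hb0 : (0 : ℝ) < b := by
    have : 0 < b := by omega
    exact_mod_cast this
  have hk : kap d c C b * b = A * (b : ℝ) ^ (-(d - 2)) := by
    have h1 : (b : ℝ) ^ (-(d - 2)) = (b : ℝ) ^ (2 : ℝ) / (b : ℝ) ^ d := by
      rw [← Real.rpow_sub hb0]; congr 1; ring
    rw [h1, kap, hA, Real.mul_rpow (by norm_num) hb0.le, Real.rpow_two]
    have h2 : (b : ℝ) ^ d ≠ 0 := (Real.rpow_pos_of_pos hb0 d).ne'
    have h3 : (6 : ℝ) ^ d ≠ 0 := (Real.rpow_pos_of_pos (by norm_num) d).ne'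
    field_simp
  rw [← hk] at hb
  push_cast
  rw [div_pow, mul_div_assoc', div_lt_one (by positivity)]
  nlinarith

/-- The final choice of scale. -/
lemma asymp {d C Δ κ β : ℝ} (hd : 2 < d) (hC : 0 < C) (hΔ : 0 < Δ) (hκ : 0 ≤ κ) (hβ : 2 ≤ β)
    (hθ1 : (1 + 3 * κ) * (β / (β + 1)) ^ 2 < 1) :
    ∃ α K : ℝ, 0 ≤ α ∧ α < 1 / 2 ∧ 0 ≤ K ∧ ∀ T Z : ℝ, 1 ≤ T → 1 ≤ Z → Z ≤ Δ * (C * (T + 3) ^ d) →
      ∃ k : ℕ, β ^ k + (β / (β + 1)) ^ k *
        √(4 * Real.log Z * (Δ * (8 * (1 + 3 * κ) ^ k * (T + 1) +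
            4 ^ k * (8 * (C * (5 * β ^ k) ^ d) * (64 * (β ^ k) ^ 2)) * Real.log Z))) ≤
        K * T ^ α := by
  set θ := (1 + 3 * κ) * (β / (β + 1)) ^ 2 with hθ
  have hβ0 : 0 < β := by linarith
  have hθ0 : 0 < θ := by positivity
  set Γ := 4 * β ^ d * β ^ 2 with hΓ
  have hβd : 1 ≤ β ^ d := Real.one_le_rpow (by linarith) (by linarith)
  have hΓβ : β ^ 2 ≤ Γ := by
    rw [hΓ]
    have : 0 < β ^ 2 := by positivity
    nlinarith
  have hΓ1 : 1 < Γ := by nlinarith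
  have hΓ0 : 0 < Γ := by linarith
  set δ0 := Real.log (1 / θ) / (4 * Real.log Γ) with hδ0
  have hlogΓ : 0 < Real.log Γ := Real.log_pos hΓ1
  have hδ0pos : 0 < δ0 := by
    apply div_pos (Real.log_pos _) (by positivity)
    rw [lt_div_iff₀ hθ0]; linarith
  have hθΓ : Γ ^ (-(4 * δ0)) = θ := by
    rw [Real.rpow_def_of_pos hΓ0, hδ0]
    have h1 : Real.log Γ * -(4 * (Real.log (1 / θ) / (4 * Real.log Γ))) = Real.log θ := by
      rw [one_div, Real.log_inv]; field_simp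
    rw [h1, Real.exp_log hθ0]
  set δ := min δ0 (1 / 8) with hδ
  have hδpos : 0 < δ := lt_min hδ0pos (by norm_num)
  have hδ8 : δ ≤ 1 / 8 := min_le_right _ _
  have hδδ0 : δ ≤ δ0 := min_le_left _ _
  set ε := δ / d with hε
  have hεpos : 0 < ε := by positivity
  set C2 := (Δ * C) ^ ε * 4 ^ δ / ε with hC2
  have hC2pos : 0 < C2 := by positivity
  set C3 := 64 * C2 * Δ * θ⁻¹ + 2048 * Δ * C * 5 ^ d * C2 ^ 2 with hC3
  have hC3pos : 0 < C3 := by positivity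
  refine ⟨(1 - δ) / 2, 1 + √C3, by linarith, by linarith, by positivity, ?_⟩
  intro T Z hT hZ1 hZ
  have hT0 : 0 < T := by linarith
  set L := Real.log Z with hL
  have hL0 : 0 ≤ L := Real.log_nonneg hZ1
  have hLle : L ≤ C2 * T ^ δ := by
    have h1 := Real.log_le_rpow_div (x := Z) (ε := ε) (by linarith) hεpos
    refine h1.trans ?_
    have h2 : Z ≤ Δ * C * (4 * T) ^ d := by
      refine hZ.trans ?_
      rw [mul_assoc]
      apply mul_le_mul_of_nonneg_left _ hΔ.le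
      apply mul_le_mul_of_nonneg_left _ hC.le
      exact Real.rpow_le_rpow (by linarith) (by linarith) (by linarith)
    have h3 : Z ^ ε ≤ (Δ * C * (4 * T) ^ d) ^ ε := Real.rpow_le_rpow (by linarith) h2 hεpos.le
    have h4 : (Δ * C * (4 * T) ^ d) ^ ε = (Δ * C) ^ ε * 4 ^ δ * T ^ δ := by
      rw [Real.mul_rpow (by positivity) (by positivity), ← Real.rpow_mul (by positivity),
        hε, mul_div_cancel₀ _ (by linarith : d ≠ 0),
        Real.mul_rpow (by norm_num) hT0.le, mul_assoc]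
    rw [h4] at h3
    rw [hC2, div_mul_eq_mul_div]
    exact div_le_div_of_nonneg_right h3 hεpos.le
  have hsqrtT : 1 ≤ √T := by rw [Real.one_le_sqrt]; exact hT
  obtain ⟨k, hk1, hk2⟩ := exists_nat_pow_near hsqrtT hΓ1
  refine ⟨k, ?_⟩
  -- θ^k is small
  have hθk : θ ^ k ≤ θ⁻¹ * T ^ (-(2 * δ)) := by
    have h1 : θ ^ (k + 1) ≤ T ^ (-(2 * δ)) := by
      calc θ ^ (k + 1) = (Γ ^ (k + 1)) ^ (-(4 * δ0)) := by
            rw [← hθΓ, ← Real.rpow_natCast, ← Real.rpow_natCast, ← Real.rpow_mul hΓ0.le,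
              ← Real.rpow_mul hΓ0.le, mul_comm]
        _ ≤ (√T) ^ (-(4 * δ0)) :=
            Real.rpow_le_rpow_of_nonpos (by positivity) hk2.le (by linarith)
        _ = T ^ (-(2 * δ0)) := by
            rw [Real.sqrt_eq_rpow, ← Real.rpow_mul hT0.le]; congr 1; ring
        _ ≤ T ^ (-(2 * δ)) := Real.rpow_le_rpow_of_exponent_le hT (by linarith)
    rw [pow_succ] at h1
    rw [inv_mul_eq_div, le_div_iff₀ hθ0]
    exact h1
  -- β^k ≤ T^{1/4}
  have hβk : β ^ k ≤ T ^ ((1 - δ) / 2) := by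
    have h1 : (β ^ k) ^ 2 ≤ √T := by
      calc (β ^ k) ^ 2 = (β ^ 2) ^ k := by rw [← pow_mul, ← pow_mul, mul_comm]
        _ ≤ Γ ^ k := pow_le_pow_left₀ (by positivity) hΓβ k
        _ ≤ √T := hk1
    have h2 : β ^ k ≤ √(√T) := Real.le_sqrt_of_sq_le h1
    refine h2.trans ?_
    rw [Real.sqrt_eq_rpow, Real.sqrt_eq_rpow, ← Real.rpow_mul hT0.le]
    apply Real.rpow_le_rpow_of_exponent_le hT
    linarith
  have hpow : 4 ^ k * (8 * (C * (5 * β ^ k) ^ d) * (64 * (β ^ k) ^ 2)) =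
      512 * C * 5 ^ d * Γ ^ k := by
    rw [hΓ, Real.mul_rpow (by norm_num) (by positivity), mul_pow, mul_pow,
      ← Real.rpow_natCast β k, ← Real.rpow_mul hβ0.le, ← Real.rpow_natCast (β ^ d) k,
      ← Real.rpow_mul hβ0.le, mul_comm (k : ℝ) d, Real.rpow_natCast]
    ring
  rw [hpow]
  have hq0 : 0 < β / (β + 1) := by positivity
  have hq1 : β / (β + 1) ≤ 1 := by rw [div_le_one (by linarith)]; linarith
  have hX : (β / (β + 1)) ^ k * √(4 * L * (Δ * (8 * (1 + 3 * κ) ^ k * (T + 1) +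
      512 * C * 5 ^ d * Γ ^ k * L))) ≤ √C3 * T ^ ((1 - δ) / 2) := by
    have h1 : (β / (β + 1)) ^ k = √(((β / (β + 1)) ^ 2) ^ k) := by
      rw [← pow_mul, mul_comm, pow_mul, Real.sqrt_sq (by positivity)]
    rw [h1, ← Real.sqrt_mul (by positivity)]
    have h2 : T ^ ((1 - δ) / 2) = √(T ^ (1 - δ)) := by
      rw [Real.sqrt_eq_rpow, ← Real.rpow_mul hT0.le]; congr 1; ring
    rw [h2, ← Real.sqrt_mul hC3pos.le]
    apply Real.sqrt_le_sqrt
    have e1 : ((β / (β + 1)) ^ 2) ^ k * (1 + 3 * κ) ^ k = θ ^ k := by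
      rw [← mul_pow, hθ, mul_comm]
    have e2 : ((β / (β + 1)) ^ 2) ^ k ≤ 1 := pow_le_one₀ (by positivity) (pow_le_one₀ hq0.le hq1)
    have e3 : ((β / (β + 1)) ^ 2) ^ k * (4 * L * (Δ * (8 * (1 + 3 * κ) ^ k * (T + 1) +
        512 * C * 5 ^ d * Γ ^ k * L))) =
        32 * Δ * (T + 1) * (L * θ ^ k) +
        ((β / (β + 1)) ^ 2) ^ k * (2048 * Δ * C * 5 ^ d) * (Γ ^ k * L ^ 2) := by
      rw [← e1]; ring
    rw [e3]
    have hTδ : (0 : ℝ) < T ^ δ := by positivity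
    have f1 : L * θ ^ k ≤ C2 * θ⁻¹ * T ^ (-δ) := by
      calc L * θ ^ k ≤ (C2 * T ^ δ) * (θ⁻¹ * T ^ (-(2 * δ))) :=
            mul_le_mul hLle hθk (by positivity) (by positivity)
        _ = C2 * θ⁻¹ * (T ^ δ * T ^ (-(2 * δ))) := by ring
        _ = C2 * θ⁻¹ * T ^ (-δ) := by
            rw [← Real.rpow_add hT0]; congr 2; ring
    have f2 : 32 * Δ * (T + 1) * (L * θ ^ k) ≤ 64 * C2 * Δ * θ⁻¹ * T ^ (1 - δ) := by
      have g0 : 0 ≤ Δ * (T - 1) := mul_nonneg hΔ.le (by linarith)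
      have g1 : 32 * Δ * (T + 1) ≤ 64 * Δ * T := by
        have g2 : 64 * Δ * T - 32 * Δ * (T + 1) = 32 * (Δ * (T - 1)) := by ring
        linarith
      calc 32 * Δ * (T + 1) * (L * θ ^ k) ≤ (64 * Δ * T) * (C2 * θ⁻¹ * T ^ (-δ)) :=
            mul_le_mul g1 f1 (by positivity) (by positivity)
        _ = 64 * C2 * Δ * θ⁻¹ * (T ^ (1 : ℝ) * T ^ (-δ)) := by rw [Real.rpow_one]; ring
        _ = 64 * C2 * Δ * θ⁻¹ * T ^ (1 - δ) := by
            rw [← Real.rpow_add hT0]; congr 2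
    have f3 : Γ ^ k * L ^ 2 ≤ C2 ^ 2 * T ^ (1 - δ) := by
      calc Γ ^ k * L ^ 2 ≤ √T * (C2 * T ^ δ) ^ 2 :=
            mul_le_mul hk1 (pow_le_pow_left₀ hL0 hLle 2) (by positivity) (by positivity)
        _ = C2 ^ 2 * (T ^ (1 / 2 : ℝ) * (T ^ δ * T ^ δ)) := by rw [Real.sqrt_eq_rpow]; ring
        _ = C2 ^ 2 * T ^ (1 / 2 + (δ + δ)) := by rw [← Real.rpow_add hT0, ← Real.rpow_add hT0]
        _ ≤ C2 ^ 2 * T ^ (1 - δ) := by
            apply mul_le_mul_of_nonneg_left _ (by positivity)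
            exact Real.rpow_le_rpow_of_exponent_le hT (by linarith)
    have f4 : ((β / (β + 1)) ^ 2) ^ k * (2048 * Δ * C * 5 ^ d) * (Γ ^ k * L ^ 2) ≤
        2048 * Δ * C * 5 ^ d * C2 ^ 2 * T ^ (1 - δ) := by
      have g1 : ((β / (β + 1)) ^ 2) ^ k * (2048 * Δ * C * 5 ^ d) ≤ 2048 * Δ * C * 5 ^ d := by
        have : (0 : ℝ) ≤ 2048 * Δ * C * 5 ^ d := by positivity
        exact mul_le_of_le_one_left this e2
      calc ((β / (β + 1)) ^ 2) ^ k * (2048 * Δ * C * 5 ^ d) * (Γ ^ k * L ^ 2)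
          ≤ (2048 * Δ * C * 5 ^ d) * (C2 ^ 2 * T ^ (1 - δ)) :=
            mul_le_mul g1 f3 (by positivity) (by positivity)
        _ = _ := by ring
    rw [hC3, add_mul]
    exact add_le_add f2 f4
  rw [add_mul, one_mul]
  exact add_le_add hβk hX

end Pool.Agent.Lib.MP_2ce0dd_pr
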