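import Mathlib

set_option autoImplicit false

/-!
Entropy estimates for simple random walk.
-/

namespace Pool.Agent.Lib.MP_2ce0dd_pr

variable {V : Type*} {G : SimpleGraph V}

open Classical in
/-- Density of the law of simple random walk with respect to the degree measure. -/
noncomputable def hl (G : SimpleGraph V) [G.LocallyFinite] (o : V) : ℕ → V → ℝ
  | 0 => fun v => if v = o then 1 / (G.degree o : ℝ) else 0
  | t + 1 => fun w => (∑ u ∈ G.neighborFinset w, hl G o t u) / (G.degree w : ℝ)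

variable [G.LocallyFinite] {o : V}

lemma hl_nonneg (t : ℕ) (v : V) : 0 ≤ hl G o t v := by
  induction t generalizing v with
  | zero => simp only [hl]; split_ifs <;> positivity
  | succ t ih =>
    simp only [hl]
    exact div_nonneg (Finset.sum_nonneg fun u _ => ih u) (by positivity)

lemma hl_supp (hconn : G.Connected) (t : ℕ) (v : V) (h : hl G o t v ≠ 0) : G.dist o v ≤ t := by
  induction t generalizing v with
  | zero =>
    simp only [hl] at h
    have : v = o := by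
      by_contra hne
      exact h (by simp [hne])
    rw [this]; simp
  | succ t ih =>
    simp only [hl] at h
    have h1 : ∑ u ∈ G.neighborFinset v, hl G o t u ≠ 0 := by
      intro h0; rw [h0] at h; simp at h
    obtain ⟨u, hu, hu0⟩ := Finset.exists_ne_zero_of_sum_ne_zero h1
    have h2 := ih u hu0
    have h3 : G.Adj v u := by simpa using hu
    have h4 := hconn.dist_triangle (u := o) (v := u) (w := v)
    have h5 : G.dist u v = 1 := SimpleGraph.dist_eq_one_iff_adj.2 h3.symm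
    omega

open Classical in
/-- Ordered adjacent pairs inside a finite set. -/
noncomputable def prs (G : SimpleGraph V) (Λ : Finset V) : Finset (V × V) :=
  (Λ ×ˢ Λ).filter (fun q => G.Adj q.1 q.2)

omit [G.LocallyFinite] in
lemma sum_prs (Λ : Finset V) (F : V → V → ℝ) : by
    classical exact ∑ q ∈ prs G Λ, F q.1 q.2 =
      ∑ u ∈ Λ, ∑ w ∈ Λ, if G.Adj u w then F u w else 0 := by
  classical
  rw [prs, Finset.sum_filter, Finset.sum_product]

omit [G.LocallyFinite] in
lemma sum_prs_swap (Λ : Finset V) (F : V → V → ℝ) :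
    ∑ q ∈ prs G Λ, F q.1 q.2 = ∑ q ∈ prs G Λ, F q.2 q.1 := by
  classical
  rw [sum_prs, sum_prs Λ (fun a b => F b a), Finset.sum_comm]
  refine Finset.sum_congr rfl fun u _ => Finset.sum_congr rfl fun w _ => ?_
  simp only [G.adj_comm]

/-- Expectation of `g` under the law at time `t` (computed inside `Λ`). -/
noncomputable def Ex (G : SimpleGraph V) [G.LocallyFinite] (o : V) (Λ : Finset V) (t : ℕ)
    (g : V → ℝ) : ℝ := ∑ u ∈ Λ, (G.degree u : ℝ) * hl G o t u * g u

section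
variable {Λ : Finset V} {n : ℕ}

lemma sum_prs_fst (hconn : G.Connected) (hΛ : ∀ v, G.dist o v ≤ n → v ∈ Λ) {t : ℕ} (ht : t + 1 ≤ n)
    (g : V → ℝ) : ∑ q ∈ prs G Λ, hl G o t q.1 * g q.1 = Ex G o Λ t g := by
  classical
  rw [sum_prs Λ (fun a _ => hl G o t a * g a), Ex]
  refine Finset.sum_congr rfl fun u _ => ?_
  by_cases h0 : hl G o t u = 0
  · simp [h0]
  · have h1 := hl_supp hconn t u h0
    have h2 : (∑ w ∈ Λ, if G.Adj u w then hl G o t u * g u else 0) =
        ∑ w ∈ G.neighborFinset u, hl G o t u * g u := by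
      rw [← Finset.sum_filter]
      congr 1
      ext w
      rw [Finset.mem_filter, SimpleGraph.mem_neighborFinset]
      constructor
      · exact fun h => h.2
      · intro h
        refine ⟨hΛ w ?_, h⟩
        have h4 := hconn.dist_triangle (u := o) (v := u) (w := w)
        have h5 : G.dist u w = 1 := SimpleGraph.dist_eq_one_iff_adj.2 h
        omega
    rw [h2, Finset.sum_const, nsmul_eq_mul, SimpleGraph.card_neighborFinset_eq_degree, mul_assoc]

lemma sum_prs_snd (hconn : G.Connected) (hdeg : ∀ v, 0 < G.degree v)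
    (hΛ : ∀ v, G.dist o v ≤ n → v ∈ Λ) {t : ℕ} (ht : t ≤ n)
    (g : V → ℝ) : ∑ q ∈ prs G Λ, hl G o t q.1 * g q.2 = Ex G o Λ (t + 1) g := by
  classical
  rw [sum_prs Λ (fun a b => hl G o t a * g b), Finset.sum_comm, Ex]
  refine Finset.sum_congr rfl fun w _ => ?_
  have h2 : (∑ u ∈ Λ, if G.Adj u w then hl G o t u * g w else 0) =
      ∑ u ∈ G.neighborFinset w, hl G o t u * g w := by
    rw [← Finset.sum_filter]
    apply Finset.sum_subset
    · intro u hu
      rw [Finset.mem_filter] at hu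
      rw [SimpleGraph.mem_neighborFinset]
      exact hu.2.symm
    · intro u hu hu'
      rw [SimpleGraph.mem_neighborFinset] at hu
      rw [Finset.mem_filter] at hu'
      by_contra hne
      apply hu'
      refine ⟨hΛ u ?_, hu.symm⟩
      exact (hl_supp hconn t u (fun h0 => hne (by rw [h0, zero_mul]))).trans ht
  rw [h2, ← Finset.sum_mul]
  have hd : (G.degree w : ℝ) ≠ 0 := by have := hdeg w; positivity
  simp only [hl]
  field_simp

lemma sum_prs_fst' (hconn : G.Connected) (hΛ : ∀ v, G.dist o v ≤ n → v ∈ Λ) {t : ℕ}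
    (ht : t + 1 ≤ n) (g : V → ℝ) : ∑ q ∈ prs G Λ, hl G o t q.2 * g q.2 = Ex G o Λ t g := by
  rw [← sum_prs_fst hconn hΛ ht g, sum_prs_swap Λ (fun a _ => hl G o t a * g a)]

lemma sum_prs_snd' (hconn : G.Connected) (hdeg : ∀ v, 0 < G.degree v)
    (hΛ : ∀ v, G.dist o v ≤ n → v ∈ Λ) {t : ℕ} (ht : t ≤ n)
    (g : V → ℝ) : ∑ q ∈ prs G Λ, hl G o t q.2 * g q.1 = Ex G o Λ (t + 1) g := by
  rw [← sum_prs_snd hconn hdeg hΛ ht g, sum_prs_swap Λ (fun a b => hl G o t a * g b)]

lemma Ex_one (hconn : G.Connected) (hdeg : ∀ v, 0 < G.degree v)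
    (hΛ : ∀ v, G.dist o v ≤ n → v ∈ Λ) {t : ℕ} (ht : t ≤ n) : Ex G o Λ t (fun _ => 1) = 1 := by
  classical
  induction t with
  | zero =>
    rw [Ex, Finset.sum_eq_single o]
    · simp only [hl, if_true, mul_one]
      have : (G.degree o : ℝ) ≠ 0 := by have := hdeg o; positivity
      field_simp
    · intro v _ hv
      simp [hl, hv]
    · intro ho
      exact absurd (hΛ o (by simp)) ho
  | succ t ih =>
    have h1 := sum_prs_snd hconn hdeg hΛ (t := t) (by omega) (fun _ => 1)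
    have h2 := sum_prs_fst hconn hΛ ht (fun _ => 1)
    exact h1.symm.trans (h2.trans (ih (by omega)))

/-- The second-difference identity. -/
lemma Ex_diff (hconn : G.Connected) (hdeg : ∀ v, 0 < G.degree v)
    (hΛ : ∀ v, G.dist o v ≤ n → v ∈ Λ) {t : ℕ} (ht : t + 2 ≤ n) (φ : V → ℝ) :
    Ex G o Λ (t + 2) φ - Ex G o Λ t φ =
      ∑ q ∈ prs G Λ, (hl G o t q.1 - hl G o (t + 1) q.2) * (φ q.2 - φ q.1) := by
  have h1 := sum_prs_snd hconn hdeg hΛ (t := t) (by omega) φ
  have h2 := sum_prs_fst hconn hΛ (t := t) (by omega) φ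
  have h3 := sum_prs_fst' hconn hΛ (t := t + 1) (by omega) φ
  have h4 := sum_prs_snd' hconn hdeg hΛ (t := t + 1) (by omega) φ
  have h5 : ∑ q ∈ prs G Λ, (hl G o t q.1 - hl G o (t + 1) q.2) * (φ q.2 - φ q.1) =
      ∑ q ∈ prs G Λ, hl G o t q.1 * φ q.2 - ∑ q ∈ prs G Λ, hl G o t q.1 * φ q.1 -
      ∑ q ∈ prs G Λ, hl G o (t + 1) q.2 * φ q.2 + ∑ q ∈ prs G Λ, hl G o (t + 1) q.2 * φ q.1 := by
    rw [← Finset.sum_sub_distrib, ← Finset.sum_sub_distrib, ← Finset.sum_add_distrib]
    exact Finset.sum_congr rfl fun q _ => by ring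
  rw [h5, h1, h2, h3, h4]
  ring

/-- Entropy production between times `t` and `t+1`. -/
noncomputable def ent (G : SimpleGraph V) [G.LocallyFinite] (o : V) (Λ : Finset V) (t : ℕ) : ℝ :=
  ∑ q ∈ prs G Λ, (√(hl G o t q.1) - √(hl G o (t + 1) q.2)) ^ 2

lemma ent_nonneg (t : ℕ) : 0 ≤ ent G o Λ t := Finset.sum_nonneg fun _ _ => sq_nonneg _

lemma log_ineq {x m : ℝ} (hx : 0 ≤ x) (hm : 0 ≤ m) (h : m = 0 → x = 0) :
    (√x - √m) ^ 2 ≤ x * Real.log x - x * Real.log m - x + m := by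
  rcases hx.eq_or_lt with rfl | hx0
  · simp [Real.sq_sqrt hm]
  · have hm0 : 0 < m := lt_of_le_of_ne hm (fun h' => hx0.ne' (h h'.symm))
    set s := √x with hs
    set r := √m with hr
    have hs0 : 0 < s := Real.sqrt_pos.2 hx0
    have hr0 : 0 < r := Real.sqrt_pos.2 hm0
    have hxs : x = s ^ 2 := (Real.sq_sqrt hx).symm
    have hmr : m = r ^ 2 := (Real.sq_sqrt hm).symm
    have h1 := Real.one_sub_inv_le_log_of_pos (div_pos hs0 hr0)
    rw [inv_div, Real.log_div hs0.ne' hr0.ne'] at h1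
    rw [hxs, hmr, Real.log_pow, Real.log_pow]
    push_cast
    have h2 : s ^ 2 * (1 - r / s) ≤ s ^ 2 * (Real.log s - Real.log r) :=
      mul_le_mul_of_nonneg_left h1 (by positivity)
    have h3 : s ^ 2 * (1 - r / s) = s ^ 2 - s * r := by field_simp
    nlinarith

lemma ent_le (hconn : G.Connected) (hdeg : ∀ v, 0 < G.degree v)
    (hΛ : ∀ v, G.dist o v ≤ n → v ∈ Λ) {t : ℕ} (ht : t + 2 ≤ n) :
    ent G o Λ t ≤ Ex G o Λ t (fun v => Real.log (hl G o t v)) -
      Ex G o Λ (t + 1) (fun v => Real.log (hl G o (t + 1) v)) := by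
  classical
  have h1 := sum_prs_snd hconn hdeg hΛ (t := t) (by omega) (fun v => Real.log (hl G o (t + 1) v))
  have h2 := sum_prs_fst hconn hΛ (t := t) (by omega) (fun v => Real.log (hl G o t v))
  have h3 := sum_prs_fst hconn hΛ (t := t) (by omega) (fun _ => 1)
  have h4 := sum_prs_fst' hconn hΛ (t := t + 1) (by omega) (fun _ => 1)
  rw [Ex_one hconn hdeg hΛ (by omega)] at h3 h4
  have h5 : ent G o Λ t ≤ ∑ q ∈ prs G Λ, (hl G o t q.1 * Real.log (hl G o t q.1) -
      hl G o t q.1 * Real.log (hl G o (t + 1) q.2) - hl G o t q.1 * 1 +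
      hl G o (t + 1) q.2 * 1) := by
    refine Finset.sum_le_sum fun q hq => ?_
    rw [mul_one, mul_one]
    apply log_ineq (hl_nonneg _ _) (hl_nonneg _ _)
    intro h0
    have hadj : G.Adj q.1 q.2 := (Finset.mem_filter.1 hq).2
    simp only [hl] at h0
    have hd : (G.degree q.2 : ℝ) ≠ 0 := by have := hdeg q.2; positivity
    have h6 : ∑ u ∈ G.neighborFinset q.2, hl G o t u = 0 := by
      rcases div_eq_zero_iff.1 h0 with h | h
      · exact h
      · exact absurd h hd
    exact (Finset.sum_eq_zero_iff_of_nonneg fun u _ => hl_nonneg t u).1 h6 q.1 (by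
      rw [SimpleGraph.mem_neighborFinset]; exact hadj.symm)
  refine h5.trans (le_of_eq ?_)
  rw [Finset.sum_add_distrib, Finset.sum_sub_distrib, Finset.sum_sub_distrib, h1, h2, h3, h4]
  ring

lemma entropy_lower (hconn : G.Connected) (hdeg : ∀ v, 0 < G.degree v)
    (hΛ : ∀ v, G.dist o v ≤ n → v ∈ Λ) {t : ℕ} (ht : t ≤ n) :
    -Real.log (∑ v ∈ Λ, (G.degree v : ℝ)) ≤ Ex G o Λ t (fun v => Real.log (hl G o t v)) := by
  set Z := ∑ v ∈ Λ, (G.degree v : ℝ) with hZ
  have hoΛ : o ∈ Λ := hΛ o (by simp)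
  have hZ0 : 0 < Z := Finset.sum_pos (fun v _ => by exact_mod_cast hdeg v) ⟨o, hoΛ⟩
  have hmass := Ex_one hconn hdeg hΛ ht
  have h1 : ∀ v ∈ Λ, (G.degree v : ℝ) * hl G o t v * (-Real.log (hl G o t v) - Real.log Z) ≤
      (G.degree v : ℝ) / Z - (G.degree v : ℝ) * hl G o t v * 1 := by
    intro v _
    have hd0 : (0 : ℝ) ≤ G.degree v := by positivity
    rcases (hl_nonneg (G := G) (o := o) t v).eq_or_lt with h0 | h0
    · rw [← h0]
      simp only [mul_zero, zero_mul, sub_zero]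
      positivity
    · have h2 : -Real.log (hl G o t v) - Real.log Z = Real.log (1 / (hl G o t v * Z)) := by
        rw [one_div, Real.log_inv, Real.log_mul h0.ne' hZ0.ne']; ring
      have h3 := Real.log_le_sub_one_of_pos (show 0 < 1 / (hl G o t v * Z) by positivity)
      rw [h2]
      calc (G.degree v : ℝ) * hl G o t v * Real.log (1 / (hl G o t v * Z))
          ≤ (G.degree v : ℝ) * hl G o t v * (1 / (hl G o t v * Z) - 1) :=
            mul_le_mul_of_nonneg_left h3 (by positivity)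
        _ = _ := by field_simp
  have h2 := Finset.sum_le_sum h1
  rw [Finset.sum_sub_distrib, ← Finset.sum_div, ← hZ, div_self hZ0.ne'] at h2
  have h3 : ∑ v ∈ Λ, (G.degree v : ℝ) * hl G o t v * (-Real.log (hl G o t v) - Real.log Z) =
      -Ex G o Λ t (fun v => Real.log (hl G o t v)) - Real.log Z * Ex G o Λ t (fun _ => 1) := by
    rw [Ex, Ex, Finset.mul_sum, ← Finset.sum_neg_distrib, ← Finset.sum_sub_distrib]
    exact Finset.sum_congr rfl fun v _ => by ring
  rw [h3, hmass] at h2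
  have h4 : ∑ v ∈ Λ, (G.degree v : ℝ) * hl G o t v * 1 = 1 := hmass
  rw [h4] at h2
  linarith

/-- Total entropy production. -/
lemma sum_ent_le (hconn : G.Connected) (hdeg : ∀ v, 0 < G.degree v)
    (hΛ : ∀ v, G.dist o v ≤ n → v ∈ Λ) {T : ℕ} (hT : T + 1 ≤ n) :
    ∑ t ∈ Finset.range T, ent G o Λ t ≤ Real.log (∑ v ∈ Λ, (G.degree v : ℝ)) := by
  classical
  have h1 : ∑ t ∈ Finset.range T, ent G o Λ t ≤
      Ex G o Λ 0 (fun v => Real.log (hl G o 0 v)) - Ex G o Λ T (fun v => Real.log (hl G o T v)) := by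
    rw [← Finset.sum_range_sub' (fun t => Ex G o Λ t (fun v => Real.log (hl G o t v)))]
    refine Finset.sum_le_sum fun t ht => ?_
    exact ent_le hconn hdeg hΛ (by have := Finset.mem_range.1 ht; omega)
  have h2 := entropy_lower hconn hdeg hΛ (t := T) (by omega)
  have h3 : Ex G o Λ 0 (fun v => Real.log (hl G o 0 v)) ≤ 0 := by
    rw [Ex]
    apply Finset.sum_nonpos
    intro v _
    by_cases hv : v = o
    · subst hv
      simp only [hl, if_true]
      have hd : (1 : ℝ) ≤ G.degree v := by exact_mod_cast hdeg v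
      have h4 : Real.log (1 / (G.degree v : ℝ)) ≤ 0 := by
        apply Real.log_nonpos (by positivity)
        rw [div_le_one (by linarith)]; exact hd
      have h5 : (0 : ℝ) ≤ (G.degree v : ℝ) * (1 / (G.degree v : ℝ)) := by positivity
      exact mul_nonpos_of_nonneg_of_nonpos h5 h4
    · simp [hl, hv]
  linarith

/-- Displacement bound. -/
lemma Ex_step (hconn : G.Connected) (hdeg : ∀ v, 0 < G.degree v)
    (hΛ : ∀ v, G.dist o v ≤ n → v ∈ Λ) {t : ℕ} (ht : t + 2 ≤ n) (φ w2 : V → ℝ)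
    (hφ : ∀ u w, G.Adj u w → (φ w - φ u) ^ 2 ≤ w2 u + w2 w) :
    Ex G o Λ (t + 2) φ - Ex G o Λ t φ ≤ √(ent G o Λ t) *
      √(2 * (Ex G o Λ t w2 + 2 * Ex G o Λ (t + 1) w2 + Ex G o Λ (t + 2) w2)) := by
  classical
  rw [Ex_diff hconn hdeg hΛ ht φ]
  have h1 : ∑ q ∈ prs G Λ, (hl G o t q.1 - hl G o (t + 1) q.2) * (φ q.2 - φ q.1) =
      ∑ q ∈ prs G Λ, (√(hl G o t q.1) - √(hl G o (t + 1) q.2)) *
        ((√(hl G o t q.1) + √(hl G o (t + 1) q.2)) * (φ q.2 - φ q.1)) := by
    refine Finset.sum_congr rfl fun q _ => ?_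
    have e1 := Real.mul_self_sqrt (hl_nonneg (G := G) (o := o) t q.1)
    have e2 := Real.mul_self_sqrt (hl_nonneg (G := G) (o := o) (t + 1) q.2)
    have : (√(hl G o t q.1) - √(hl G o (t + 1) q.2)) *
        ((√(hl G o t q.1) + √(hl G o (t + 1) q.2)) * (φ q.2 - φ q.1)) =
        (√(hl G o t q.1) * √(hl G o t q.1) - √(hl G o (t + 1) q.2) * √(hl G o (t + 1) q.2)) *
          (φ q.2 - φ q.1) := by ring
    rw [this, e1, e2]
  rw [h1]
  refine (Real.sum_mul_le_sqrt_mul_sqrt _ _ _).trans ?_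
  apply mul_le_mul_of_nonneg_left _ (Real.sqrt_nonneg _)
  apply Real.sqrt_le_sqrt
  have h2 : ∀ q ∈ prs G Λ, ((√(hl G o t q.1) + √(hl G o (t + 1) q.2)) * (φ q.2 - φ q.1)) ^ 2 ≤
      2 * (hl G o t q.1 * w2 q.1 + hl G o t q.1 * w2 q.2 + hl G o (t + 1) q.2 * w2 q.2 +
        hl G o (t + 1) q.2 * w2 q.1) := by
    intro q hq
    have hadj : G.Adj q.1 q.2 := (Finset.mem_filter.1 hq).2
    have e1 := Real.sq_sqrt (hl_nonneg (G := G) (o := o) t q.1)
    have e2 := Real.sq_sqrt (hl_nonneg (G := G) (o := o) (t + 1) q.2)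
    have e3 := hφ q.1 q.2 hadj
    rw [mul_pow]
    have e4 : (√(hl G o t q.1) + √(hl G o (t + 1) q.2)) ^ 2 ≤
        2 * (hl G o t q.1 + hl G o (t + 1) q.2) := by
      nlinarith [sq_nonneg (√(hl G o t q.1) - √(hl G o (t + 1) q.2))]
    have e5 : 0 ≤ 2 * (hl G o t q.1 + hl G o (t + 1) q.2) := by
      have := hl_nonneg (G := G) (o := o) t q.1
      have := hl_nonneg (G := G) (o := o) (t + 1) q.2
      positivity
    calc (√(hl G o t q.1) + √(hl G o (t + 1) q.2)) ^ 2 * (φ q.2 - φ q.1) ^ 2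
        ≤ (2 * (hl G o t q.1 + hl G o (t + 1) q.2)) * (w2 q.1 + w2 q.2) :=
          mul_le_mul e4 e3 (sq_nonneg _) e5
      _ = _ := by ring
  refine (Finset.sum_le_sum h2).trans (le_of_eq ?_)
  rw [← Finset.mul_sum, Finset.sum_add_distrib, Finset.sum_add_distrib, Finset.sum_add_distrib,
    sum_prs_fst hconn hΛ (by omega), sum_prs_snd hconn hdeg hΛ (by omega),
    sum_prs_fst' hconn hΛ (by omega), sum_prs_snd' hconn hdeg hΛ (by omega)]
  ring

end

end Pool.Agent.Lib.MP_2ce0dd_pr
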