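import Mathlib
import Pool.Agent.Lib.MP_2ce0dd_pr.Geom
import Pool.Agent.Lib.MP_2ce0dd_pr.Entropy

set_option autoImplicit false

/-!
Small entropy production makes the law of the walk locally flat.
-/

namespace Pool.Agent.Lib.MP_2ce0dd_pr

variable {V : Type*} {G : SimpleGraph V} [G.LocallyFinite] {o : V} {Λ : Finset V} {n : ℕ}

lemma displacement (hconn : G.Connected) (hdeg : ∀ v, 0 < G.degree v)
    (hΛ : ∀ v, G.dist o v ≤ n → v ∈ Λ) {m : ℕ} (hm : 2 * m + 1 ≤ n) (φ w2 : V → ℝ)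
    (hw2 : ∀ v, 0 ≤ w2 v) (hφ : ∀ u w, G.Adj u w → (φ w - φ u) ^ 2 ≤ w2 u + w2 w) {L : ℝ}
    (hL : ∑ t ∈ Finset.range (2 * m), ent G o Λ t ≤ L) :
    Ex G o Λ (2 * m) φ - Ex G o Λ 0 φ ≤
      √(4 * L * ∑ t ∈ Finset.range (2 * m + 1), Ex G o Λ t w2) := by
  classical
  have hExn : ∀ t, 0 ≤ Ex G o Λ t w2 := fun t => Finset.sum_nonneg fun v _ =>
    mul_nonneg (mul_nonneg (by positivity) (hl_nonneg _ _)) (hw2 v)
  have h1 : Ex G o Λ (2 * m) φ - Ex G o Λ 0 φ =
      ∑ i ∈ Finset.range m, (Ex G o Λ (2 * i + 2) φ - Ex G o Λ (2 * i) φ) := by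
    rw [← Finset.sum_range_sub (fun i => Ex G o Λ (2 * i) φ)]
    rfl
  rw [h1]
  set B : ℕ → ℝ := fun i => 2 * (Ex G o Λ (2 * i) w2 + 2 * Ex G o Λ (2 * i + 1) w2 +
    Ex G o Λ (2 * i + 2) w2) with hB
  have hBn : ∀ i, 0 ≤ B i := fun i => by
    have := hExn (2 * i); have := hExn (2 * i + 1); have := hExn (2 * i + 2)
    simp only [hB]; positivity
  have h2 : ∑ i ∈ Finset.range m, (Ex G o Λ (2 * i + 2) φ - Ex G o Λ (2 * i) φ) ≤
      ∑ i ∈ Finset.range m, √(ent G o Λ (2 * i)) * √(B i) := by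
    refine Finset.sum_le_sum fun i hi => ?_
    exact Ex_step hconn hdeg hΛ (by have := Finset.mem_range.1 hi; omega) φ w2 hφ
  refine h2.trans ((Real.sum_sqrt_mul_sqrt_le _ (fun i => ent_nonneg _) (fun i => hBn _)).trans ?_)
  rw [← Real.sqrt_mul (Finset.sum_nonneg fun i _ => ent_nonneg _)]
  apply Real.sqrt_le_sqrt
  have h3 : ∀ k, ∑ i ∈ Finset.range k, ent G o Λ (2 * i) ≤
      ∑ t ∈ Finset.range (2 * k), ent G o Λ t := by
    intro k
    induction k with
    | zero => simp
    | succ k ih =>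
      have : 2 * (k + 1) = 2 * k + 1 + 1 := by ring
      rw [this, Finset.sum_range_succ, Finset.sum_range_succ, Finset.sum_range_succ]
      have := ent_nonneg (G := G) (o := o) (Λ := Λ) (2 * k + 1)
      linarith
  have h4 : ∀ k, ∑ i ∈ Finset.range k, B i + 2 * Ex G o Λ 0 w2 + 2 * Ex G o Λ (2 * k) w2 =
      4 * ∑ t ∈ Finset.range (2 * k + 1), Ex G o Λ t w2 := by
    intro k
    induction k with
    | zero => simp; ring
    | succ k ih =>
      have e1 : 2 * (k + 1) + 1 = 2 * k + 1 + 1 + 1 := by ring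
      have e2 : 2 * (k + 1) = 2 * k + 2 := by ring
      rw [e1, e2, Finset.sum_range_succ (fun t => Ex G o Λ t w2) (2 * k + 1 + 1),
        Finset.sum_range_succ (fun t => Ex G o Λ t w2) (2 * k + 1),
        Finset.sum_range_succ (fun i => B i) k]
      have e3 : B k = 2 * (Ex G o Λ (2 * k) w2 + 2 * Ex G o Λ (2 * k + 1) w2 +
        Ex G o Λ (2 * k + 2) w2) := rfl
      have e4 : 2 * k + 1 + 1 = 2 * k + 2 := by ring
      rw [e3, e4]
      linarith
  have h5 : ∑ i ∈ Finset.range m, B i ≤ 4 * ∑ t ∈ Finset.range (2 * m + 1), Ex G o Λ t w2 := by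
    have := h4 m; have := hExn 0; have := hExn (2 * m)
    linarith
  have h6 : ∑ i ∈ Finset.range m, ent G o Λ (2 * i) ≤ L := (h3 m).trans hL
  have h7 : 0 ≤ ∑ i ∈ Finset.range m, B i := Finset.sum_nonneg fun i _ => hBn i
  have h8 : 0 ≤ L := (Finset.sum_nonneg fun i _ => ent_nonneg _).trans hL
  calc (∑ i ∈ Finset.range m, ent G o Λ (2 * i)) * ∑ i ∈ Finset.range m, B i
      ≤ L * (4 * ∑ t ∈ Finset.range (2 * m + 1), Ex G o Λ t w2) := mul_le_mul h6 h5 h7 h8
    _ = _ := by ring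

/-- The two time slices, indexed by parity. -/
noncomputable def sl (G : SimpleGraph V) [G.LocallyFinite] (o : V) (t i : ℕ) : V → ℝ :=
  hl G o (t + i % 2)

lemma sl_mod (t i : ℕ) : sl G o t (i % 2) = sl G o t i := by simp [sl]

lemma sl_mod_succ (t i : ℕ) : sl G o t (i % 2 + 1) = sl G o t (i + 1) := by
  simp [sl, Nat.add_mod]

lemma sl_nonneg (t i : ℕ) (x : V) : 0 ≤ sl G o t i x := hl_nonneg _ _

lemma ent_sl (t i : ℕ) :
    ∑ q ∈ prs G Λ, (√(sl G o t i q.1) - √(sl G o t (i + 1) q.2)) ^ 2 = ent G o Λ t := by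
  rcases Nat.mod_two_eq_zero_or_one i with h | h
  · have h' : (i + 1) % 2 = 1 := by omega
    simp only [sl, h, h', ent, add_zero]
  · have h' : (i + 1) % 2 = 0 := by omega
    simp only [sl, h, h', ent, add_zero]
    rw [sum_prs_swap Λ (fun a b => (√(hl G o (t + 1) a) - √(hl G o t b)) ^ 2)]
    exact Finset.sum_congr rfl fun q _ => by ring

/-- `x` is bad at parity `i`: some neighbour has a much smaller value in the other slice. -/
def bad (G : SimpleGraph V) [G.LocallyFinite] (o : V) (t : ℕ) (ε : ℝ) (i : ℕ) (x : V) : Prop :=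
  ∃ y, G.Adj x y ∧ √(sl G o t (i + 1) y) < (1 - ε) * √(sl G o t i x)

open Classical in
lemma sum_bad (hconn : G.Connected) (hΛ : ∀ v, G.dist o v ≤ n → v ∈ Λ) {t : ℕ} (ht : t + 2 ≤ n)
    {ε : ℝ} (hε : 0 < ε) (i : ℕ) :
    ∑ x ∈ Λ.filter (bad G o t ε i), sl G o t i x ≤ (1 / ε ^ 2) * ent G o Λ t := by
  rw [← ent_sl t i, sum_prs Λ (fun a b => (√(sl G o t i a) - √(sl G o t (i + 1) b)) ^ 2),
    Finset.mul_sum, Finset.sum_filter]
  refine Finset.sum_le_sum fun x hx => ?_
  have hnn : ∀ w, 0 ≤ (if G.Adj x w then (√(sl G o t i x) - √(sl G o t (i + 1) w)) ^ 2 else 0) := by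
    intro w; split_ifs <;> positivity
  split_ifs with hb
  · obtain ⟨y, hadj, hy⟩ := hb
    have hs0 : 0 ≤ √(sl G o t (i + 1) y) := Real.sqrt_nonneg _
    have hx0 : 0 ≤ sl G o t i x := hl_nonneg _ _
    have hxne : sl G o t i x ≠ 0 := by
      intro h0
      rw [h0] at hy
      simp at hy
      linarith
    have hyΛ : y ∈ Λ := by
      apply hΛ
      have h1 := hl_supp hconn _ x hxne
      have h2 := hconn.dist_triangle (u := o) (v := x) (w := y)
      have h3 : G.dist x y = 1 := SimpleGraph.dist_eq_one_iff_adj.2 hadj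
      have h4 := Nat.mod_lt i (by norm_num : 0 < 2)
      omega
    have h1 : (if G.Adj x y then (√(sl G o t i x) - √(sl G o t (i + 1) y)) ^ 2 else 0) ≤
        ∑ w ∈ Λ, if G.Adj x w then (√(sl G o t i x) - √(sl G o t (i + 1) w)) ^ 2 else 0 :=
      Finset.single_le_sum (f := fun w => if G.Adj x w then
        (√(sl G o t i x) - √(sl G o t (i + 1) w)) ^ 2 else 0) (fun w _ => hnn w) hyΛ
    rw [if_pos hadj] at h1
    have h2 : ε * √(sl G o t i x) ≤ √(sl G o t i x) - √(sl G o t (i + 1) y) := by linarith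
    have h3 : (ε * √(sl G o t i x)) ^ 2 ≤ (√(sl G o t i x) - √(sl G o t (i + 1) y)) ^ 2 :=
      pow_le_pow_left₀ (by positivity) h2 2
    rw [mul_pow, Real.sq_sqrt hx0] at h3
    have h4 : sl G o t i x = (1 / ε ^ 2) * (ε ^ 2 * sl G o t i x) := by field_simp
    calc sl G o t i x = (1 / ε ^ 2) * (ε ^ 2 * sl G o t i x) := h4
      _ ≤ _ := mul_le_mul_of_nonneg_left (h3.trans h1) (by positivity)
  · exact mul_nonneg (by positivity) (Finset.sum_nonneg fun w _ => hnn w)

/-- `u` is unlucky if there is a bad point of comparable value near it. -/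
def unlucky (G : SimpleGraph V) [G.LocallyFinite] (o : V) (t : ℕ) (ε : ℝ) (R : ℕ) (u : V) : Prop :=
  ∃ i ∈ Finset.range 2, ∃ x, G.dist u x ≤ R ∧ bad G o t ε i x ∧ sl G o t 0 u ≤ 4 * sl G o t i x

open Classical in
lemma sum_unlucky (hconn : G.Connected) (hΛ : ∀ v, G.dist o v ≤ n → v ∈ Λ) {t : ℕ} (ht : t + 2 ≤ n)
    {ε : ℝ} (hε : 0 < ε) {R : ℕ} {B : ℝ}
    (hB : ∀ x, ((Λ.filter (fun u => G.dist u x ≤ R)).card : ℝ) ≤ B) :
    ∑ u ∈ Λ.filter (unlucky G o t ε R), sl G o t 0 u ≤ 8 * B * (1 / ε ^ 2) * ent G o Λ t := by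
  have hsl : ∀ i x, 0 ≤ sl G o t i x := fun i x => hl_nonneg _ _
  have hB0 : 0 ≤ B := le_trans (Nat.cast_nonneg _) (hB o)
  have h1 : ∑ u ∈ Λ.filter (unlucky G o t ε R), sl G o t 0 u ≤
      ∑ u ∈ Λ, ∑ i ∈ Finset.range 2, ∑ x ∈ Λ.filter (bad G o t ε i),
        (if G.dist u x ≤ R then 4 * sl G o t i x else 0) := by
    rw [Finset.sum_filter]
    refine Finset.sum_le_sum fun u _ => ?_
    have hnn : ∀ i x, 0 ≤ (if G.dist u x ≤ R then 4 * sl G o t i x else 0) := by
      intro i x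
      have := hsl i x
      split_ifs <;> positivity
    have hnn2 : ∀ i, 0 ≤ ∑ x ∈ Λ.filter (bad G o t ε i),
        (if G.dist u x ≤ R then 4 * sl G o t i x else 0) :=
      fun i => Finset.sum_nonneg fun x _ => hnn i x
    split_ifs with hu
    · obtain ⟨i, hi, x, hux, hbx, hle⟩ := hu
      by_cases h0 : sl G o t i x = 0
      · rw [h0, mul_zero] at hle
        exact hle.trans (Finset.sum_nonneg fun i _ => hnn2 i)
      · have hxΛ : x ∈ Λ := by
          apply hΛ
          have h1 := hl_supp hconn _ x h0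
          have h4 := Nat.mod_lt i (by norm_num : 0 < 2)
          omega
        have h2 : (if G.dist u x ≤ R then 4 * sl G o t i x else 0) ≤
            ∑ x ∈ Λ.filter (bad G o t ε i), (if G.dist u x ≤ R then 4 * sl G o t i x else 0) :=
          Finset.single_le_sum (f := fun x => if G.dist u x ≤ R then 4 * sl G o t i x else 0)
            (fun x _ => hnn i x) (Finset.mem_filter.2 ⟨hxΛ, hbx⟩)
        have h3 : ∑ x ∈ Λ.filter (bad G o t ε i), (if G.dist u x ≤ R then 4 * sl G o t i x else 0) ≤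
            ∑ i ∈ Finset.range 2, ∑ x ∈ Λ.filter (bad G o t ε i),
              (if G.dist u x ≤ R then 4 * sl G o t i x else 0) :=
          Finset.single_le_sum (f := fun i => ∑ x ∈ Λ.filter (bad G o t ε i),
            (if G.dist u x ≤ R then 4 * sl G o t i x else 0)) (fun i _ => hnn2 i) hi
        rw [if_pos hux] at h2
        exact hle.trans (h2.trans h3)
    · exact Finset.sum_nonneg fun i _ => hnn2 i
  refine h1.trans ?_
  rw [Finset.sum_comm]
  have h2 : ∀ i ∈ Finset.range 2, ∑ u ∈ Λ, ∑ x ∈ Λ.filter (bad G o t ε i),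
      (if G.dist u x ≤ R then 4 * sl G o t i x else 0) ≤ 4 * B * ((1 / ε ^ 2) * ent G o Λ t) := by
    intro i _
    rw [Finset.sum_comm]
    have h3 : ∀ x ∈ Λ.filter (bad G o t ε i), ∑ u ∈ Λ,
        (if G.dist u x ≤ R then 4 * sl G o t i x else 0) ≤ 4 * B * sl G o t i x := by
      intro x _
      rw [← Finset.sum_filter, Finset.sum_const, nsmul_eq_mul]
      have := hB x
      have := hsl i x
      nlinarith
    refine (Finset.sum_le_sum h3).trans ?_
    rw [← Finset.mul_sum]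
    exact mul_le_mul_of_nonneg_left (sum_bad hconn hΛ ht hε i) (by positivity)
  refine (Finset.sum_le_sum h2).trans (le_of_eq ?_)
  simp only [Finset.sum_const, Finset.card_range, nsmul_eq_mul]
  push_cast
  ring

omit [G.LocallyFinite] in
lemma exists_pred (hconn : G.Connected) {u x : V} {m : ℕ} (h : G.dist u x = m + 1) :
    ∃ x', G.Adj x' x ∧ G.dist u x' = m := by
  obtain ⟨p, hp⟩ := hconn.exists_walk_length_eq_dist x u
  rw [SimpleGraph.dist_comm, h] at hp
  cases p with
  | nil => simp at hp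
  | @cons _ x' _ hadj q =>
    refine ⟨x', hadj.symm, ?_⟩
    rw [SimpleGraph.Walk.length_cons] at hp
    have h1 : G.dist x' u ≤ q.length := SimpleGraph.dist_le q
    have h2 := hconn.dist_triangle (u := u) (v := x') (w := x)
    have h3 : G.dist x' x = 1 := SimpleGraph.dist_eq_one_iff_adj.2 hadj.symm
    rw [SimpleGraph.dist_comm] at h1
    omega

lemma lucky_flat (hconn : G.Connected) {t R : ℕ} (hR : 1 ≤ R) {u : V}
    (hu : ¬ unlucky G o t (1 / (2 * (R : ℝ))) R u) (x : V) (hx : G.dist u x ≤ R) :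
    sl G o t 0 u ≤ 4 * (sl G o t 0 x + sl G o t 1 x) := by
  set ε : ℝ := 1 / (2 * (R : ℝ)) with hε
  have hR0 : (1 : ℝ) ≤ R := by exact_mod_cast hR
  have hε1 : ε ≤ 1 / 2 := by
    rw [hε, div_le_div_iff₀ (by positivity) (by norm_num)]; linarith
  have hε0 : 0 < ε := by positivity
  have hpow : ∀ m : ℕ, m ≤ R → 1 / 2 ≤ (1 - ε) ^ m := by
    intro m hm
    have h1 := one_add_mul_le_pow (a := -ε) (by linarith) m
    have h2 : (m : ℝ) * ε ≤ 1 / 2 := by
      have : (m : ℝ) ≤ R := by exact_mod_cast hm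
      rw [hε, mul_one_div, div_le_div_iff₀ (by positivity) (by norm_num)]
      linarith
    have h3 : (1 : ℝ) + m * -ε = 1 - m * ε := by ring
    have h4 : (1 : ℝ) + -ε = 1 - ε := by ring
    rw [h3, h4] at h1
    linarith
  have key : ∀ m : ℕ, m ≤ R → ∀ x, G.dist u x = m →
      (1 - ε) ^ m * √(sl G o t 0 u) ≤ √(sl G o t m x) := by
    intro m
    induction m with
    | zero =>
      intro _ x hx
      rw [hconn.dist_eq_zero_iff] at hx
      rw [hx]; simp
    | succ m ih =>
      intro hm x hx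
      obtain ⟨x', hadj, hx'⟩ := exists_pred hconn hx
      have h1 := ih (by omega) x' hx'
      by_contra hlt
      push Not at hlt
      have h2 : √(sl G o t (m + 1) x) < (1 - ε) * √(sl G o t m x') := by
        refine hlt.trans_le ?_
        rw [pow_succ, mul_comm _ (1 - ε), mul_assoc]
        exact mul_le_mul_of_nonneg_left h1 (by linarith)
      apply hu
      refine ⟨m % 2, Finset.mem_range.2 (Nat.mod_lt _ (by norm_num)), x', by omega, ⟨x, hadj, ?_⟩, ?_⟩
      · rw [sl_mod_succ, sl_mod]; exact h2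
      · rw [sl_mod]
        have h3 := hpow m (by omega)
        have h4 : (1 / 2) * √(sl G o t 0 u) ≤ √(sl G o t m x') :=
          (mul_le_mul_of_nonneg_right h3 (Real.sqrt_nonneg _)).trans h1
        have h5 : ((1 / 2) * √(sl G o t 0 u)) ^ 2 ≤ √(sl G o t m x') ^ 2 :=
          pow_le_pow_left₀ (by positivity) h4 2
        rw [mul_pow, Real.sq_sqrt (sl_nonneg _ _ _), Real.sq_sqrt (sl_nonneg _ _ _)] at h5
        linarith
  have h1 := key _ hx x rfl
  have h3 := hpow _ hx
  have h4 : (1 / 2) * √(sl G o t 0 u) ≤ √(sl G o t (G.dist u x) x) :=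
    (mul_le_mul_of_nonneg_right h3 (Real.sqrt_nonneg _)).trans h1
  have h5 : ((1 / 2) * √(sl G o t 0 u)) ^ 2 ≤ √(sl G o t (G.dist u x) x) ^ 2 :=
    pow_le_pow_left₀ (by positivity) h4 2
  rw [mul_pow, Real.sq_sqrt (sl_nonneg _ _ _), Real.sq_sqrt (sl_nonneg _ _ _)] at h5
  have h6 : sl G o t (G.dist u x) x ≤ sl G o t 0 x + sl G o t 1 x := by
    have e0 : 0 ≤ sl G o t 0 x := hl_nonneg _ _
    have e1 : 0 ≤ sl G o t 1 x := hl_nonneg _ _
    rcases Nat.mod_two_eq_zero_or_one (G.dist u x) with h | h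
    · have : sl G o t (G.dist u x) = sl G o t 0 := by rw [← sl_mod, h]
      rw [this]; linarith
    · have : sl G o t (G.dist u x) = sl G o t 1 := by rw [← sl_mod, h]
      rw [this]; linarith
  linarith

open Classical in
lemma weight_bound (hconn : G.Connected) (hdeg : ∀ v, 0 < G.degree v)
    (hΛ : ∀ v, G.dist o v ≤ n → v ∈ Λ) {t : ℕ} (ht : t + 2 ≤ n) {Δ : ℝ}
    (hΔ : ∀ v, (G.degree v : ℝ) ≤ Δ) {W : V → ℕ} {f : V → V} {cell : V → Finset V}
    (hcell : ∀ x v, v ∈ cell x ↔ f v = x) {r : ℕ} (hr : 1 ≤ r) (hf : ∀ v, G.dist v (f v) ≤ r)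
    {Am Wm B : ℝ} (hAm : 0 ≤ Am)
    (harea : ∀ x, ∑ v ∈ cell x, (W v : ℝ) ^ 2 ≤ Am * ((cell x).card : ℝ))
    (hWm : ∀ v, (W v : ℝ) ≤ Wm)
    (hB : ∀ x, ((Λ.filter (fun u => G.dist u x ≤ 2 * r)).card : ℝ) ≤ B) :
    Ex G o Λ t (fun v => (W v : ℝ) ^ 2) ≤
      Δ * (8 * Am + Wm ^ 2 * (8 * B * (16 * (r : ℝ) ^ 2) * ent G o Λ t)) := by
  have hΔ0 : 0 ≤ Δ := le_trans (Nat.cast_nonneg _) (hΔ o)
  set ε : ℝ := 1 / (2 * ((2 * r : ℕ) : ℝ)) with hε
  have hr0 : (1 : ℝ) ≤ r := by exact_mod_cast hr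
  have hε0 : 0 < ε := by rw [hε]; push_cast; positivity
  have hε2 : 1 / ε ^ 2 = 16 * (r : ℝ) ^ 2 := by
    rw [hε]; push_cast; field_simp; ring
  have hn := fun u => hl_nonneg (G := G) (o := o) t u
  have h1 : Ex G o Λ t (fun v => (W v : ℝ) ^ 2) ≤ Δ * ∑ u ∈ Λ, hl G o t u * (W u : ℝ) ^ 2 := by
    rw [Ex, Finset.mul_sum]
    refine Finset.sum_le_sum fun u _ => ?_
    rw [mul_assoc]
    exact mul_le_mul_of_nonneg_right (hΔ u) (mul_nonneg (hn u) (sq_nonneg _))
  refine h1.trans (mul_le_mul_of_nonneg_left ?_ hΔ0)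
  rw [← Finset.sum_filter_add_sum_filter_not Λ (unlucky G o t ε (2 * r)), add_comm]
  apply add_le_add
  · -- lucky part
    set S : V → ℝ := fun z => ∑ x ∈ cell z, (sl G o t 0 x + sl G o t 1 x) with hS
    have hS0 : ∀ z, 0 ≤ S z := fun z => Finset.sum_nonneg fun x _ =>
      add_nonneg (sl_nonneg _ _ _) (sl_nonneg _ _ _)
    have hcne : ∀ u, (0 : ℝ) < ((cell (f u)).card : ℝ) := fun u => by
      have : 0 < (cell (f u)).card := Finset.card_pos.2 ⟨u, (hcell _ _).2 rfl⟩
      exact_mod_cast this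
    have e1 : ∀ u ∈ Λ.filter (fun u => ¬ unlucky G o t ε (2 * r) u),
        hl G o t u * (W u : ℝ) ^ 2 ≤ 4 / ((cell (f u)).card : ℝ) * S (f u) * (W u : ℝ) ^ 2 := by
      intro u hu
      have hu' := (Finset.mem_filter.1 hu).2
      apply mul_le_mul_of_nonneg_right _ (sq_nonneg _)
      have e2 : ∀ x ∈ cell (f u), hl G o t u ≤ 4 * (sl G o t 0 x + sl G o t 1 x) := by
        intro x hx
        rw [hcell] at hx
        have h := lucky_flat hconn (R := 2 * r) (by omega) hu' x (by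
          have i1 := hf u
          have i2 := hf x
          rw [hx] at i2
          have i3 := hconn.dist_triangle (u := u) (v := f u) (w := x)
          rw [SimpleGraph.dist_comm] at i2
          omega)
        exact h
      have e3 := Finset.sum_le_sum e2
      rw [Finset.sum_const, nsmul_eq_mul, ← Finset.mul_sum] at e3
      rw [div_mul_eq_mul_div, le_div_iff₀ (hcne u), mul_comm]
      exact e3
    have e4 : ∑ u ∈ Λ.filter (fun u => ¬ unlucky G o t ε (2 * r) u), hl G o t u * (W u : ℝ) ^ 2 ≤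
        ∑ u ∈ Λ, 4 / ((cell (f u)).card : ℝ) * S (f u) * (W u : ℝ) ^ 2 := by
      refine (Finset.sum_le_sum e1).trans ?_
      apply Finset.sum_le_sum_of_subset_of_nonneg (Finset.filter_subset _ _)
      intro u _ _
      exact mul_nonneg (mul_nonneg (by positivity) (hS0 _)) (sq_nonneg _)
    refine e4.trans ?_
    rw [← Finset.sum_fiberwise_of_maps_to (s := Λ) (t := Λ.image f) (g := f)
        (fun v hv => Finset.mem_image_of_mem _ hv)]
    have e5 : ∀ z ∈ Λ.image f, ∑ u ∈ Λ.filter (fun u => f u = z),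
        4 / ((cell (f u)).card : ℝ) * S (f u) * (W u : ℝ) ^ 2 ≤ 4 * Am * S z := by
      intro z hz
      obtain ⟨u0, -, rfl⟩ := Finset.mem_image.1 hz
      have e6 : ∑ u ∈ Λ.filter (fun u => f u = f u0),
          4 / ((cell (f u)).card : ℝ) * S (f u) * (W u : ℝ) ^ 2 ≤
          ∑ u ∈ cell (f u0), 4 / ((cell (f u0)).card : ℝ) * S (f u0) * (W u : ℝ) ^ 2 := by
        have e7 : ∑ u ∈ Λ.filter (fun u => f u = f u0),
          4 / ((cell (f u)).card : ℝ) * S (f u) * (W u : ℝ) ^ 2 =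
          ∑ u ∈ Λ.filter (fun u => f u = f u0),
            4 / ((cell (f u0)).card : ℝ) * S (f u0) * (W u : ℝ) ^ 2 := by
          refine Finset.sum_congr rfl fun u hu => ?_
          rw [(Finset.mem_filter.1 hu).2]
        rw [e7]
        apply Finset.sum_le_sum_of_subset_of_nonneg
        · intro u hu
          rw [hcell]; exact (Finset.mem_filter.1 hu).2
        · intro u _ _
          exact mul_nonneg (mul_nonneg (by positivity) (hS0 _)) (sq_nonneg _)
      refine e6.trans ?_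
      rw [← Finset.mul_sum]
      have e8 := harea (f u0)
      have hc0 := hcne u0
      calc 4 / ((cell (f u0)).card : ℝ) * S (f u0) * ∑ u ∈ cell (f u0), (W u : ℝ) ^ 2
          ≤ 4 / ((cell (f u0)).card : ℝ) * S (f u0) * (Am * ((cell (f u0)).card : ℝ)) :=
            mul_le_mul_of_nonneg_left e8 (mul_nonneg (by positivity) (hS0 _))
        _ = 4 * Am * S (f u0) := by field_simp
    refine (Finset.sum_le_sum e5).trans ?_
    rw [← Finset.mul_sum]
    have e9 : ∑ z ∈ Λ.image f, S z ≤ 2 := by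
      simp only [hS]
      rw [← Finset.sum_biUnion]
      · have e10 : ∑ x ∈ (Λ.image f).biUnion cell, (sl G o t 0 x + sl G o t 1 x) ≤
            ∑ x ∈ Λ, (sl G o t 0 x + sl G o t 1 x) := by
          rw [← Finset.sum_filter_add_sum_filter_not ((Λ.image f).biUnion cell) (· ∈ Λ)]
          have e11 : ∑ x ∈ ((Λ.image f).biUnion cell).filter (fun x => ¬ x ∈ Λ),
              (sl G o t 0 x + sl G o t 1 x) = 0 := by
            apply Finset.sum_eq_zero
            intro x hx
            have hx' := (Finset.mem_filter.1 hx).2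
            have z0 : sl G o t 0 x = 0 := by
              by_contra h
              exact hx' (hΛ x ((hl_supp hconn _ x h).trans (by omega)))
            have z1 : sl G o t 1 x = 0 := by
              by_contra h
              exact hx' (hΛ x ((hl_supp hconn _ x h).trans (by omega)))
            rw [z0, z1, add_zero]
          rw [e11, add_zero]
          apply Finset.sum_le_sum_of_subset_of_nonneg
          · intro x hx; exact (Finset.mem_filter.1 hx).2
          · intro x _ _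
            exact add_nonneg (sl_nonneg _ _ _) (sl_nonneg _ _ _)
        refine e10.trans ?_
        have e12 : ∑ x ∈ Λ, (sl G o t 0 x + sl G o t 1 x) ≤
            Ex G o Λ t (fun _ => 1) + Ex G o Λ (t + 1) (fun _ => 1) := by
          rw [Ex, Ex, ← Finset.sum_add_distrib]
          refine Finset.sum_le_sum fun x _ => ?_
          have hd : (1 : ℝ) ≤ G.degree x := by exact_mod_cast hdeg x
          have i0 : sl G o t 0 x = hl G o t x := rfl
          have i1 : sl G o t 1 x = hl G o (t + 1) x := rfl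
          rw [i0, i1]
          have j0 := hn x
          have j1 := hl_nonneg (G := G) (o := o) (t + 1) x
          nlinarith
        refine e12.trans ?_
        rw [Ex_one hconn hdeg hΛ (by omega), Ex_one hconn hdeg hΛ (by omega)]
        norm_num
      · intro z _ z' _ hzz
        rw [Function.onFun, Finset.disjoint_left]
        intro x hx hx'
        rw [hcell] at hx hx'
        exact hzz (hx.symm.trans hx')
    nlinarith
  · -- unlucky part
    have u1 := sum_unlucky hconn hΛ ht hε0 (R := 2 * r) hB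
    have u2 : ∑ u ∈ Λ.filter (unlucky G o t ε (2 * r)), hl G o t u * (W u : ℝ) ^ 2 ≤
        ∑ u ∈ Λ.filter (unlucky G o t ε (2 * r)), Wm ^ 2 * sl G o t 0 u := by
      refine Finset.sum_le_sum fun u _ => ?_
      have i0 : sl G o t 0 u = hl G o t u := rfl
      rw [i0, mul_comm]
      apply mul_le_mul_of_nonneg_right _ (hn u)
      exact pow_le_pow_left₀ (Nat.cast_nonneg _) (hWm u) 2
    refine u2.trans ?_
    rw [← Finset.mul_sum]
    apply mul_le_mul_of_nonneg_left _ (sq_nonneg _)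
    rw [hε2] at u1
    exact u1

end Pool.Agent.Lib.MP_2ce0dd_pr
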