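import Mathlib
import Pool.Agent.Lib.MP_2ce0dd_pr.Weight
import Pool.Agent.Lib.MP_2ce0dd_pr.Flat

set_option autoImplicit false

/-!
The finite-scale displacement bound.
-/

namespace Pool.Agent.Lib.MP_2ce0dd_pr

variable {V : Type*} {G : SimpleGraph V}

lemma exists_potential (hconn : G.Connected) (W : V → ℕ) (o : V) :
    ∃ φ : V → ℕ, φ o = 0 ∧ (∀ v, ∃ p : G.Walk o v, wlen W p = φ v) ∧
      ∀ u w, G.Adj u w → φ w ≤ φ u + W u := by
  classical
  have hex : ∀ v, ∃ n, ∃ p : G.Walk o v, wlen W p = n := fun v => by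
    obtain ⟨p⟩ := hconn.preconnected o v
    exact ⟨_, p, rfl⟩
  refine ⟨fun v => Nat.find (hex v), ?_, fun v => Nat.find_spec (hex v), ?_⟩
  · have : Nat.find (hex o) ≤ 0 := Nat.find_min' (hex o) ⟨SimpleGraph.Walk.nil, rfl⟩
    simpa using this
  · intro u w h
    obtain ⟨p, hp⟩ := Nat.find_spec (hex u)
    apply Nat.find_min' (hex w)
    refine ⟨p.append (SimpleGraph.Walk.cons h SimpleGraph.Walk.nil), ?_⟩
    rw [wlen_append, hp]
    simp

theorem main_bound [G.LocallyFinite] {d c C : ℝ} (hG : Growth G d c C) (hc : 0 < c) (hC : 0 < C)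
    (hd : 0 ≤ d) (hK : ¬ HasK33Minor G) (hdeg : ∀ v, 0 < G.degree v) {Δ : ℝ}
    (hΔ : ∀ v, (G.degree v : ℝ) ≤ Δ) (o : V) (b : ℕ) (hb : 3 ≤ b) (k m : ℕ) (Λ : Finset V)
    (hΛ : ∀ v, G.dist o v ≤ 2 * m + 2 → v ∈ Λ) :
    Ex G o Λ (2 * m) (fun v => (G.dist o v : ℝ)) ≤
      ((24 * b : ℕ) : ℝ) ^ k + (((24 * b : ℕ) : ℝ) / ((24 * b + 1 : ℕ) : ℝ)) ^ k *
        √(4 * Real.log (∑ v ∈ Λ, (G.degree v : ℝ)) *
          (Δ * (8 * (1 + 3 * kap d c C b) ^ k * (2 * m + 1) +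
            4 ^ k * (8 * (C * (5 * ((24 * b : ℕ) : ℝ) ^ k) ^ d) *
              (64 * (((24 * b : ℕ) : ℝ) ^ k) ^ 2)) *
              Real.log (∑ v ∈ Λ, (G.degree v : ℝ))))) := by
  classical
  set β : ℕ := 24 * b with hβ
  set κ := kap d c C b with hκ
  set L := Real.log (∑ v ∈ Λ, (G.degree v : ℝ)) with hL
  obtain ⟨W, f, cell, hW1, hW2, hf, hcell, harea, hlen⟩ := exists_weight hG hc hC.le hd hK b hb k
  obtain ⟨φ, hφo, hφp, hφW⟩ := exists_potential hG.conn W o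
  have hβ0 : (0 : ℝ) < β := by
    have : 0 < β := by omega
    exact_mod_cast this
  have hκ0 : 0 ≤ κ := by rw [hκ]; unfold kap; positivity
  -- comparison of distances
  have hcomp : ∀ v, (G.dist o v : ℝ) ≤ (β : ℝ) ^ k * 1 +
      ((β : ℝ) / ((β + 1 : ℕ) : ℝ)) ^ k * (φ v : ℝ) := by
    intro v
    obtain ⟨p, hp⟩ := hφp v
    have hDpos : 0 < β ^ k := by positivity
    have h1 := greedy hG.conn (W := W) (D := β ^ k) (ℓ := (β + 1) ^ k) hlen
      (G.dist o v / β ^ k) o v p (Nat.div_mul_le_self _ _)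
    rw [hp] at h1
    have h2 := Nat.lt_div_mul_add (a := G.dist o v) hDpos
    set q := G.dist o v / β ^ k with hq
    have h1' : (q : ℝ) * ((β + 1 : ℕ) : ℝ) ^ k ≤ (φ v : ℝ) := by exact_mod_cast h1
    have h2' : (G.dist o v : ℝ) ≤ (q : ℝ) * (β : ℝ) ^ k + (β : ℝ) ^ k := by exact_mod_cast h2.le
    have h3 : (0 : ℝ) < ((β + 1 : ℕ) : ℝ) ^ k := by positivity
    have h4 : (q : ℝ) * (β : ℝ) ^ k ≤ ((β : ℝ) / ((β + 1 : ℕ) : ℝ)) ^ k * (φ v : ℝ) := by
      rw [div_pow, div_mul_eq_mul_div, le_div_iff₀ h3]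
      calc (q : ℝ) * (β : ℝ) ^ k * ((β + 1 : ℕ) : ℝ) ^ k
          = (β : ℝ) ^ k * ((q : ℝ) * ((β + 1 : ℕ) : ℝ) ^ k) := by ring
        _ ≤ (β : ℝ) ^ k * (φ v : ℝ) := mul_le_mul_of_nonneg_left h1' (by positivity)
    linarith
  have hExmono : ∀ g g' : V → ℝ, (∀ v, g v ≤ g' v) → Ex G o Λ (2 * m) g ≤ Ex G o Λ (2 * m) g' := by
    intro g g' h
    refine Finset.sum_le_sum fun v _ => ?_
    exact mul_le_mul_of_nonneg_left (h v) (mul_nonneg (by positivity) (hl_nonneg _ _))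
  have h1 : Ex G o Λ (2 * m) (fun v => (G.dist o v : ℝ)) ≤ (β : ℝ) ^ k +
      ((β : ℝ) / ((β + 1 : ℕ) : ℝ)) ^ k * Ex G o Λ (2 * m) (fun v => (φ v : ℝ)) := by
    refine (hExmono _ _ hcomp).trans (le_of_eq ?_)
    have h2 : Ex G o Λ (2 * m) (fun v => (β : ℝ) ^ k * 1 +
        ((β : ℝ) / ((β + 1 : ℕ) : ℝ)) ^ k * (φ v : ℝ)) =
        (β : ℝ) ^ k * Ex G o Λ (2 * m) (fun _ => 1) +
        ((β : ℝ) / ((β + 1 : ℕ) : ℝ)) ^ k * Ex G o Λ (2 * m) (fun v => (φ v : ℝ)) := by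
      rw [Ex, Ex, Ex, Finset.mul_sum, Finset.mul_sum, ← Finset.sum_add_distrib]
      exact Finset.sum_congr rfl fun v _ => by ring
    rw [h2, Ex_one hG.conn hdeg hΛ (by omega), mul_one]
  refine h1.trans ?_
  rw [add_le_add_iff_left]
  apply mul_le_mul_of_nonneg_left _ (by positivity)
  -- displacement in the weighted metric
  have hstep : ∀ u w, G.Adj u w → ((φ w : ℝ) - (φ u : ℝ)) ^ 2 ≤ (W u : ℝ) ^ 2 + (W w : ℝ) ^ 2 := by
    intro u w h
    have a1 : (φ w : ℝ) ≤ φ u + W u := by exact_mod_cast hφW u w h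
    have a2 : (φ u : ℝ) ≤ φ w + W w := by exact_mod_cast hφW w u h.symm
    have a3 : (0 : ℝ) ≤ W u := Nat.cast_nonneg _
    have a4 : (0 : ℝ) ≤ W w := Nat.cast_nonneg _
    rcases le_total (φ u : ℝ) (φ w : ℝ) with h5 | h5
    · nlinarith
    · nlinarith
  have hent : ∑ t ∈ Finset.range (2 * m + 1), ent G o Λ t ≤ L :=
    sum_ent_le hG.conn hdeg hΛ (by omega)
  have hent' : ∑ t ∈ Finset.range (2 * m), ent G o Λ t ≤ L := by
    refine le_trans ?_ hent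
    rw [Finset.sum_range_succ]
    have := ent_nonneg (G := G) (o := o) (Λ := Λ) (2 * m)
    linarith
  have hdisp := displacement hG.conn hdeg hΛ (m := m) (by omega) (fun v => (φ v : ℝ))
    (fun v => (W v : ℝ) ^ 2) (fun v => sq_nonneg _) hstep hent'
  have hE0 : Ex G o Λ 0 (fun v => (φ v : ℝ)) = 0 := by
    rw [Ex]
    apply Finset.sum_eq_zero
    intro v _
    by_cases hv : v = o
    · rw [hv, hφo]; simp
    · simp [hl, hv]
  rw [hE0, sub_zero] at hdisp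
  refine hdisp.trans (Real.sqrt_le_sqrt ?_)
  have hL0 : 0 ≤ L := (Finset.sum_nonneg fun i _ => ent_nonneg _).trans hent
  apply mul_le_mul_of_nonneg_left _ (by positivity)
  -- bound on the sum of the weights
  set B : ℝ := C * (5 * (β : ℝ) ^ k) ^ d with hB
  have hβk : (1 : ℝ) ≤ (β : ℝ) ^ k := by
    have : 1 ≤ β ^ k := Nat.one_le_pow _ _ (by omega)
    exact_mod_cast this
  have hBb : ∀ x, ((Λ.filter (fun u => G.dist u x ≤ 2 * (2 * β ^ k))).card : ℝ) ≤ B := by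
    intro x
    have h2 : (Λ.filter (fun u => G.dist u x ≤ 2 * (2 * β ^ k))).card ≤
        (gball G x (4 * β ^ k)).ncard := by
      rw [Set.ncard_eq_toFinset_card _ (hG.fin x _)]
      apply Finset.card_le_card
      intro u hu
      rw [Set.Finite.mem_toFinset]
      show G.dist x u ≤ 4 * β ^ k
      rw [SimpleGraph.dist_comm]
      have := (Finset.mem_filter.1 hu).2
      omega
    calc ((Λ.filter (fun u => G.dist u x ≤ 2 * (2 * β ^ k))).card : ℝ)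
        ≤ ((gball G x (4 * β ^ k)).ncard : ℝ) := by exact_mod_cast h2
      _ ≤ C * (((4 * β ^ k : ℕ) : ℝ) + 1) ^ d := hG.up x _
      _ ≤ B := by
          apply mul_le_mul_of_nonneg_left _ hC.le
          apply Real.rpow_le_rpow (by positivity) _ hd
          push_cast
          linarith
  have hwb : ∀ t ∈ Finset.range (2 * m + 1), Ex G o Λ t (fun v => (W v : ℝ) ^ 2) ≤
      Δ * (8 * (1 + 3 * κ) ^ k + (2 ^ k) ^ 2 * (8 * B * (16 * ((2 * β ^ k : ℕ) : ℝ) ^ 2) *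
        ent G o Λ t)) := by
    intro t ht
    have ht' := Finset.mem_range.1 ht
    exact weight_bound hG.conn hdeg hΛ (t := t) (by omega) hΔ hcell (r := 2 * β ^ k)
      (by have : 1 ≤ β ^ k := Nat.one_le_pow _ _ (by omega)
          omega) hf (by positivity) harea (fun v => by exact_mod_cast hW2 v) hBb
  refine (Finset.sum_le_sum hwb).trans ?_
  have hΔ0 : 0 ≤ Δ := le_trans (Nat.cast_nonneg _) (hΔ o)
  have h9 : ∑ t ∈ Finset.range (2 * m + 1), Δ * (8 * (1 + 3 * κ) ^ k +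
      (2 ^ k) ^ 2 * (8 * B * (16 * ((2 * β ^ k : ℕ) : ℝ) ^ 2) * ent G o Λ t)) =
      Δ * (8 * (1 + 3 * κ) ^ k * (2 * m + 1) + (2 ^ k) ^ 2 *
        (8 * B * (16 * ((2 * β ^ k : ℕ) : ℝ) ^ 2)) *
        ∑ t ∈ Finset.range (2 * m + 1), ent G o Λ t) := by
    rw [← Finset.mul_sum, Finset.sum_add_distrib, Finset.sum_const, Finset.card_range,
      nsmul_eq_mul]
    congr 1
    push_cast
    have : ∑ i ∈ Finset.range (2 * m + 1), (2 ^ k) ^ 2 * (8 * B * (16 * (2 * (β : ℝ) ^ k) ^ 2) *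
        ent G o Λ i) = (2 ^ k) ^ 2 * (8 * B * (16 * (2 * (β : ℝ) ^ k) ^ 2)) *
        ∑ t ∈ Finset.range (2 * m + 1), ent G o Λ t := by
      rw [Finset.mul_sum]
      exact Finset.sum_congr rfl fun i _ => by ring
    rw [this]
    ring
  rw [h9]
  apply mul_le_mul_of_nonneg_left _ hΔ0
  have h10 : ((2 : ℝ) ^ k) ^ 2 = 4 ^ k := by rw [← pow_mul, mul_comm, pow_mul]; norm_num
  rw [h10]
  push_cast
  have h11 : (16 : ℝ) * (2 * (β : ℝ) ^ k) ^ 2 = 64 * ((β : ℝ) ^ k) ^ 2 := by ring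
  rw [h11]
  have h12 : 0 ≤ (4 : ℝ) ^ k * (8 * B * (64 * ((β : ℝ) ^ k) ^ 2)) := by
    have : 0 ≤ B := by rw [hB]; positivity
    positivity
  have h13 := mul_le_mul_of_nonneg_left hent h12
  have h14 : (β : ℝ) = 24 * (b : ℝ) := by rw [hβ]; push_cast; ring
  linarith

end Pool.Agent.Lib.MP_2ce0dd_pr
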