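import Mathlib
import Pool.Agent.Lib.MP_2ce0dd_pr.Cuts

set_option autoImplicit false

/-!
`K_{3,3}` cannot be drawn in the plane: in every continuous drawing two independent edges meet.
Consequently a graph with a topological drawing in the plane has no `K_{3,3}` minor.
-/

namespace Pool.Agent.Lib.MP_2ce0dd_pr

open Complex

lemma exists_log {A : Type*} [TopologicalSpace A] [SimplyConnectedSpace A]
    [LocallyPathConnectedSpace A] (F : A → ℂ) (hF : Continuous F) (h0 : ∀ a, F a ≠ 0) :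
    ∃ g : A → ℂ, Continuous g ∧ ∀ a, exp (g a) = F a := by
  obtain ⟨a₀⟩ : Nonempty A := inferInstance
  obtain ⟨g, ⟨-, hg⟩, -⟩ := Complex.isCoveringMapOn_exp.existsUnique_continuousMap_lifts
    (⟨F, hF⟩ : C(A, ℂ)) (a₀ := a₀) (e₀ := Complex.log (F a₀))
    (by simpa using Complex.exp_log (h0 a₀)) (fun a => h0 a)
  exact ⟨g, g.continuous, fun a => congrFun hg a⟩

/-- A continuous function on the line with `exp` constantly `1` is constant. -/
lemma const_of_exp_eq_one (h : ℝ → ℂ) (hc : Continuous h) (h1 : ∀ s, exp (h s) = 1) (s t : ℝ) :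
    h s = h t := by
  have hne : (2 * (Real.pi : ℂ) * I) ≠ 0 := by simp [Real.pi_ne_zero]
  have hint : ∀ s, ∃ n : ℤ, h s = n * (2 * Real.pi * I) := fun s => exp_eq_one_iff.1 (h1 s)
  -- the function s ↦ re (h s / (2 π i)) is continuous and integer valued
  set k : ℝ → ℝ := fun s => (h s / (2 * Real.pi * I)).re with hk
  have hkc : Continuous k := Complex.continuous_re.comp (hc.div_const _)
  have hkint : ∀ s, ∃ n : ℤ, k s = n ∧ h s = n * (2 * Real.pi * I) := by
    intro s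
    obtain ⟨n, hn⟩ := hint s
    refine ⟨n, ?_, hn⟩
    simp only [hk, hn]
    rw [mul_div_assoc, div_self hne]
    simp
  have hconst : ∀ s t, k s = k t := by
    intro s t
    have hpre : IsPreconnected (Set.range k) := isPreconnected_range hkc
    have hsub : Set.range k ⊆ Set.range ((↑) : ℤ → ℝ) := by
      rintro _ ⟨u, rfl⟩
      obtain ⟨n, hn, -⟩ := hkint u
      exact ⟨n, hn.symm⟩
    have hdisc : (Set.range k).Subsingleton := by
      intro x hx y hy
      by_contra hxy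
      wlog hlt : x < y generalizing x y with H
      · exact H hy hx (Ne.symm hxy) (lt_of_le_of_ne (not_lt.1 hlt) (Ne.symm hxy))
      obtain ⟨m, hm⟩ := hsub hx
      have hlt' : x < x + 1 / 2 := by linarith
      obtain ⟨n, hn⟩ := hsub hy
      have hmn : (m : ℝ) < n := by rw [hm, hn]; exact hlt
      have hmn' : m + 1 ≤ n := by exact_mod_cast hmn
      have hmn'' : (m : ℝ) + 1 ≤ n := by exact_mod_cast hmn'
      have hmem : x + 1 / 2 ∈ Set.Icc x y := ⟨by linarith, by rw [← hm, ← hn]; linarith⟩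
      have h2 := hpre.Icc_subset hx hy hmem
      obtain ⟨l, hl⟩ := hsub h2
      rw [← hm] at hl
      have h3 : (2 * l : ℝ) = 2 * m + 1 := by linarith
      have h4 : 2 * l = 2 * m + 1 := by exact_mod_cast h3
      omega
    exact hdisc ⟨s, rfl⟩ ⟨t, rfl⟩
  obtain ⟨n, hn, hn'⟩ := hkint s
  obtain ⟨m, hm, hm'⟩ := hkint t
  have : (n : ℝ) = m := by rw [← hn, ← hm]; exact hconst s t
  have : n = m := by exact_mod_cast this
  rw [hn', hm', this]

/-- Increment of a continuous logarithm. -/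
lemma exists_increment (α : ℝ → ℂ) (hα : Continuous α) (c : ℂ) (hc : ∀ s, α s ≠ c) :
    ∃ L : ℂ, ∀ g : ℝ → ℂ, Continuous g → (∀ s, exp (g s) = α s - c) → g 1 - g 0 = L := by
  obtain ⟨g0, hg0, he0⟩ := exists_log (fun s => α s - c) (hα.sub continuous_const)
    (fun s => sub_ne_zero.2 (hc s))
  refine ⟨g0 1 - g0 0, ?_⟩
  intro g hg he
  have h1 := const_of_exp_eq_one (fun s => g s - g0 s) (hg.sub hg0) (by
    intro s
    rw [exp_sub, he, he0, div_self (sub_ne_zero.2 (hc s))]) 1 0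
  have h2 : g 1 - g0 1 = g 0 - g0 0 := h1
  linear_combination h2

lemma exists_increment' (α : ℝ → ℂ) (hα : Continuous α) (c : ℂ) (hc : ∀ s, α s ≠ c) :
    ∃ n : ℤ, ∀ g : ℝ → ℂ, Continuous g → (∀ s, exp (g s) = α s - c) →
      g 1 - g 0 = log (α 1 - c) - log (α 0 - c) + n * (2 * Real.pi * I) := by
  obtain ⟨L, hL⟩ := exists_increment α hα c hc
  obtain ⟨g0, hg0, he0⟩ := exists_log (fun s => α s - c) (hα.sub continuous_const)
    (fun s => sub_ne_zero.2 (hc s))
  have h0 := hL g0 hg0 he0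
  have h1 : exp (g0 1 - g0 0 - (log (α 1 - c) - log (α 0 - c))) = 1 := by
    rw [exp_sub, exp_sub, exp_sub, he0, he0, exp_log (sub_ne_zero.2 (hc 1)),
      exp_log (sub_ne_zero.2 (hc 0)), div_self]
    exact div_ne_zero (sub_ne_zero.2 (hc 1)) (sub_ne_zero.2 (hc 0))
  obtain ⟨n, hn⟩ := exp_eq_one_iff.1 h1
  refine ⟨n, ?_⟩
  intro g hg he
  rw [hL g hg he, ← h0]
  linear_combination hn

/-- The half-turn integer. -/
lemma exists_tau (z : ℂ) (hz : z ≠ 0) : ∃ n : ℤ, log z - log (-z) = Real.pi * I + n * (2 * Real.pi * I) := by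
  have h1 : exp (log z - log (-z) - Real.pi * I) = 1 := by
    rw [exp_sub, exp_sub, exp_log hz, exp_log (neg_ne_zero.2 hz), exp_pi_mul_I]
    field_simp
  obtain ⟨n, hn⟩ := exp_eq_one_iff.1 h1
  exact ⟨n, by linear_combination hn⟩

/-- In every continuous drawing of `K_{3,3}` some two independent edges meet. -/
theorem no_K33_drawing (A B : Fin 3 → ℂ) (α : Fin 3 → Fin 3 → ℝ → ℂ)
    (hc : ∀ i j, Continuous (α i j)) (h0 : ∀ i j, α i j 0 = A i) (h1 : ∀ i j, α i j 1 = B j)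
    (hd : ∀ i j k l, i ≠ k → j ≠ l → ∀ s t, α i j s ≠ α k l t) : False := by
  have hne : (2 * (Real.pi : ℂ) * I) ≠ 0 := by simp [Real.pi_ne_zero]
  have hαA : ∀ i j k, i ≠ k → ∀ s, α i j s ≠ A k := by
    intro i j k hik s
    obtain ⟨l, hl⟩ := exists_ne j
    rw [← h0 k l]
    exact hd i j k l hik hl.symm s 0
  have hαB : ∀ i j l, j ≠ l → ∀ s, α i j s ≠ B l := by
    intro i j l hjl s
    obtain ⟨k, hk⟩ := exists_ne i
    rw [← h1 k l]
    exact hd i j k l hk.symm hjl s 1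
  have hAA : ∀ i k, i ≠ k → A i ≠ A k := fun i k hik => by
    have := hαA i 0 k hik 0
    rwa [h0] at this
  have hBB : ∀ j l, j ≠ l → B j ≠ B l := fun j l hjl => by
    have := hαB 0 j l hjl 1
    rwa [h1] at this
  have hAB : ∀ i l, A i ≠ B l := fun i l => by
    obtain ⟨j, hj⟩ := exists_ne l
    have := hαB i j l hj 0
    rwa [h0] at this
  have hx : ∀ i j k, ∃ n : ℤ, i ≠ k → ∀ g : ℝ → ℂ, Continuous g →
      (∀ s, exp (g s) = α i j s - A k) →
      g 1 - g 0 = log (B j - A k) - log (A i - A k) + n * (2 * Real.pi * I) := by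
    intro i j k
    by_cases hik : i = k
    · exact ⟨0, fun h => absurd hik h⟩
    · obtain ⟨n, hn⟩ := exists_increment' (α i j) (hc i j) (A k) (hαA i j k hik)
      rw [h0, h1] at hn
      exact ⟨n, fun _ => hn⟩
  have hy : ∀ i j l, ∃ n : ℤ, j ≠ l → ∀ g : ℝ → ℂ, Continuous g →
      (∀ s, exp (g s) = α i j s - B l) →
      g 1 - g 0 = log (B j - B l) - log (A i - B l) + n * (2 * Real.pi * I) := by
    intro i j l
    by_cases hjl : j = l
    · exact ⟨0, fun h => absurd hjl h⟩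
    · obtain ⟨n, hn⟩ := exists_increment' (α i j) (hc i j) (B l) (hαB i j l hjl)
      rw [h0, h1] at hn
      exact ⟨n, fun _ => hn⟩
  have hp : ∀ i k, ∃ n : ℤ, i ≠ k →
      log (A i - A k) - log (A k - A i) = Real.pi * I + n * (2 * Real.pi * I) := by
    intro i k
    by_cases hik : i = k
    · exact ⟨0, fun h => absurd hik h⟩
    · obtain ⟨n, hn⟩ := exists_tau (A i - A k) (sub_ne_zero.2 (hAA i k hik))
      rw [neg_sub] at hn
      exact ⟨n, fun _ => hn⟩
  have hq : ∀ i k, ∃ n : ℤ, i ≠ k →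
      log (B i - B k) - log (B k - B i) = Real.pi * I + n * (2 * Real.pi * I) := by
    intro i k
    by_cases hik : i = k
    · exact ⟨0, fun h => absurd hik h⟩
    · obtain ⟨n, hn⟩ := exists_tau (B i - B k) (sub_ne_zero.2 (hBB i k hik))
      rw [neg_sub] at hn
      exact ⟨n, fun _ => hn⟩
  have hr : ∀ i k, ∃ n : ℤ,
      log (A i - B k) - log (B k - A i) = Real.pi * I + n * (2 * Real.pi * I) := by
    intro i k
    obtain ⟨n, hn⟩ := exists_tau (A i - B k) (sub_ne_zero.2 (hAB i k))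
    rw [neg_sub] at hn
    exact ⟨n, hn⟩
  choose x hx using hx
  choose y hy using hy
  choose p hp using hp
  choose q hq using hq
  choose r hr using hr
  have hqq : ∀ j l, j ≠ l → q j l + q l j + 1 = 0 := by
    intro j l hjl
    have e1 := hq j l hjl
    have e2 := hq l j hjl.symm
    have e3 : ((q j l + q l j + 1 : ℤ) : ℂ) * (2 * Real.pi * I) = 0 := by
      push_cast
      linear_combination -e1 - e2
    rcases mul_eq_zero.1 e3 with h | h
    · exact_mod_cast h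
    · exact absurd h hne
  have hE : ∀ i j k l, i ≠ k → j ≠ l →
      -1 - r k j - p i k - q j l + r i l + x i j k - y i j l + y k l j - x k l i = 0 := by
    intro i j k l hik hjl
    obtain ⟨g, hg, he⟩ := exists_log (fun z : ℝ × ℝ => α i j z.1 - α k l z.2)
      (((hc i j).comp continuous_fst).sub ((hc k l).comp continuous_snd))
      (fun z => sub_ne_zero.2 (hd i j k l hik hjl z.1 z.2))
    have e1 := hx i j k hik (fun s => g (s, 0)) (hg.comp (by fun_prop)) (fun s => by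
      rw [he]; simp only [h0])
    have e2 := hy i j l hjl (fun s => g (s, 1)) (hg.comp (by fun_prop)) (fun s => by
      rw [he]; simp only [h1])
    have e3 := hy k l j hjl.symm (fun t => g (1, t) + Real.pi * I)
      ((hg.comp (by fun_prop)).add continuous_const) (fun t => by
      rw [exp_add, he, exp_pi_mul_I]; simp only [h1]; ring)
    have e4 := hx k l i hik.symm (fun t => g (0, t) + Real.pi * I)
      ((hg.comp (by fun_prop)).add continuous_const) (fun t => by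
      rw [exp_add, he, exp_pi_mul_I]; simp only [h0]; ring)
    have e5 := hr k j
    have e6 := hp i k hik
    have e7 := hq j l hjl
    have e8 := hr i l
    have e9 : ((-1 - r k j - p i k - q j l + r i l + x i j k - y i j l + y k l j - x k l i : ℤ) : ℂ)
        * (2 * Real.pi * I) = 0 := by
      push_cast
      linear_combination -e1 + e2 - e3 + e4 + e5 + e6 + e7 - e8
    rcases mul_eq_zero.1 e9 with h | h
    · exact_mod_cast h
    · exact absurd h hne
  have d01 : (0 : Fin 3) ≠ 1 := by decide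
  have d02 : (0 : Fin 3) ≠ 2 := by decide
  have d12 : (1 : Fin 3) ≠ 2 := by decide
  have q01 := hqq 0 1 d01
  have q02 := hqq 0 2 d02
  have q12 := hqq 1 2 d12
  have a1 := hE 0 0 1 1 d01 d01
  have a2 := hE 0 1 1 0 d01 d01.symm
  have a3 := hE 0 0 1 2 d01 d02
  have a4 := hE 0 2 1 0 d01 d02.symm
  have a5 := hE 0 1 1 2 d01 d12
  have a6 := hE 0 2 1 1 d01 d12.symm
  have b1 := hE 0 0 2 1 d02 d01
  have b2 := hE 0 1 2 0 d02 d01.symm
  have b3 := hE 0 0 2 2 d02 d02
  have b4 := hE 0 2 2 0 d02 d02.symm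
  have b5 := hE 0 1 2 2 d02 d12
  have b6 := hE 0 2 2 1 d02 d12.symm
  have c1 := hE 1 0 2 1 d12 d01
  have c2 := hE 1 1 2 0 d12 d01.symm
  have c3 := hE 1 0 2 2 d12 d02
  have c4 := hE 1 2 2 0 d12 d02.symm
  have c5 := hE 1 1 2 2 d12 d12
  have c6 := hE 1 2 2 1 d12 d12.symm
  omega

section drawing

variable {V : Type*} {G : SimpleGraph V}

/-- The part of a drawing carried by the vertex set `S`. -/
def dpart (G : SimpleGraph V) (f : V → ℝ × ℝ) (γ : V → V → ℝ → ℝ × ℝ) (S : Set V) : Set (ℝ × ℝ) :=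
  {z | (∃ u ∈ S, z = f u) ∨ ∃ u ∈ S, ∃ v ∈ S, G.Adj u v ∧ ∃ t ∈ Set.Icc (0 : ℝ) 1, z = γ u v t}

lemma joinedIn_adj {f : V → ℝ × ℝ} {γ : V → V → ℝ → ℝ × ℝ}
    (hγ : ∀ u v, G.Adj u v → ContinuousOn (γ u v) (Set.Icc 0 1) ∧ γ u v 0 = f u ∧ γ u v 1 = f v)
    {S : Set V} {u v : V} (hu : u ∈ S) (hv : v ∈ S) (h : G.Adj u v) :
    JoinedIn (dpart G f γ S) (f u) (f v) := by
  obtain ⟨h1, h2, h3⟩ := hγ u v h
  refine ⟨⟨⟨fun t : unitInterval => γ u v t, ?_⟩, ?_, ?_⟩, ?_⟩
  · exact continuousOn_iff_continuous_domRestrict.1 h1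
  · simpa using h2
  · simpa using h3
  · intro t
    exact Or.inr ⟨u, hu, v, hv, h, t, t.2, rfl⟩

lemma joinedIn_connected {f : V → ℝ × ℝ} {γ : V → V → ℝ → ℝ × ℝ}
    (hγ : ∀ u v, G.Adj u v → ContinuousOn (γ u v) (Set.Icc 0 1) ∧ γ u v 0 = f u ∧ γ u v 1 = f v)
    {S : Set V} (hS : (G.induce S).Connected) {u v : V} (hu : u ∈ S) (hv : v ∈ S) :
    JoinedIn (dpart G f γ S) (f u) (f v) := by
  obtain ⟨p⟩ := hS.preconnected ⟨u, hu⟩ ⟨v, hv⟩
  have key : ∀ (a b : S), (G.induce S).Walk a b → JoinedIn (dpart G f γ S) (f a) (f b) := by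
    intro a b p
    induction p with
    | @nil a => exact JoinedIn.refl (Or.inl ⟨a, a.2, rfl⟩)
    | @cons a b c h p ih => exact (joinedIn_adj hγ a.2 b.2 h).trans ih
  exact key _ _ p

lemma dpart_disjoint {f : V → ℝ × ℝ} {γ : V → V → ℝ → ℝ × ℝ} (hf : Function.Injective f)
    (hγ : ∀ u v, G.Adj u v → γ u v 0 = f u ∧ γ u v 1 = f v ∧
      ∀ t ∈ Set.Ioo (0 : ℝ) 1, ∀ w, γ u v t ≠ f w)
    (hd : ∀ u v u' v', G.Adj u v → G.Adj u' v' → s(u, v) ≠ s(u', v') →
      ∀ t ∈ Set.Ioo (0 : ℝ) 1, ∀ t' ∈ Set.Ioo (0 : ℝ) 1, γ u v t ≠ γ u' v' t')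
    {S S' : Set V} (h : Disjoint S S') : Disjoint (dpart G f γ S) (dpart G f γ S') := by
  -- normal form of a point of the drawing
  have hnf : ∀ {S : Set V} {z : ℝ × ℝ}, z ∈ dpart G f γ S → (∃ u ∈ S, z = f u) ∨
      ∃ u ∈ S, ∃ v ∈ S, G.Adj u v ∧ ∃ t ∈ Set.Ioo (0 : ℝ) 1, z = γ u v t := by
    intro S z hz
    rcases hz with hz | ⟨u, hu, v, hv, hadj, t, ht, rfl⟩
    · exact Or.inl hz
    · rcases ht.1.eq_or_lt with h0 | h0
      · left; exact ⟨u, hu, by rw [← h0]; exact (hγ u v hadj).1⟩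
      · rcases ht.2.eq_or_lt with h1 | h1
        · left; exact ⟨v, hv, by rw [h1]; exact (hγ u v hadj).2.1⟩
        · right; exact ⟨u, hu, v, hv, hadj, t, ⟨h0, h1⟩, rfl⟩
  rw [Set.disjoint_left] at h ⊢
  intro z hz hz'
  rcases hnf hz with ⟨u, hu, h1⟩ | ⟨u, hu, v, hv, hadj, t, ht, h1⟩ <;>
    rcases hnf hz' with ⟨u', hu', h2⟩ | ⟨u', hu', v', hv', hadj', t', ht', h2⟩
  · rw [h1] at h2
    exact h hu (hf h2 ▸ hu')
  · rw [h1] at h2
    exact (hγ u' v' hadj').2.2 t' ht' u h2.symm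
  · rw [h1] at h2
    exact (hγ u v hadj).2.2 t ht u' h2
  · rw [h1] at h2
    refine hd u v u' v' hadj hadj' ?_ t ht t' ht' h2
    intro hs
    rcases Sym2.eq_iff.1 hs with ⟨e1, -⟩ | ⟨e1, -⟩
    · exact h hu (e1 ▸ hu')
    · exact h hu (e1 ▸ hv')

/-- A graph drawn in the plane has no `K_{3,3}` minor. -/
theorem not_hasK33Minor_of_drawing {f : V → ℝ × ℝ} {γ : V → V → ℝ → ℝ × ℝ}
    (hf : Function.Injective f)
    (hγ : ∀ u v, G.Adj u v → ContinuousOn (γ u v) (Set.Icc 0 1) ∧ γ u v 0 = f u ∧ γ u v 1 = f v ∧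
      ∀ t ∈ Set.Ioo (0 : ℝ) 1, ∀ w, γ u v t ≠ f w)
    (hd : ∀ u v u' v', G.Adj u v → G.Adj u' v' → s(u, v) ≠ s(u', v') →
      ∀ t ∈ Set.Ioo (0 : ℝ) 1, ∀ t' ∈ Set.Ioo (0 : ℝ) 1, γ u v t ≠ γ u' v' t') :
    ¬ HasK33Minor G := by
  rintro ⟨A, B, hA, hB, hAA, hBB, hAB, hadj⟩
  have hγ1 : ∀ u v, G.Adj u v → ContinuousOn (γ u v) (Set.Icc 0 1) ∧ γ u v 0 = f u ∧
      γ u v 1 = f v := fun u v h => ⟨(hγ u v h).1, (hγ u v h).2.1, (hγ u v h).2.2.1⟩
  have hγ2 : ∀ u v, G.Adj u v → γ u v 0 = f u ∧ γ u v 1 = f v ∧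
      ∀ t ∈ Set.Ioo (0 : ℝ) 1, ∀ w, γ u v t ≠ f w := fun u v h => (hγ u v h).2
  have hAne : ∀ i, ∃ a, a ∈ A i := fun i => by
    obtain ⟨⟨a, ha⟩⟩ := (hA i).2.nonempty; exact ⟨a, ha⟩
  have hBne : ∀ i, ∃ a, a ∈ B i := fun i => by
    obtain ⟨⟨a, ha⟩⟩ := (hB i).2.nonempty; exact ⟨a, ha⟩
  choose a ha using hAne
  choose b hb using hBne
  have hconn : ∀ i j, (G.induce (A i ∪ B j)).Connected := by
    intro i j
    obtain ⟨x, hx, y, hy, hxy⟩ := hadj i j
    exact SimpleGraph.connected_induce_union (hA i).2.preconnected (hB j).2.preconnected hx hy hxy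
  have hj : ∀ i j, JoinedIn (dpart G f γ (A i ∪ B j)) (f (a i)) (f (b j)) := fun i j =>
    joinedIn_connected hγ1 (hconn i j) (Or.inl (ha i)) (Or.inr (hb j))
  choose P hP using hj
  let ι : ℝ × ℝ → ℂ := fun z => ⟨z.1, z.2⟩
  have hι : Continuous ι := Complex.equivRealProdCLM.symm.continuous
  have hιinj : Function.Injective ι := by
    intro z w h
    have h1 := congrArg Complex.re h
    have h2 := congrArg Complex.im h
    exact Prod.ext h1 h2
  have hmem : ∀ i j s, (P i j).extend s ∈ dpart G f γ (A i ∪ B j) := by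
    intro i j s
    have : (P i j).extend s ∈ Set.range (P i j) := by
      rw [← Path.extend_range]; exact ⟨s, rfl⟩
    obtain ⟨t, ht⟩ := this
    rw [← ht]; exact hP i j t
  refine no_K33_drawing (fun i => ι (f (a i))) (fun j => ι (f (b j)))
    (fun i j s => ι ((P i j).extend s)) (fun i j => hι.comp (P i j).continuous_extend) ?_ ?_ ?_
  · intro i j; simp
  · intro i j; simp
  · intro i j k l hik hjl s t h
    have hdis : Disjoint (A i ∪ B j) (A k ∪ B l) := by
      rw [Set.disjoint_union_left, Set.disjoint_union_right, Set.disjoint_union_right]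
      exact ⟨⟨hAA i k hik, hAB i l⟩, ⟨(hAB k j).symm, hBB j l hjl⟩⟩
    have h2 := dpart_disjoint hf hγ2 hd hdis
    rw [Set.disjoint_left] at h2
    refine h2 (hmem i j s) ?_
    rw [hιinj h]
    exact hmem k l t

end drawing

end Pool.Agent.Lib.MP_2ce0dd_pr
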